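import Mathlib
import Pool.Agent.TH278.DX.Defs3
set_option autoImplicit false

namespace Pool.Agent.TH855.J5186

open Finset

theorem far {G Q : Type} [Group G] [Fintype Q] [DecidableEq Q] [Nonempty Q] (E : Finset G)
    (F : G → ℝ) (hF : ∀ g, 0 ≤ F g) (Y : G → (EuclideanSpace ℂ Q →L[ℂ] EuclideanSpace ℂ Q))
    (hY : ∀ g, ‖Y g‖ ≤ 1) (ε δ : ℝ) (hε : ε ≤ 1) (hδ0 : 0 ≤ δ) (hδ : δ ≤ 1)
    (hYtr : ∀ g ∈ E, (1 - ε) * Fintype.card Q ≤ ∑ b : Q, ‖Y g (EuclideanSpace.single b 1)‖ ^ 2)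
    (w : G → G → ℝ) (hw : ∀ s v, w s v = 0 ∨ w s v = 1)
    (hrow : ∑ g ∈ E, F g * w 1 g ≤ δ) (hcol : 1 - δ ≤ ∑ g ∈ E, F g * w g⁻¹ 1)
    (T : lp (fun _ : G => EuclideanSpace ℂ Q) 2 →L[ℂ] lp (fun _ : G => EuclideanSpace ℂ Q) 2)
    (hT : ∀ (φ : lp (fun _ : G => EuclideanSpace ℂ Q) 2) (s : G),
        T φ s = ∑ g ∈ E, ((Real.sqrt (F g) * w s (s * g) : ℝ) : ℂ) • Y g (φ (s * g)))
    (σ : G → (lp (fun _ : G => EuclideanSpace ℂ Q) 2 →L[ℂ] lp (fun _ : G => EuclideanSpace ℂ Q) 2))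
    (hσ : ∀ (t : G) (φ : lp (fun _ : G => EuclideanSpace ℂ Q) 2) (s : G),
      σ t φ s = φ (t⁻¹ * s))
    (B : lp (fun _ : G => EuclideanSpace ℂ Q) 2 →L[ℂ] lp (fun _ : G => EuclideanSpace ℂ Q) 2)
    (hB : ∀ t, B * σ t = σ t * B) :
    Real.sqrt ((1 - δ) * (1 - ε)) - Real.sqrt δ ≤ 2 * ‖T - B‖ := by
  classical
  set e : Q → EuclideanSpace ℂ Q := fun b => EuclideanSpace.single b (1 : ℂ) with he
  have hen : ∀ b, ‖e b‖ = 1 := fun b => by simp [he]
  obtain ⟨sg, hs_self, hs_ne, hs_inner, hsn⟩ :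
      ∃ sg : G → Q → lp (fun _ : G => EuclideanSpace ℂ Q) 2,
        (∀ v b, sg v b v = e b) ∧ (∀ v b s, s ≠ v → sg v b s = 0) ∧
        (∀ v b f, inner ℂ (sg v b) f = inner ℂ (e b) (f v)) ∧ ∀ v b, ‖sg v b‖ = 1 := by
    refine ⟨fun v b => lp.single (E := fun _ : G => EuclideanSpace ℂ Q) 2 v (e b), ?_, ?_, ?_, ?_⟩
    · intro v b; exact lp.single_apply_self _ _ _
    · intro v b s hs; exact lp.single_apply_ne _ _ _ hs
    · intro v b f; exact lp.inner_single_left _ _ _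
    · intro v b
      rw [lp.norm_single (by norm_num), hen]
  set U := T - B with hU
  have hlp : ∀ (f : lp (fun _ : G => EuclideanSpace ℂ Q) 2) (s : Finset G),
      ∑ i ∈ s, ‖f i‖ ^ 2 ≤ ‖f‖ ^ 2 := by
    intro f s
    have := lp.sum_rpow_le_norm_rpow (p := 2) (by norm_num) f s
    simpa using this
  -- column
  have hcolU : ∀ b, ∑ g ∈ E, ‖U (sg 1 b) g⁻¹‖ ^ 2 ≤ ‖U‖ ^ 2 := by
    intro b
    have h1 := hlp (U (sg 1 b)) (E.image fun g => g⁻¹)
    rw [Finset.sum_image (fun a _ b _ h => inv_injective h)] at h1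
    refine h1.trans ?_
    have h2 := U.le_opNorm (sg 1 b)
    rw [hsn, mul_one] at h2
    exact pow_le_pow_left₀ (norm_nonneg _) h2 2
  -- row
  have hrowU : ∑ g ∈ E, ∑ b, ‖U (sg g b) 1‖ ^ 2 ≤ Fintype.card Q * ‖U‖ ^ 2 := by
    have key : ∀ g b b', ‖(U (sg g b') 1 : EuclideanSpace ℂ Q) b‖ =
        ‖(ContinuousLinearMap.adjoint U (sg 1 b) g : EuclideanSpace ℂ Q) b'‖ := by
      intro g b b'
      have e1 : (U (sg g b') 1 : EuclideanSpace ℂ Q) b = inner ℂ (sg 1 b) (U (sg g b')) := by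
        rw [hs_inner, he]
        rw [EuclideanSpace.inner_single_left]
        simp
      have e2 : (ContinuousLinearMap.adjoint U (sg 1 b) g : EuclideanSpace ℂ Q) b' =
          inner ℂ (sg g b') (ContinuousLinearMap.adjoint U (sg 1 b)) := by
        rw [hs_inner, he]
        rw [EuclideanSpace.inner_single_left]
        simp
      rw [e1, e2, ContinuousLinearMap.adjoint_inner_right, ← inner_conj_symm, RCLike.norm_conj]
    have h1 : ∀ b, ∑ g ∈ E, ‖ContinuousLinearMap.adjoint U (sg 1 b) g‖ ^ 2 ≤ ‖U‖ ^ 2 := by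
      intro b
      refine (hlp _ _).trans ?_
      have h2 := (ContinuousLinearMap.adjoint U).le_opNorm (sg 1 b)
      rw [hsn, mul_one, LinearIsometryEquiv.norm_map] at h2
      exact pow_le_pow_left₀ (norm_nonneg _) h2 2
    calc ∑ g ∈ E, ∑ b', ‖U (sg g b') 1‖ ^ 2
        = ∑ g ∈ E, ∑ b', ∑ b, ‖(U (sg g b') 1 : EuclideanSpace ℂ Q) b‖ ^ 2 := by
          refine Finset.sum_congr rfl fun g _ => Finset.sum_congr rfl fun b' _ => ?_
          rw [EuclideanSpace.norm_sq_eq]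
      _ = ∑ b, ∑ g ∈ E, ‖ContinuousLinearMap.adjoint U (sg 1 b) g‖ ^ 2 := by
          simp_rw [key]
          rw [Finset.sum_comm]
          have : ∀ b', ∑ g ∈ E, ∑ b, ‖(ContinuousLinearMap.adjoint U (sg 1 b) g :
              EuclideanSpace ℂ Q) b'‖ ^ 2 = ∑ b, ∑ g ∈ E,
              ‖(ContinuousLinearMap.adjoint U (sg 1 b) g : EuclideanSpace ℂ Q) b'‖ ^ 2 :=
            fun b' => Finset.sum_comm
          simp_rw [this]
          rw [Finset.sum_comm]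
          refine Finset.sum_congr rfl fun b _ => ?_
          rw [Finset.sum_comm]
          refine Finset.sum_congr rfl fun g _ => ?_
          rw [EuclideanSpace.norm_sq_eq]
      _ ≤ ∑ b : Q, ‖U‖ ^ 2 := Finset.sum_le_sum fun b _ => h1 b
      _ = _ := by simp
  -- values
  have hTc : ∀ g ∈ E, ∀ b, (T (sg 1 b) : G → EuclideanSpace ℂ Q) g⁻¹ =
      ((Real.sqrt (F g) * w g⁻¹ 1 : ℝ) : ℂ) • Y g (e b) := by
    intro g hg b
    rw [hT, Finset.sum_eq_single g]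
    · rw [inv_mul_cancel, hs_self]
    · intro h _ hne
      have : (sg 1 b : G → EuclideanSpace ℂ Q) (g⁻¹ * h) = 0 := by
        apply hs_ne
        intro h1
        exact hne (inv_mul_eq_one.1 h1).symm
      rw [this, map_zero, smul_zero]
    · intro h; exact absurd hg h
  have hTr : ∀ g ∈ E, ∀ b, (T (sg g b) : G → EuclideanSpace ℂ Q) 1 =
      ((Real.sqrt (F g) * w 1 g : ℝ) : ℂ) • Y g (e b) := by
    intro g hg b
    rw [hT, Finset.sum_eq_single g]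
    · rw [one_mul, hs_self]
    · intro h _ hne
      have : (sg g b : G → EuclideanSpace ℂ Q) (1 * h) = 0 := by
        apply hs_ne
        rwa [one_mul]
      rw [this, map_zero, smul_zero]
    · intro h; exact absurd hg h
  have hBr : ∀ g b, (B (sg g b) : G → EuclideanSpace ℂ Q) 1 = B (sg 1 b) g⁻¹ := by
    intro g b
    have e1 : sg g b = σ g (sg 1 b) := by
      refine lp.ext ?_
      funext s
      rw [hσ]
      by_cases h : s = g
      · subst h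
        rw [hs_self, inv_mul_cancel, hs_self]
      · rw [hs_ne _ _ _ h, hs_ne]
        intro h1
        exact h (inv_mul_eq_one.1 h1).symm
    rw [e1]
    have := congrArg (fun L => L (sg 1 b)) (hB g)
    have h2 : B (σ g (sg 1 b)) = σ g (B (sg 1 b)) := this
    rw [h2, hσ, mul_one]
  -- assemble in PiLp
  let Xc : PiLp 2 (fun _ : E × Q => EuclideanSpace ℂ Q) := WithLp.toLp 2 fun p =>
    ((Real.sqrt (F p.1) * w (p.1 : G)⁻¹ 1 : ℝ) : ℂ) • Y p.1 (e p.2)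
  let Xr : PiLp 2 (fun _ : E × Q => EuclideanSpace ℂ Q) := WithLp.toLp 2 fun p =>
    ((Real.sqrt (F p.1) * w 1 (p.1 : G) : ℝ) : ℂ) • Y p.1 (e p.2)
  let β : PiLp 2 (fun _ : E × Q => EuclideanSpace ℂ Q) := WithLp.toLp 2 fun p =>
    B (sg 1 p.2) (p.1 : G)⁻¹
  have hq : (0 : ℝ) < Fintype.card Q := by exact_mod_cast Fintype.card_pos
  have n1 : ‖Xc - β‖ ^ 2 ≤ Fintype.card Q * ‖U‖ ^ 2 := by
    rw [PiLp.norm_sq_eq_of_L2, Fintype.sum_prod_type, Finset.sum_comm]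
    have : ∀ b : Q, ∑ g : E, ‖(Xc - β) (g, b)‖ ^ 2 ≤ ‖U‖ ^ 2 := by
      intro b
      refine le_trans (le_of_eq ?_) (hcolU b)
      rw [← Finset.sum_coe_sort E]
      refine Finset.sum_congr rfl fun g _ => ?_
      congr 2
      show ((Real.sqrt (F g) * w (g : G)⁻¹ 1 : ℝ) : ℂ) • Y g (e b) - B (sg 1 b) (g : G)⁻¹ = _
      rw [← hTc g g.2 b]
      rfl
    calc _ ≤ ∑ b : Q, ‖U‖ ^ 2 := Finset.sum_le_sum fun b _ => this b
      _ = _ := by simp
  have n2 : ‖Xr - β‖ ^ 2 ≤ Fintype.card Q * ‖U‖ ^ 2 := by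
    rw [PiLp.norm_sq_eq_of_L2, Fintype.sum_prod_type]
    refine le_trans (le_of_eq ?_) hrowU
    rw [← Finset.sum_coe_sort E]
    refine Finset.sum_congr rfl fun g _ => Finset.sum_congr rfl fun b _ => ?_
    congr 2
    show ((Real.sqrt (F g) * w 1 (g : G) : ℝ) : ℂ) • Y g (e b) - B (sg 1 b) (g : G)⁻¹ = _
    rw [← hTr g g.2 b, ← hBr g b]
    rfl
  have hww : ∀ s v, w s v ^ 2 = w s v := fun s v => by
    rcases hw s v with h | h <;> simp [h]
  have hw0 : ∀ s v, 0 ≤ w s v := fun s v => by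
    rcases hw s v with h | h <;> simp [h]
  have n3 : (1 - δ) * (1 - ε) * Fintype.card Q ≤ ‖Xc‖ ^ 2 := by
    rw [PiLp.norm_sq_eq_of_L2, Fintype.sum_prod_type]
    have : ∀ g : E, F g * w (g : G)⁻¹ 1 * ((1 - ε) * Fintype.card Q) ≤
        ∑ b : Q, ‖Xc (g, b)‖ ^ 2 := by
      intro g
      have h1 := hYtr g g.2
      have h2 : ∀ b, ‖Xc (g, b)‖ ^ 2 = F g * w (g : G)⁻¹ 1 * ‖Y g (e b)‖ ^ 2 := by
        intro b
        show ‖((Real.sqrt (F g) * w (g : G)⁻¹ 1 : ℝ) : ℂ) • Y g (e b)‖ ^ 2 = _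
        rw [norm_smul, mul_pow, Complex.norm_real, Real.norm_eq_abs, sq_abs, mul_pow,
          Real.sq_sqrt (hF g), hww]
      simp_rw [h2]
      rw [← Finset.mul_sum]
      exact mul_le_mul_of_nonneg_left h1 (mul_nonneg (hF _) (hw0 _ _))
    refine le_trans ?_ (Finset.sum_le_sum fun g _ => this g)
    rw [← Finset.sum_mul, Finset.sum_coe_sort E (fun g => F g * w g⁻¹ 1), mul_assoc]
    exact mul_le_mul_of_nonneg_right hcol (mul_nonneg (by linarith) hq.le)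
  have n4 : ‖Xr‖ ^ 2 ≤ δ * Fintype.card Q := by
    rw [PiLp.norm_sq_eq_of_L2, Fintype.sum_prod_type]
    have : ∀ g : E, ∑ b : Q, ‖Xr (g, b)‖ ^ 2 ≤ F g * w 1 (g : G) * Fintype.card Q := by
      intro g
      have h2 : ∀ b, ‖Xr (g, b)‖ ^ 2 ≤ F g * w 1 (g : G) := by
        intro b
        show ‖((Real.sqrt (F g) * w 1 (g : G) : ℝ) : ℂ) • Y g (e b)‖ ^ 2 ≤ _
        rw [norm_smul, mul_pow, Complex.norm_real, Real.norm_eq_abs, sq_abs, mul_pow,
          Real.sq_sqrt (hF g), hww]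
        have h3 : ‖Y g (e b)‖ ≤ 1 := by
          have := (Y g).le_opNorm (e b)
          rw [hen, mul_one] at this
          exact this.trans (hY g)
        have h4 : ‖Y g (e b)‖ ^ 2 ≤ 1 := pow_le_one₀ (norm_nonneg _) h3
        exact mul_le_of_le_one_right (mul_nonneg (hF _) (hw0 _ _)) h4
      calc _ ≤ ∑ b : Q, F g * w 1 (g : G) := Finset.sum_le_sum fun b _ => h2 b
        _ = _ := by simp [mul_comm]
    refine le_trans (Finset.sum_le_sum fun g _ => this g) ?_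
    rw [← Finset.sum_mul, Finset.sum_coe_sort E (fun g => F g * w 1 g)]
    exact mul_le_mul_of_nonneg_right hrow hq.le
  -- conclude
  set c := Real.sqrt (Fintype.card Q : ℝ) with hc
  have hc0 : 0 < c := Real.sqrt_pos.2 hq
  have m1 : ‖Xc - β‖ ≤ c * ‖U‖ := by
    have := Real.sqrt_le_sqrt n1
    rwa [Real.sqrt_sq (norm_nonneg _), Real.sqrt_mul hq.le, Real.sqrt_sq (norm_nonneg _)] at this
  have m2 : ‖Xr - β‖ ≤ c * ‖U‖ := by
    have := Real.sqrt_le_sqrt n2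
    rwa [Real.sqrt_sq (norm_nonneg _), Real.sqrt_mul hq.le, Real.sqrt_sq (norm_nonneg _)] at this
  have m3 : Real.sqrt ((1 - δ) * (1 - ε)) * c ≤ ‖Xc‖ := by
    have := Real.sqrt_le_sqrt n3
    rwa [Real.sqrt_sq (norm_nonneg _), Real.sqrt_mul (mul_nonneg (by linarith) (by linarith))]
      at this
  have m4 : ‖Xr‖ ≤ Real.sqrt δ * c := by
    have := Real.sqrt_le_sqrt n4
    rwa [Real.sqrt_sq (norm_nonneg _), Real.sqrt_mul hδ0] at this
  have m5 : ‖Xc‖ ≤ ‖Xc - β‖ + ‖Xr - β‖ + ‖Xr‖ := by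
    have : Xc = (Xc - β) - (Xr - β) + Xr := by abel
    calc ‖Xc‖ = ‖(Xc - β) - (Xr - β) + Xr‖ := by rw [← this]
      _ ≤ ‖(Xc - β) - (Xr - β)‖ + ‖Xr‖ := norm_add_le _ _
      _ ≤ _ := by gcongr; exact norm_sub_le _ _
  have m6 : Real.sqrt ((1 - δ) * (1 - ε)) * c ≤ (2 * ‖U‖ + Real.sqrt δ) * c := by
    nlinarith
  have m7 := le_of_mul_le_mul_right m6 hc0
  linarith

end Pool.Agent.TH855.J5186
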