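import Mathlib

set_option autoImplicit false

/-!
# Counting colourings (Rosenfeld's method) with local occupancy

`Col G q S` is the set of proper colourings of `G[S]` with `q` colours.  If the independence
polynomials of the neighbourhoods satisfy a local occupancy inequality, then adding a vertex
multiplies the number of colourings by at least `ℓ`.
-/

namespace Pool.Agent.TH855

open Finset Classical

variable {V : Type} [Fintype V]

/-- proper colourings of `G[S]`; `none` outside `S` -/
noncomputable def Col (G : SimpleGraph V) (q : ℕ) (S : Finset V) :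
    Finset (V → Option (Fin q)) :=
  univ.filter (fun f => (∀ v, f v = none ↔ v ∉ S) ∧ ∀ u v, G.Adj u v → f u ≠ none → f u ≠ f v)

/-- colours that do not appear among the neighbours -/
noncomputable def Av (G : SimpleGraph V) {q : ℕ} (f : V → Option (Fin q)) (u : V) :
    Finset (Fin q) :=
  univ.filter (fun c => ∀ w, G.Adj u w → f w ≠ some c)

variable {G : SimpleGraph V} {q : ℕ}

theorem mem_col {S : Finset V} {f : V → Option (Fin q)} : f ∈ Col G q S ↔
    (∀ v, f v = none ↔ v ∉ S) ∧ ∀ u v, G.Adj u v → f u ≠ none → f u ≠ f v := by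
  simp [Col]

theorem mem_av {f : V → Option (Fin q)} {u : V} {c : Fin q} : c ∈ Av G f u ↔
    ∀ w, G.Adj u w → f w ≠ some c := by
  simp [Av]

/-- `Av f u` only depends on the values at the neighbours of `u` -/
theorem av_congr {f g : V → Option (Fin q)} {u : V} (h : ∀ w, G.Adj u w → f w = g w) :
    Av G f u = Av G g u := by
  ext c
  rw [mem_av, mem_av]
  constructor
  · intro H w hw; rw [← h w hw]; exact H w hw
  · intro H w hw; rw [h w hw]; exact H w hw

theorem av_update {f : V → Option (Fin q)} {u v : V} (h : ¬ G.Adj u v) (x : Option (Fin q)) :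
    Av G (Function.update f v x) u = Av G f u := by
  apply av_congr
  intro w hw
  have : w ≠ v := by rintro rfl; exact h hw
  rw [Function.update_of_ne this]

/-- decomposition of sums over colourings of `insert v S` -/
theorem sum_insert {S : Finset V} {v : V} (hv : v ∉ S) (Φ : (V → Option (Fin q)) → ℝ) :
    ∑ g ∈ Col G q (insert v S), Φ g =
      ∑ f ∈ Col G q S, ∑ c ∈ Av G f v, Φ (Function.update f v (some c)) := by
  rw [Finset.sum_sigma']
  refine Finset.sum_bij' (fun g hg => (⟨Function.update g v none, (g v).get (by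
      rw [mem_col] at hg
      have h1 := (hg.1 v).not
      rw [Option.isSome_iff_ne_none]
      exact h1.2 (by simp))⟩ : Σ _ : V → Option (Fin q), Fin q))
    (fun p _ => Function.update p.1 v (some p.2)) ?_ ?_ ?_ ?_ ?_
  · intro g hg
    have hg' := mem_col.1 hg
    rw [Finset.mem_sigma]
    refine ⟨?_, ?_⟩
    · rw [mem_col]
      refine ⟨?_, ?_⟩
      · intro w
        by_cases hw : w = v
        · subst hw; simp [hv]
        · simp only [Function.update_of_ne hw]
          rw [hg'.1 w]
          simp [hw]
      · intro u w huw hu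
        simp only at hu ⊢
        by_cases huv : u = v
        · subst huv; simp at hu
        · rw [Function.update_of_ne huv] at hu ⊢
          by_cases hwv : w = v
          · subst hwv
            rw [Function.update_self]
            exact hu
          · rw [Function.update_of_ne hwv]
            exact hg'.2 u w huw hu
    · simp only
      rw [mem_av]
      intro w hw
      have hwv : w ≠ v := hw.ne'
      rw [Function.update_of_ne hwv]
      intro h
      have h1 : g v ≠ none := by
        intro h2
        rw [hg'.1 v] at h2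
        exact h2 (by simp)
      refine hg'.2 v w hw h1 ?_
      rw [h, Option.some_get]
  · rintro ⟨f, c⟩ hp
    rw [Finset.mem_sigma] at hp
    obtain ⟨hf, hc⟩ := hp
    simp only at hf hc ⊢
    rw [mem_col] at hf
    rw [mem_av] at hc
    rw [mem_col]
    refine ⟨?_, ?_⟩
    · intro w
      by_cases hw : w = v
      · subst hw; simp
      · rw [Function.update_of_ne hw, hf.1 w]
        simp [hw]
    · intro u w huw hu
      by_cases huv : u = v
      · subst huv
        rw [Function.update_self, Function.update_of_ne huw.ne']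
        intro h
        exact hc w huw h.symm
      · rw [Function.update_of_ne huv] at hu ⊢
        by_cases hwv : w = v
        · subst hwv
          rw [Function.update_self]
          exact hc u huw.symm
        · rw [Function.update_of_ne hwv]
          exact hf.2 u w huw hu
  · intro g hg
    simp
  · rintro ⟨f, c⟩ hp
    rw [Finset.mem_sigma] at hp
    obtain ⟨hf, hc⟩ := hp
    simp only at hf hc ⊢
    have h1 : f v = none := ((mem_col.1 hf).1 v).2 hv
    simp only [Function.update_idem, Function.update_self, Option.get_some]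
    congr 1
    rw [← h1, Function.update_eq_self]
  · intro g hg
    simp

/-- the indicator that the list of `u` is big -/
noncomputable def big (G : SimpleGraph V) (s0 : ℕ) (f : V → Option (Fin q)) (u : V) : ℝ :=
  if s0 ≤ (Av G f u).card then 1 else 0

/-- weight of `u` for the colour `c` -/
noncomputable def wt (G : SimpleGraph V) (s0 : ℕ) (c : Fin q) (f : V → Option (Fin q)) (u : V) :
    ℝ :=
  if c ∈ Av G f u ∧ s0 ≤ (Av G f u).card then 1 / (((Av G f u).card : ℝ) - 1) else 0

/-- the vertices of `N` of colour `c` -/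
noncomputable def Nc (N : Finset V) (c : Fin q) (f : V → Option (Fin q)) : Finset V :=
  N.filter (fun u => f u = some c)

/-- intermediate weighted count -/
noncomputable def Y (G : SimpleGraph V) (s0 : ℕ) (S N : Finset V) (c : Fin q) (A B : Finset V) :
    ℝ :=
  ∑ f ∈ Col G q S, if Nc N c f = A then (∏ u ∈ A, big G s0 f u) * ∏ u ∈ B, wt G s0 c f u else 0

theorem flip {s0 : ℕ} (hs0 : 2 ≤ s0) {S N : Finset V} (hN : N ⊆ S) (c : Fin q) {A B : Finset V}
    {u : V} (hu : u ∈ N) (huA : u ∉ A) (huB : u ∉ B) (hA : ∀ w ∈ A, ¬ G.Adj w u)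
    (hB : ∀ w ∈ B, ¬ G.Adj w u) :
    Y G s0 S N c (insert u A) B = Y G s0 S N c A (insert u B) := by
  have hS : S = insert u (S.erase u) := (Finset.insert_erase (hN hu)).symm
  have huS : u ∉ S.erase u := Finset.notMem_erase u S
  rw [Y, Y, hS, sum_insert huS, sum_insert huS]
  refine Finset.sum_congr rfl (fun f hf => ?_)
  have hfu : f u = none := ((mem_col.1 hf).1 u).2 huS
  -- the colour classes
  have hN1 : Nc N c (Function.update f u (some c)) = insert u (Nc N c f) := by
    ext w
    rw [Nc, Nc, Finset.mem_insert, Finset.mem_filter, Finset.mem_filter]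
    by_cases hw : w = u
    · subst hw; simp [hu]
    · rw [Function.update_of_ne hw]; simp [hw]
  have hN2 : ∀ c' : Fin q, c' ≠ c → Nc N c (Function.update f u (some c')) = Nc N c f := by
    intro c' hc'
    ext w
    rw [Nc, Nc, Finset.mem_filter, Finset.mem_filter]
    by_cases hw : w = u
    · subst hw
      rw [Function.update_self, hfu]
      simp [hc']
    · rw [Function.update_of_ne hw]
  have huN : u ∉ Nc N c f := by
    rw [Nc, Finset.mem_filter, hfu]; simp
  have hbig : ∀ (x : Option (Fin q)) (w : V), ¬ G.Adj w u →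
      big G s0 (Function.update f u x) w = big G s0 f w := by
    intro x w hw; rw [big, big, av_update hw]
  have hwt : ∀ (x : Option (Fin q)) (w : V), ¬ G.Adj w u →
      wt G s0 c (Function.update f u x) w = wt G s0 c f w := by
    intro x w hw; rw [wt, wt, av_update hw]
  have huu : ¬ G.Adj u u := G.loopless.irrefl u
  have hPA : ∀ x, ∏ w ∈ A, big G s0 (Function.update f u x) w = ∏ w ∈ A, big G s0 f w :=
    fun x => Finset.prod_congr rfl (fun w hw => hbig x w (hA w hw))
  have hPB : ∀ x, ∏ w ∈ B, wt G s0 c (Function.update f u x) w = ∏ w ∈ B, wt G s0 c f w :=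
    fun x => Finset.prod_congr rfl (fun w hw => hwt x w (hB w hw))
  set P : ℝ := (∏ w ∈ A, big G s0 f w) * ∏ w ∈ B, wt G s0 c f w with hP
  -- left side
  have hL : ∑ c' ∈ Av G f u, (if Nc N c (Function.update f u (some c')) = insert u A then
      (∏ w ∈ insert u A, big G s0 (Function.update f u (some c')) w) *
        ∏ w ∈ B, wt G s0 c (Function.update f u (some c')) w else 0) =
      if c ∈ Av G f u ∧ Nc N c f = A then big G s0 f u * P else 0 := by
    have h1 : ∀ c' ∈ Av G f u, (if Nc N c (Function.update f u (some c')) = insert u A then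
      (∏ w ∈ insert u A, big G s0 (Function.update f u (some c')) w) *
        ∏ w ∈ B, wt G s0 c (Function.update f u (some c')) w else 0) =
        if c' = c then (if Nc N c f = A then big G s0 f u * P else 0) else 0 := by
      intro c' _
      rw [Finset.prod_insert huA, hPA, hPB, hbig _ _ huu]
      by_cases hc : c' = c
      · subst hc
        rw [if_pos rfl, hN1]
        have : insert u (Nc N c' f) = insert u A ↔ Nc N c' f = A := by
          constructor
          · intro h
            have h2 : (insert u (Nc N c' f)).erase u = (insert u A).erase u := by rw [h]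
            rwa [Finset.erase_insert huN, Finset.erase_insert huA] at h2
          · intro h; rw [h]
        by_cases h : Nc N c' f = A
        · rw [if_pos (this.2 h), if_pos h, hP]; ring
        · rw [if_neg (fun h' => h (this.1 h')), if_neg h]
      · rw [if_neg hc, if_neg]
        rw [hN2 c' hc]
        intro h
        exact huN (by rw [h]; exact Finset.mem_insert_self _ _)
    rw [Finset.sum_congr rfl h1, Finset.sum_ite_eq']
    by_cases h : c ∈ Av G f u
    · simp [h]
    · simp [h]
  have hR : ∑ c' ∈ Av G f u, (if Nc N c (Function.update f u (some c')) = A then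
      (∏ w ∈ A, big G s0 (Function.update f u (some c')) w) *
        ∏ w ∈ insert u B, wt G s0 c (Function.update f u (some c')) w else 0) =
      if c ∈ Av G f u ∧ Nc N c f = A then big G s0 f u * P else 0 := by
    have h1 : ∀ c' ∈ Av G f u, (if Nc N c (Function.update f u (some c')) = A then
      (∏ w ∈ A, big G s0 (Function.update f u (some c')) w) *
        ∏ w ∈ insert u B, wt G s0 c (Function.update f u (some c')) w else 0) =
        if c' = c then 0 else (if Nc N c f = A then wt G s0 c f u * P else 0) := by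
      intro c' _
      rw [Finset.prod_insert huB, hPA, hPB, hwt _ _ huu]
      by_cases hc : c' = c
      · subst hc
        rw [if_pos rfl, hN1, if_neg]
        intro h
        exact huA (by rw [← h]; exact Finset.mem_insert_self _ _)
      · rw [if_neg hc, hN2 c' hc]
        by_cases h : Nc N c f = A
        · rw [if_pos h, if_pos h, hP]; ring
        · rw [if_neg h, if_neg h]
    rw [Finset.sum_congr rfl h1]
    by_cases hNA : Nc N c f = A
    · simp only [hNA, if_true, and_true]
      by_cases hcA : c ∈ Av G f u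
      · rw [if_pos hcA, ← Finset.add_sum_erase _ _ hcA, if_pos rfl, zero_add]
        have h2 : ∀ c' ∈ (Av G f u).erase c, (if c' = c then 0 else wt G s0 c f u * P) =
            wt G s0 c f u * P := by
          intro c' hc'
          rw [if_neg (Finset.ne_of_mem_erase hc')]
        rw [Finset.sum_congr rfl h2, Finset.sum_const, nsmul_eq_mul,
          Finset.card_erase_of_mem hcA]
        rw [wt, big]
        by_cases hb : s0 ≤ (Av G f u).card
        · rw [if_pos ⟨hcA, hb⟩, if_pos hb, Nat.cast_sub (by omega)]
          have : ((Av G f u).card : ℝ) - 1 ≠ 0 := by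
            have : (2 : ℝ) ≤ ((Av G f u).card : ℝ) := by exact_mod_cast hs0.trans hb
            linarith
          push_cast
          field_simp
        · rw [if_neg (fun h => hb h.2), if_neg hb]
          ring
      · rw [if_neg hcA]
        refine Finset.sum_eq_zero (fun c' hc' => ?_)
        have hw : wt G s0 c f u = 0 := by rw [wt, if_neg (fun h => hcA h.1)]
        rw [hw]; simp
    · simp [hNA]
  rw [hL, hR]

/-- independent subsets of `N` -/
noncomputable def Ind (G : SimpleGraph V) (N : Finset V) : Finset (Finset V) :=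
  N.powerset.filter (fun A => ∀ u ∈ A, ∀ w ∈ A, ¬ G.Adj u w)

theorem mem_ind {N A : Finset V} : A ∈ Ind G N ↔ A ⊆ N ∧ ∀ u ∈ A, ∀ w ∈ A, ¬ G.Adj u w := by
  rw [Ind, Finset.mem_filter, Finset.mem_powerset]

/-- independence polynomial -/
noncomputable def Zf (G : SimpleGraph V) (N : Finset V) (l : V → ℝ) : ℝ :=
  ∑ A ∈ Ind G N, ∏ u ∈ A, l u

/-- the derivative of the independence polynomial -/
noncomputable def Mf (G : SimpleGraph V) (N : Finset V) (l : V → ℝ) : ℝ :=
  ∑ A ∈ Ind G N, (A.card : ℝ) * ∏ u ∈ A, l u

theorem flips {s0 : ℕ} (hs0 : 2 ≤ s0) {S N : Finset V} (hN : N ⊆ S) (c : Fin q) (A : Finset V) :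
    ∀ B : Finset V, Disjoint A B → (∀ u ∈ A, u ∈ N) →
      (∀ u ∈ A ∪ B, ∀ w ∈ A ∪ B, ¬ G.Adj u w) → Y G s0 S N c A B = Y G s0 S N c ∅ (A ∪ B) := by
  induction A using Finset.induction_on with
  | empty => intro B _ _ _; rw [Finset.empty_union]
  | insert u A huA ih =>
    intro B hdis hAN hind
    have huB : u ∉ B := fun h => Finset.disjoint_left.1 hdis (Finset.mem_insert_self _ _) h
    have hAB : Disjoint A B := hdis.mono_left (Finset.subset_insert _ _)
    have hu1 : u ∈ insert u A ∪ B := Finset.mem_union_left _ (Finset.mem_insert_self _ _)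
    rw [flip hs0 hN c (hAN u (Finset.mem_insert_self _ _)) huA huB
      (fun w hw => hind w (Finset.mem_union_left _ (Finset.mem_insert_of_mem hw)) u hu1)
      (fun w hw => hind w (Finset.mem_union_right _ hw) u hu1)]
    have hun : A ∪ insert u B = insert u A ∪ B := by
      rw [Finset.union_insert, Finset.insert_union]
    rw [ih (insert u B) ?_ (fun w hw => hAN w (Finset.mem_insert_of_mem hw)) ?_, hun]
    · rw [Finset.disjoint_insert_right]
      exact ⟨huA, hAB⟩
    · rw [hun]; exact hind

theorem class_ind {S N : Finset V} {f : V → Option (Fin q)} (hf : f ∈ Col G q S) (c : Fin q) :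
    Nc N c f ∈ Ind G N := by
  rw [mem_ind]
  refine ⟨Finset.filter_subset _ _, ?_⟩
  intro u hu w hw huw
  rw [Nc, Finset.mem_filter] at hu hw
  refine (mem_col.1 hf).2 u w huw ?_ ?_
  · rw [hu.2]; simp
  · rw [hu.2, hw.2]

/-- the flip identity, summed over all independent sets -/
theorem flip_sum {s0 : ℕ} (hs0 : 2 ≤ s0) {S N : Finset V} (hN : N ⊆ S) (c : Fin q) (φ : ℕ → ℝ) :
    ∑ f ∈ Col G q S, φ (Nc N c f).card * ∏ u ∈ Nc N c f, big G s0 f u =
      ∑ f ∈ (Col G q S).filter (fun f => Nc N c f = ∅),
        ∑ A ∈ Ind G N, φ A.card * ∏ u ∈ A, wt G s0 c f u := by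
  have h1 : ∑ f ∈ Col G q S, φ (Nc N c f).card * ∏ u ∈ Nc N c f, big G s0 f u =
      ∑ A ∈ Ind G N, φ A.card * Y G s0 S N c A ∅ := by
    have h2 : ∀ f ∈ Col G q S, φ (Nc N c f).card * ∏ u ∈ Nc N c f, big G s0 f u =
        ∑ A ∈ Ind G N, φ A.card * (if Nc N c f = A then (∏ u ∈ A, big G s0 f u) else 0) := by
      intro f hf
      rw [Finset.sum_eq_single (Nc N c f)]
      · simp
      · intro A _ hA
        rw [if_neg (fun h => hA h.symm), mul_zero]
      · intro h
        exact absurd (class_ind hf c) h
    rw [Finset.sum_congr rfl h2, Finset.sum_comm]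
    refine Finset.sum_congr rfl (fun A _ => ?_)
    rw [Y, Finset.mul_sum]
    refine Finset.sum_congr rfl (fun f _ => ?_)
    simp
  rw [h1, Finset.sum_filter]
  have h3 : ∀ A ∈ Ind G N, φ A.card * Y G s0 S N c A ∅ =
      ∑ f ∈ Col G q S, if Nc N c f = ∅ then φ A.card * ∏ u ∈ A, wt G s0 c f u else 0 := by
    intro A hA
    rw [mem_ind] at hA
    rw [flips hs0 hN c A ∅ (Finset.disjoint_empty_right _) (fun u hu => hA.1 hu)
      (by simpa using hA.2), Finset.union_empty, Y, Finset.mul_sum]
    refine Finset.sum_congr rfl (fun f _ => ?_)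
    by_cases h : Nc N c f = ∅
    · simp [h]
    · simp [h]
  rw [Finset.sum_congr rfl h3, Finset.sum_comm]
  refine Finset.sum_congr rfl (fun f _ => ?_)
  by_cases h : Nc N c f = ∅
  · simp [h]
  · simp [h]

/-- few colourings with a short list at a given vertex -/
theorem short_lists {s0 : ℕ} {S : Finset V} {u : V} (hu : u ∈ S) :
    ∑ f ∈ Col G q S, (1 - big G s0 f u) ≤ s0 * ((Col G q (S.erase u)).card : ℝ) := by
  have huS : u ∉ S.erase u := Finset.notMem_erase u S
  have hS : S = insert u (S.erase u) := (Finset.insert_erase hu).symm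
  rw [hS, sum_insert huS, Finset.erase_insert huS]
  have huu : ¬ G.Adj u u := G.loopless.irrefl u
  have h1 : ∀ f ∈ Col G q (S.erase u), ∑ c ∈ Av G f u,
      (1 - big G s0 (Function.update f u (some c)) u) ≤ s0 := by
    intro f _
    have h2 : ∀ c ∈ Av G f u, (1 - big G s0 (Function.update f u (some c)) u) =
        1 - big G s0 f u := by
      intro c _
      rw [big, big, av_update huu]
    rw [Finset.sum_congr rfl h2, Finset.sum_const, nsmul_eq_mul, big]
    split_ifs with h
    · simp
    · push Not at h
      have : ((Av G f u).card : ℝ) ≤ s0 := by exact_mod_cast h.le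
      linarith
  refine (Finset.sum_le_sum h1).trans ?_
  rw [Finset.sum_const, nsmul_eq_mul, mul_comm]

/-- one step of the induction -/
theorem step {s0 : ℕ} (hs0 : 2 ≤ s0) (Δ : ℕ) {β γ ℓ : ℝ} (hβ : 0 < β) (hγ : 0 ≤ γ) (hℓ : 0 < ℓ)
    (hdeg : ∀ v, (univ.filter (fun w => G.Adj v w)).card ≤ Δ)
    (hocc : ∀ v, ∀ N : Finset V, (∀ u ∈ N, G.Adj v u) → ∀ l : V → ℝ, (∀ u, 0 ≤ l u) →
      (∀ u, l u ≤ 1 / ((s0 : ℝ) - 1)) → Zf G N l ≤ β + γ * Mf G N l)
    (hmain : β * ℓ ≤ q - γ * Δ - Δ * s0 / ℓ) {S : Finset V} {v : V} (hv : v ∉ S)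
    (hIH : ∀ u ∈ S, ℓ * ((Col G q (S.erase u)).card : ℝ) ≤ ((Col G q S).card : ℝ)) :
    ℓ * ((Col G q S).card : ℝ) ≤ ((Col G q (insert v S)).card : ℝ) := by
  set N : Finset V := S.filter (fun w => G.Adj v w) with hNdef
  have hN : N ⊆ S := Finset.filter_subset _ _
  have hNcard : (N.card : ℝ) ≤ Δ := by
    have h1 : N ⊆ univ.filter (fun w => G.Adj v w) := by
      intro w hw
      rw [hNdef, Finset.mem_filter] at hw
      simp [hw.2]
    exact_mod_cast (Finset.card_le_card h1).trans (hdeg v)
  have hs0' : (2 : ℝ) ≤ s0 := by exact_mod_cast hs0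
  have hwt0 : ∀ (c : Fin q) f u, 0 ≤ wt G s0 c f u := by
    intro c f u
    rw [wt]
    split_ifs with h
    · have : (2 : ℝ) ≤ ((Av G f u).card : ℝ) := by exact_mod_cast hs0.trans h.2
      exact div_nonneg zero_le_one (by linarith)
    · exact le_refl _
  have hwt1 : ∀ (c : Fin q) f u, wt G s0 c f u ≤ 1 / ((s0 : ℝ) - 1) := by
    intro c f u
    rw [wt]
    split_ifs with h
    · have h2 : (s0 : ℝ) ≤ ((Av G f u).card : ℝ) := by exact_mod_cast h.2
      exact div_le_div_of_nonneg_left zero_le_one (by linarith) (by linarith)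
    · exact div_nonneg zero_le_one (by linarith)
  have hbig0 : ∀ (f : V → Option (Fin q)) u, 0 ≤ big G s0 f u := by
    intro f u; rw [big]; split_ifs <;> norm_num
  have hbig1 : ∀ (f : V → Option (Fin q)) u, big G s0 f u ≤ 1 := by
    intro f u; rw [big]; split_ifs <;> norm_num
  -- the number of colourings of `insert v S`
  have hcount : ((Col G q (insert v S)).card : ℝ) =
      ∑ c : Fin q, (((Col G q S).filter (fun f => Nc N c f = ∅)).card : ℝ) := by
    have h1 : ((Col G q (insert v S)).card : ℝ) = ∑ g ∈ Col G q (insert v S), (1 : ℝ) := by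
      simp
    rw [h1, sum_insert hv]
    have h2 : ∀ f ∈ Col G q S, ∑ c ∈ Av G f v, (1 : ℝ) =
        ∑ c : Fin q, if Nc N c f = ∅ then (1 : ℝ) else 0 := by
      intro f hf
      rw [← Finset.sum_filter]
      refine Finset.sum_congr ?_ (fun _ _ => rfl)
      ext c
      rw [mem_av, Finset.mem_filter]
      simp only [Finset.mem_univ, true_and]
      rw [Nc, Finset.filter_eq_empty_iff]
      constructor
      · intro h w hw
        rw [hNdef, Finset.mem_filter] at hw
        exact h w hw.2
      · intro h w hw
        by_cases hwS : w ∈ S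
        · exact h (by rw [hNdef, Finset.mem_filter]; exact ⟨hwS, hw⟩)
        · rw [((mem_col.1 hf).1 w).2 hwS]; simp
    rw [Finset.sum_congr rfl h2, Finset.sum_comm]
    refine Finset.sum_congr rfl (fun c _ => ?_)
    rw [← Finset.sum_filter]; simp
  -- for every colour
  have hcol : ∀ c : Fin q, ∑ f ∈ Col G q S, ∏ u ∈ Nc N c f, big G s0 f u ≤
      β * (((Col G q S).filter (fun f => Nc N c f = ∅)).card : ℝ) +
        γ * ∑ f ∈ Col G q S, ((Nc N c f).card : ℝ) := by
    intro c
    have e1 := flip_sum (G := G) hs0 hN c (fun _ => (1 : ℝ))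
    have e2 := flip_sum (G := G) hs0 hN c (fun n => (n : ℝ))
    simp only [one_mul] at e1
    rw [e1]
    have e3 : ∀ f ∈ (Col G q S).filter (fun f => Nc N c f = ∅),
        ∑ A ∈ Ind G N, ∏ u ∈ A, wt G s0 c f u ≤
          β + γ * ∑ A ∈ Ind G N, (A.card : ℝ) * ∏ u ∈ A, wt G s0 c f u := by
      intro f _
      exact hocc v N (fun u hu => by
        rw [hNdef, Finset.mem_filter] at hu; exact hu.2) (wt G s0 c f) (hwt0 c f) (hwt1 c f)
    refine (Finset.sum_le_sum e3).trans ?_
    rw [Finset.sum_add_distrib, ← Finset.mul_sum, ← e2, Finset.sum_const, nsmul_eq_mul]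
    have e4 : ∑ f ∈ Col G q S, ((Nc N c f).card : ℝ) * ∏ u ∈ Nc N c f, big G s0 f u ≤
        ∑ f ∈ Col G q S, ((Nc N c f).card : ℝ) := by
      refine Finset.sum_le_sum (fun f _ => ?_)
      have : ∏ u ∈ Nc N c f, big G s0 f u ≤ 1 :=
        Finset.prod_le_one (fun u _ => hbig0 f u) (fun u _ => hbig1 f u)
      have h0 : (0 : ℝ) ≤ ((Nc N c f).card : ℝ) := by positivity
      nlinarith
    have e5 := mul_le_mul_of_nonneg_left e4 hγ
    linarith
  -- sum over the colours
  have hsum := Finset.sum_le_sum (fun c (_ : c ∈ (univ : Finset (Fin q))) => hcol c)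
  rw [Finset.sum_add_distrib, ← Finset.mul_sum, ← Finset.mul_sum, ← hcount] at hsum
  have hcls : ∑ c : Fin q, ∑ f ∈ Col G q S, ((Nc N c f).card : ℝ) ≤ Δ * (Col G q S).card := by
    rw [Finset.sum_comm]
    have h1 : ∀ f ∈ Col G q S, ∑ c : Fin q, ((Nc N c f).card : ℝ) ≤ Δ := by
      intro f _
      have h2 : ∑ c : Fin q, (Nc N c f).card ≤ N.card := by
        have h3 : ((univ : Finset (Fin q)).biUnion (fun c => Nc N c f)).card =
            ∑ c : Fin q, (Nc N c f).card := by
          refine Finset.card_biUnion ?_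
          intro c _ c' _ hcc
          refine Finset.disjoint_left.2 ?_
          intro u hu hu'
          have a1 := (Finset.mem_filter.1 hu).2
          have a2 := (Finset.mem_filter.1 hu').2
          exact hcc (Option.some.inj (a1.symm.trans a2))
        rw [← h3]
        refine Finset.card_le_card ?_
        intro u hu
        rw [Finset.mem_biUnion] at hu
        obtain ⟨c, -, hc⟩ := hu
        exact (Finset.mem_filter.1 hc).1
      have h4 : (((∑ c : Fin q, (Nc N c f).card : ℕ)) : ℝ) ≤ (N.card : ℝ) := by exact_mod_cast h2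
      push_cast at h4
      linarith
    refine (Finset.sum_le_sum h1).trans ?_
    rw [Finset.sum_const, nsmul_eq_mul, mul_comm]
  have hshort : (q : ℝ) * (Col G q S).card - (Δ * s0 / ℓ) * (Col G q S).card ≤
      ∑ c : Fin q, ∑ f ∈ Col G q S, ∏ u ∈ Nc N c f, big G s0 f u := by
    rw [Finset.sum_comm]
    have h1 : ∀ f ∈ Col G q S, (q : ℝ) - ∑ u ∈ N, (1 - big G s0 f u) ≤
        ∑ c : Fin q, ∏ u ∈ Nc N c f, big G s0 f u := by
      intro f _
      have h2 : ∀ c : Fin q, 1 - ∑ u ∈ Nc N c f, (1 - big G s0 f u) ≤
          ∏ u ∈ Nc N c f, big G s0 f u := by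
        intro c
        by_cases h : ∀ u ∈ Nc N c f, big G s0 f u = 1
        · rw [Finset.prod_congr rfl h, Finset.prod_const_one]
          have : 0 ≤ ∑ u ∈ Nc N c f, (1 - big G s0 f u) :=
            Finset.sum_nonneg (fun u _ => by linarith [hbig1 f u])
          linarith
        · push Not at h
          obtain ⟨u, hu, hub⟩ := h
          have hu0 : big G s0 f u = 0 := by
            rw [big] at hub ⊢
            by_contra hcon
            split_ifs at hub hcon
            · exact hub rfl
            · exact hcon rfl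
          have h3 : (1 : ℝ) - big G s0 f u ≤ ∑ u ∈ Nc N c f, (1 - big G s0 f u) :=
            Finset.single_le_sum (f := fun u => 1 - big G s0 f u)
              (fun w _ => by linarith [hbig1 f w]) hu
          have h4 : 0 ≤ ∏ u ∈ Nc N c f, big G s0 f u := Finset.prod_nonneg (fun w _ => hbig0 f w)
          linarith
      have h5 := Finset.sum_le_sum (fun c (_ : c ∈ (univ : Finset (Fin q))) => h2 c)
      rw [Finset.sum_sub_distrib, Finset.sum_const, Finset.card_univ, Fintype.card_fin,
        nsmul_eq_mul, mul_one] at h5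
      have h6 : ∑ c : Fin q, ∑ u ∈ Nc N c f, (1 - big G s0 f u) ≤
          ∑ u ∈ N, (1 - big G s0 f u) := by
        have h7 : ∀ c : Fin q, ∑ u ∈ Nc N c f, (1 - big G s0 f u) =
            ∑ u ∈ N, if f u = some c then (1 - big G s0 f u) else 0 := by
          intro c; rw [Nc, Finset.sum_filter]
        simp only [h7]
        rw [Finset.sum_comm]
        refine Finset.sum_le_sum (fun u _ => ?_)
        cases hfu : f u with
        | none => simp; exact hbig1 f u
        | some c' =>
          have : ∀ c : Fin q, (if some c' = some c then (1 - big G s0 f u) else 0) =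
              if c' = c then (1 - big G s0 f u) else 0 := by
            intro c; simp
          simp only [this]
          rw [Finset.sum_ite_eq]
          simp
      linarith
    have h8 := Finset.sum_le_sum h1
    rw [Finset.sum_sub_distrib, Finset.sum_const, nsmul_eq_mul, Finset.sum_comm] at h8
    have h9 : ∑ u ∈ N, ∑ f ∈ Col G q S, (1 - big G s0 f u) ≤
        (Δ * s0 / ℓ) * (Col G q S).card := by
      have h10 : ∀ u ∈ N, ∑ f ∈ Col G q S, (1 - big G s0 f u) ≤
          (s0 / ℓ) * (Col G q S).card := by
        intro u hu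
        refine (short_lists (hN hu)).trans ?_
        have h11 := hIH u (hN hu)
        rw [div_mul_eq_mul_div, le_div_iff₀ hℓ]
        nlinarith
      refine (Finset.sum_le_sum h10).trans ?_
      rw [Finset.sum_const, nsmul_eq_mul]
      have : (N.card : ℝ) * (s0 / ℓ * (Col G q S).card) ≤ Δ * (s0 / ℓ * (Col G q S).card) :=
        mul_le_mul_of_nonneg_right hNcard (by positivity)
      calc _ ≤ Δ * (s0 / ℓ * ((Col G q S).card : ℝ)) := this
        _ = _ := by ring
    linarith
  have hfin : (q - γ * Δ - Δ * s0 / ℓ) * ((Col G q S).card : ℝ) ≤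
      β * ((Col G q (insert v S)).card : ℝ) := by
    have h1 := mul_le_mul_of_nonneg_left hcls hγ
    nlinarith
  have hC0 : (0 : ℝ) ≤ ((Col G q S).card : ℝ) := by positivity
  have h2 := mul_le_mul_of_nonneg_right hmain hC0
  have h3 : β * (ℓ * ((Col G q S).card : ℝ)) ≤ β * ((Col G q (insert v S)).card : ℝ) := by
    linarith
  exact le_of_mul_le_mul_left h3 hβ

theorem colorable_of_occ {s0 : ℕ} (hs0 : 2 ≤ s0) (Δ : ℕ) {β γ ℓ : ℝ} (hβ : 0 < β) (hγ : 0 ≤ γ)
    (hℓ : 0 < ℓ) (hdeg : ∀ v, (univ.filter (fun w => G.Adj v w)).card ≤ Δ)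
    (hocc : ∀ v, ∀ N : Finset V, (∀ u ∈ N, G.Adj v u) → ∀ l : V → ℝ, (∀ u, 0 ≤ l u) →
      (∀ u, l u ≤ 1 / ((s0 : ℝ) - 1)) → Zf G N l ≤ β + γ * Mf G N l)
    (hmain : β * ℓ ≤ q - γ * Δ - Δ * s0 / ℓ) : G.Colorable q := by
  have hstep : ∀ n : ℕ, ∀ S : Finset V, S.card = n → ∀ v, v ∉ S →
      ℓ * ((Col G q S).card : ℝ) ≤ ((Col G q (insert v S)).card : ℝ) := by
    intro n
    induction n with
    | zero =>
      intro S hS v hv
      refine step hs0 Δ hβ hγ hℓ hdeg hocc hmain hv (fun u hu => ?_)
      rw [Finset.card_eq_zero] at hS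
      subst hS
      simp at hu
    | succ n ih =>
      intro S hS v hv
      refine step hs0 Δ hβ hγ hℓ hdeg hocc hmain hv (fun u hu => ?_)
      have h1 := ih (S.erase u) (by rw [Finset.card_erase_of_mem hu, hS]; rfl) u
        (Finset.notMem_erase u S)
      rwa [Finset.insert_erase hu] at h1
  have hpos : ∀ S : Finset V, (0 : ℝ) < ((Col G q S).card : ℝ) := by
    intro S
    induction S using Finset.induction_on with
    | empty =>
      have : (fun _ => none) ∈ Col G q ∅ := by
        rw [mem_col]; simp
      exact_mod_cast Finset.card_pos.2 ⟨_, this⟩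
    | insert v S hv ih =>
      exact lt_of_lt_of_le (mul_pos hℓ ih) (hstep S.card S rfl v hv)
  have h1 : 0 < (Col G q univ).card := by exact_mod_cast hpos univ
  obtain ⟨f, hf⟩ := Finset.card_pos.1 h1
  rw [mem_col] at hf
  have h2 : ∀ v, (f v).isSome := by
    intro v
    rw [Option.isSome_iff_ne_none]
    exact (hf.1 v).not.2 (by simp)
  refine ⟨SimpleGraph.Coloring.mk (fun v => (f v).get (h2 v)) ?_⟩
  intro u v huv h
  refine hf.2 u v huv ((hf.1 u).not.2 (by simp)) ?_
  rw [← Option.some_get (h2 u), ← Option.some_get (h2 v), h]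

end Pool.Agent.TH855
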