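import Mathlib
import Pool.Agent.TH855.Count

set_option autoImplicit false

/-!
# Local occupancy for weighted graphs without large complete bipartite subgraphs
-/

namespace Pool.Agent.TH855

open Finset Classical

set_option linter.unusedSectionVars false

variable {V : Type} [Fintype V] {G : SimpleGraph V}

theorem zf_le_exp (N : Finset V) (l : V → ℝ) (hl : ∀ u, 0 ≤ l u) :
    Zf G N l ≤ Real.exp (∑ u ∈ N, l u) := by
  rw [Real.exp_sum]
  calc Zf G N l ≤ ∑ A ∈ N.powerset, ∏ u ∈ A, l u := by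
        rw [Zf]
        refine Finset.sum_le_sum_of_subset_of_nonneg (Finset.filter_subset _ _) ?_
        intro A _ _
        exact Finset.prod_nonneg (fun u _ => hl u)
    _ = ∏ u ∈ N, (1 + l u) := by rw [Finset.prod_one_add]
    _ ≤ ∏ u ∈ N, Real.exp (l u) := by
        refine Finset.prod_le_prod (fun u _ => by linarith [hl u]) (fun u _ => ?_)
        have := Real.add_one_le_exp (l u)
        linarith

theorem mf_nonneg (N : Finset V) (l : V → ℝ) (hl : ∀ u, 0 ≤ l u) : 0 ≤ Mf G N l := by
  rw [Mf]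
  exact Finset.sum_nonneg (fun A _ => mul_nonneg (by positivity)
    (Finset.prod_nonneg (fun u _ => hl u)))

theorem zf_pos (N : Finset V) (l : V → ℝ) (hl : ∀ u, 0 ≤ l u) : 0 < Zf G N l := by
  rw [Zf]
  have h : (∅ : Finset V) ∈ Ind G N := by rw [mem_ind]; simp
  have h1 : ∏ u ∈ (∅ : Finset V), l u ≤ ∑ A ∈ Ind G N, ∏ u ∈ A, l u :=
    Finset.single_le_sum (f := fun A => ∏ u ∈ A, l u)
      (fun A _ => Finset.prod_nonneg (fun u _ => hl u)) h
  rw [Finset.prod_empty] at h1
  linarith

/-- the part of the independence polynomial of the sets containing `u` -/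
noncomputable def Zu (G : SimpleGraph V) (N : Finset V) (l : V → ℝ) (u : V) : ℝ :=
  ∑ A ∈ (Ind G N).filter (fun A => u ∈ A), ∏ w ∈ A, l w

theorem mf_eq (N : Finset V) (l : V → ℝ) : Mf G N l = ∑ u ∈ N, Zu G N l u := by
  rw [Mf]
  have h1 : ∀ A ∈ Ind G N, (A.card : ℝ) * ∏ u ∈ A, l u =
      ∑ u ∈ N, if u ∈ A then ∏ w ∈ A, l w else 0 := by
    intro A hA
    rw [mem_ind] at hA
    rw [← Finset.sum_filter, Finset.sum_const, nsmul_eq_mul]
    congr 2
    congr 1
    ext u
    rw [Finset.mem_filter]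
    exact ⟨fun h => ⟨hA.1 h, h⟩, fun h => h.2⟩
  rw [Finset.sum_congr rfl h1, Finset.sum_comm]
  refine Finset.sum_congr rfl (fun u _ => ?_)
  rw [Zu, Finset.sum_filter]

theorem zu_eq (N : Finset V) (l : V → ℝ) {u : V} (hu : u ∈ N) :
    Zu G N l u = l u * ∑ A ∈ (Ind G N).filter (fun A => u ∉ A ∧ ∀ w ∈ A, ¬ G.Adj u w),
      ∏ w ∈ A, l w := by
  rw [Zu, Finset.mul_sum]
  refine Finset.sum_bij' (fun A _ => A.erase u) (fun A _ => insert u A) ?_ ?_ ?_ ?_ ?_
  · intro A hA
    rw [Finset.mem_filter, mem_ind] at hA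
    rw [Finset.mem_filter, mem_ind]
    refine ⟨⟨(Finset.erase_subset _ _).trans hA.1.1, ?_⟩, Finset.notMem_erase _ _, ?_⟩
    · intro a ha b hb
      exact hA.1.2 a (Finset.mem_of_mem_erase ha) b (Finset.mem_of_mem_erase hb)
    · intro w hw
      exact hA.1.2 u hA.2 w (Finset.mem_of_mem_erase hw)
  · intro A hA
    rw [Finset.mem_filter, mem_ind] at hA
    rw [Finset.mem_filter, mem_ind]
    refine ⟨⟨Finset.insert_subset hu hA.1.1, ?_⟩, Finset.mem_insert_self _ _⟩
    intro a ha b hb
    rcases Finset.mem_insert.1 ha with ha1 | ha1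
    · rcases Finset.mem_insert.1 hb with hb1 | hb1
      · rw [ha1, hb1]; exact G.loopless.irrefl _
      · rw [ha1]; exact hA.2.2 b hb1
    · rcases Finset.mem_insert.1 hb with hb1 | hb1
      · rw [hb1]; intro h; exact hA.2.2 a ha1 h.symm
      · exact hA.1.2 a ha1 b hb1
  · intro A hA
    rw [Finset.mem_filter] at hA
    exact Finset.insert_erase hA.2
  · intro A hA
    rw [Finset.mem_filter] at hA
    exact Finset.erase_insert hA.2.1
  · intro A hA
    rw [Finset.mem_filter] at hA
    rw [Finset.mul_prod_erase _ _ hA.2]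

theorem zu_nonneg (N : Finset V) (l : V → ℝ) (hl : ∀ u, 0 ≤ l u) (u : V) : 0 ≤ Zu G N l u := by
  rw [Zu]
  exact Finset.sum_nonneg (fun A _ => Finset.prod_nonneg (fun w _ => hl w))

theorem zu_le (N : Finset V) (l : V → ℝ) (hl : ∀ u, 0 ≤ l u) {u : V} (hu : u ∈ N) :
    Zu G N l u ≤ l u * Zf G N l := by
  rw [zu_eq N l hu]
  refine mul_le_mul_of_nonneg_left ?_ (hl u)
  rw [Zf]
  refine Finset.sum_le_sum_of_subset_of_nonneg (Finset.filter_subset _ _) ?_
  intro A _ _
  exact Finset.prod_nonneg (fun w _ => hl w)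

/-- neighbourhood weight -/
noncomputable def Dg (G : SimpleGraph V) (N : Finset V) (l : V → ℝ) (u : V) : ℝ :=
  ∑ w ∈ N.filter (fun w => G.Adj u w), l w

theorem mf_lower (N : Finset V) (l : V → ℝ) (hl : ∀ u, 0 ≤ l u) :
    Zf G N l * ∑ u ∈ N, l u * (1 - l u - Dg G N l u) ≤ Mf G N l := by
  rw [mf_eq, Finset.mul_sum]
  refine Finset.sum_le_sum (fun u hu => ?_)
  rw [zu_eq N l hu]
  set R := ∑ A ∈ (Ind G N).filter (fun A => u ∉ A ∧ ∀ w ∈ A, ¬ G.Adj u w), ∏ w ∈ A, l w with hR
  have h1 : Zf G N l ≤ R + (Zu G N l u + ∑ w ∈ N.filter (fun w => G.Adj u w), Zu G N l w) := by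
    have h2 : Zf G N l = R + ∑ A ∈ (Ind G N).filter
        (fun A => ¬ (u ∉ A ∧ ∀ w ∈ A, ¬ G.Adj u w)), ∏ w ∈ A, l w := by
      rw [hR, Zf, Finset.sum_filter_add_sum_filter_not]
    rw [h2]
    refine add_le_add (le_refl _) ?_
    rw [Finset.sum_filter]
    have h3 : Zu G N l u + ∑ w ∈ N.filter (fun w => G.Adj u w), Zu G N l w =
        ∑ A ∈ Ind G N, ((if u ∈ A then ∏ w ∈ A, l w else 0) +
          ∑ w ∈ N.filter (fun w => G.Adj u w), if w ∈ A then ∏ w ∈ A, l w else 0) := by
      rw [Finset.sum_add_distrib, Finset.sum_comm, Zu, Finset.sum_filter]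
      congr 1
      refine Finset.sum_congr rfl (fun w _ => ?_)
      rw [Zu, Finset.sum_filter]
    rw [h3]
    refine Finset.sum_le_sum (fun A hA => ?_)
    have hP : 0 ≤ ∏ w ∈ A, l w := Finset.prod_nonneg (fun w _ => hl w)
    have hs : 0 ≤ ∑ w ∈ N.filter (fun w => G.Adj u w), if w ∈ A then ∏ w ∈ A, l w else 0 := by
      refine Finset.sum_nonneg (fun w _ => ?_)
      split_ifs
      · exact hP
      · exact le_refl _
    by_cases huA : u ∈ A
    · simp only [huA, not_true_eq_false, false_and, not_false_eq_true, if_true]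
      linarith
    · simp only [huA, not_false_eq_true, true_and, if_false, zero_add]
      by_cases hall : ∀ w ∈ A, ¬ G.Adj u w
      · rw [if_neg (not_not.2 hall)]; exact hs
      · rw [if_pos hall]
        push Not at hall
        obtain ⟨w, hw, huw⟩ := hall
        have hwN : w ∈ N.filter (fun w => G.Adj u w) := by
          rw [Finset.mem_filter]
          exact ⟨(mem_ind.1 hA).1 hw, huw⟩
        have := Finset.single_le_sum (f := fun w => if w ∈ A then ∏ w ∈ A, l w else 0)
          (fun w _ => by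
            split_ifs
            · exact hP
            · exact le_refl _) hwN
        simp only [hw, if_true] at this
        exact this
  have h4 : Zu G N l u ≤ l u * Zf G N l := zu_le N l hl hu
  have h5 : ∑ w ∈ N.filter (fun w => G.Adj u w), Zu G N l w ≤ Dg G N l u * Zf G N l := by
    rw [Dg, Finset.sum_mul]
    refine Finset.sum_le_sum (fun w hw => ?_)
    exact zu_le N l hl (Finset.mem_filter.1 hw).1
  have h6 : Zf G N l * (1 - l u - Dg G N l u) ≤ R := by nlinarith
  calc Zf G N l * (l u * (1 - l u - Dg G N l u)) = l u * (Zf G N l * (1 - l u - Dg G N l u)) := by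
        ring
    _ ≤ l u * R := mul_le_mul_of_nonneg_left h6 (hl u)

/-- scaling the weights down decreases the mean -/
theorem scale (N : Finset V) (l : V → ℝ) (hl : ∀ u, 0 ≤ l u) {s : ℝ} (hs0 : 0 ≤ s) (hs1 : s ≤ 1) :
    Mf G N (fun u => s * l u) * Zf G N l ≤ Mf G N l * Zf G N (fun u => s * l u) := by
  have hprod : ∀ A : Finset V, ∏ u ∈ A, s * l u = s ^ A.card * ∏ u ∈ A, l u := by
    intro A
    rw [Finset.prod_mul_distrib, Finset.prod_const]
  have h1 : Mf G N l * Zf G N (fun u => s * l u) - Mf G N (fun u => s * l u) * Zf G N l =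
      ∑ A ∈ Ind G N, ∑ B ∈ Ind G N, (A.card : ℝ) * (s ^ B.card - s ^ A.card) *
        ((∏ u ∈ A, l u) * ∏ u ∈ B, l u) := by
    rw [Mf, Zf, Mf, Zf, Finset.sum_mul_sum, Finset.sum_mul_sum, ← Finset.sum_sub_distrib]
    refine Finset.sum_congr rfl (fun A _ => ?_)
    rw [← Finset.sum_sub_distrib]
    refine Finset.sum_congr rfl (fun B _ => ?_)
    rw [hprod, hprod]
    ring
  have h2 : ∑ A ∈ Ind G N, ∑ B ∈ Ind G N, (A.card : ℝ) * (s ^ B.card - s ^ A.card) *
        ((∏ u ∈ A, l u) * ∏ u ∈ B, l u) = ∑ A ∈ Ind G N, ∑ B ∈ Ind G N, (B.card : ℝ) *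
        (s ^ A.card - s ^ B.card) * ((∏ u ∈ A, l u) * ∏ u ∈ B, l u) := by
    rw [Finset.sum_comm]
    refine Finset.sum_congr rfl (fun A _ => Finset.sum_congr rfl (fun B _ => ?_))
    ring
  have h3 : 0 ≤ ∑ A ∈ Ind G N, ∑ B ∈ Ind G N, ((A.card : ℝ) * (s ^ B.card - s ^ A.card) *
        ((∏ u ∈ A, l u) * ∏ u ∈ B, l u) + (B.card : ℝ) *
        (s ^ A.card - s ^ B.card) * ((∏ u ∈ A, l u) * ∏ u ∈ B, l u)) := by
    refine Finset.sum_nonneg (fun A _ => Finset.sum_nonneg (fun B _ => ?_))
    have h4 : 0 ≤ (∏ u ∈ A, l u) * ∏ u ∈ B, l u :=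
      mul_nonneg (Finset.prod_nonneg (fun u _ => hl u)) (Finset.prod_nonneg (fun u _ => hl u))
    have h5 : 0 ≤ ((A.card : ℝ) - B.card) * (s ^ B.card - s ^ A.card) := by
      rcases le_total A.card B.card with h | h
      · have e1 : (A.card : ℝ) ≤ B.card := by exact_mod_cast h
        have e2 : s ^ B.card ≤ s ^ A.card := pow_le_pow_of_le_one hs0 hs1 h
        exact mul_nonneg_of_nonpos_of_nonpos (by linarith) (by linarith)
      · have e1 : (B.card : ℝ) ≤ A.card := by exact_mod_cast h
        have e2 : s ^ A.card ≤ s ^ B.card := pow_le_pow_of_le_one hs0 hs1 h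
        exact mul_nonneg (by linarith) (by linarith)
    have h6 := mul_nonneg h5 h4
    linarith
  simp only [Finset.sum_add_distrib] at h3
  rw [← h2] at h3
  rw [← h1] at h3
  linarith

/-- elementary symmetric functions -/
noncomputable def es (k : ℕ) (N : Finset V) (l : V → ℝ) : ℝ :=
  ∑ W ∈ Finset.powersetCard k N, ∏ w ∈ W, l w

theorem es_zero (N : Finset V) (l : V → ℝ) : es 0 N l = 1 := by
  rw [es, Finset.powersetCard_zero]; simp

theorem es_nonneg (k : ℕ) (N : Finset V) (l : V → ℝ) (hl : ∀ u, 0 ≤ l u) : 0 ≤ es k N l := by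
  rw [es]
  exact Finset.sum_nonneg (fun A _ => Finset.prod_nonneg (fun w _ => hl w))

theorem es_insert (k : ℕ) {N : Finset V} (l : V → ℝ) {a : V} (ha : a ∉ N) :
    es (k + 1) (insert a N) l = es (k + 1) N l + l a * es k N l := by
  rw [es, Finset.powersetCard_succ_insert ha, Finset.sum_union, es, es, Finset.mul_sum]
  · congr 1
    rw [Finset.sum_image]
    · refine Finset.sum_congr rfl (fun W hW => ?_)
      rw [Finset.prod_insert]
      intro h
      exact ha ((Finset.mem_powersetCard.1 hW).1 h)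
    · intro W hW W' hW' h
      have e1 : a ∉ W := fun h => ha ((Finset.mem_powersetCard.1 hW).1 h)
      have e2 : a ∉ W' := fun h => ha ((Finset.mem_powersetCard.1 hW').1 h)
      have h' : (insert a W).erase a = (insert a W').erase a := by rw [h]
      rwa [Finset.erase_insert e1, Finset.erase_insert e2] at h'
  · rw [Finset.disjoint_left]
    intro W hW hW'
    rw [Finset.mem_image] at hW'
    obtain ⟨W', -, rfl⟩ := hW'
    exact ha ((Finset.mem_powersetCard.1 hW).1 (Finset.mem_insert_self _ _))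

theorem es_empty (k : ℕ) (l : V → ℝ) : es (k + 1) (∅ : Finset V) l = 0 := by
  rw [es, Finset.powersetCard_eq_empty.2 (by simp)]; simp

theorem es_step (l : V → ℝ) (lam : ℝ) (hl : ∀ u, 0 ≤ l u) (hl1 : ∀ u, l u ≤ lam) (N : Finset V) :
    ∀ k : ℕ, (∑ u ∈ N, l u - k * lam) * es k N l ≤ (k + 1) * es (k + 1) N l := by
  induction N using Finset.induction_on with
  | empty =>
    intro k
    cases k with
    | zero => rw [es_zero, es_empty]; simp
    | succ k => rw [es_empty, es_empty]; simp
  | insert a N ha ih =>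
    intro k
    cases k with
    | zero =>
      have h := ih 0
      rw [es_insert _ _ ha, Finset.sum_insert ha]
      rw [es_zero] at h ⊢
      rw [es_zero]
      push_cast at h ⊢
      linarith
    | succ k =>
      have h1 := ih (k + 1)
      have h2 := ih k
      rw [es_insert _ _ ha, es_insert _ _ ha, Finset.sum_insert ha]
      have hk := es_nonneg k N l hl
      have hk1 := es_nonneg (k + 1) N l hl
      have hk2 := es_nonneg (k + 2) N l hl
      set T := ∑ u ∈ N, l u with hT
      push_cast at h1 h2 ⊢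
      have hla := hl a
      have hla1 := hl1 a
      have h3 := mul_le_mul_of_nonneg_left h2 hla
      have h4 : l a * (l a - lam) * es k N l ≤ 0 := by
        apply mul_nonpos_of_nonpos_of_nonneg _ hk
        exact mul_nonpos_of_nonneg_of_nonpos hla (by linarith)
      nlinarith

theorem es_le_pow (l : V → ℝ) (hl : ∀ u, 0 ≤ l u) (N : Finset V) :
    ∀ k : ℕ, es k N l ≤ (∑ u ∈ N, l u) ^ k := by
  have hstep : ∀ k : ℕ, es (k + 1) N l ≤ (∑ u ∈ N, l u) * es k N l := by
    induction N using Finset.induction_on with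
    | empty => intro k; rw [es_empty]; simp
    | insert a N ha ih =>
      intro k
      have hk := es_nonneg k N l hl
      have hT : 0 ≤ ∑ u ∈ N, l u := Finset.sum_nonneg (fun u _ => hl u)
      have hla := hl a
      cases k with
      | zero =>
        have h := ih 0
        rw [es_insert _ _ ha, Finset.sum_insert ha]
        rw [es_zero] at h ⊢
        rw [es_zero]
        linarith
      | succ k =>
        have h := ih (k + 1)
        have hk0 := es_nonneg k N l hl
        rw [es_insert _ _ ha, es_insert _ _ ha, Finset.sum_insert ha]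
        have e1 : 0 ≤ (∑ u ∈ N, l u) * (l a * es k N l) := by positivity
        have e2 : 0 ≤ l a * (l a * es k N l) := by positivity
        nlinarith
  intro k
  induction k with
  | zero => rw [es_zero]; simp
  | succ k ih =>
    have hT : 0 ≤ ∑ u ∈ N, l u := Finset.sum_nonneg (fun u _ => hl u)
    calc es (k + 1) N l ≤ (∑ u ∈ N, l u) * es k N l := hstep k
      _ ≤ (∑ u ∈ N, l u) * (∑ u ∈ N, l u) ^ k := mul_le_mul_of_nonneg_left ih hT
      _ = _ := by ring

theorem es_lower (l : V → ℝ) (lam : ℝ) (hl : ∀ u, 0 ≤ l u) (hl1 : ∀ u, l u ≤ lam)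
    (hlam : 0 ≤ lam) (N : Finset V) (t : ℕ) (hD : t * lam ≤ ∑ u ∈ N, l u) :
    ∀ k : ℕ, k ≤ t → (∑ u ∈ N, l u - t * lam) ^ k ≤ k.factorial * es k N l := by
  intro k
  induction k with
  | zero => intro _; rw [es_zero]; simp
  | succ k ih =>
    intro hk
    have h1 := ih (by omega)
    have h2 := es_step l lam hl hl1 N k
    have h3 : (k : ℝ) * lam ≤ t * lam := by
      refine mul_le_mul_of_nonneg_right ?_ hlam
      exact_mod_cast (by omega : k ≤ t)
    have hk0 := es_nonneg k N l hl
    have hf : (0 : ℝ) ≤ (k.factorial : ℝ) := by positivity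
    set T := ∑ u ∈ N, l u with hT
    have h0 : 0 ≤ T - t * lam := by linarith
    calc (T - t * lam) ^ (k + 1) = (T - t * lam) * (T - t * lam) ^ k := by ring
      _ ≤ (T - t * lam) * (k.factorial * es k N l) := mul_le_mul_of_nonneg_left h1 h0
      _ ≤ (T - k * lam) * (k.factorial * es k N l) := by
          refine mul_le_mul_of_nonneg_right (by linarith) (mul_nonneg hf hk0)
      _ = k.factorial * ((T - k * lam) * es k N l) := by ring
      _ ≤ k.factorial * ((k + 1) * es (k + 1) N l) := mul_le_mul_of_nonneg_left h2 hf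
      _ = ((k + 1).factorial : ℕ) * es (k + 1) N l := by
          rw [Nat.factorial_succ]; push_cast; ring

theorem kst_sum (l : V → ℝ) (lam : ℝ) (hl : ∀ u, 0 ≤ l u) (hl1 : ∀ u, l u ≤ lam)
    (N : Finset V) (t : ℕ)
    (hK : ∀ W ⊆ N, W.card = t → (N.filter (fun u => ∀ w ∈ W, G.Adj u w)).card ≤ t) :
    ∑ u ∈ N, l u * es t (N.filter (fun w => G.Adj u w)) l ≤ t * lam * (∑ u ∈ N, l u) ^ t := by
  have h1 : ∀ u ∈ N, l u * es t (N.filter (fun w => G.Adj u w)) l =
      ∑ W ∈ Finset.powersetCard t N, if (∀ w ∈ W, G.Adj u w) then l u * ∏ w ∈ W, l w else 0 := by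
    intro u _
    rw [es, Finset.mul_sum, ← Finset.sum_filter]
    refine Finset.sum_congr ?_ (fun _ _ => rfl)
    ext W
    rw [Finset.mem_filter, Finset.mem_powersetCard, Finset.mem_powersetCard]
    constructor
    · rintro ⟨h1, h2⟩
      exact ⟨⟨h1.trans (Finset.filter_subset _ _), h2⟩, fun w hw => (Finset.mem_filter.1 (h1 hw)).2⟩
    · rintro ⟨⟨h1, h2⟩, h3⟩
      exact ⟨fun w hw => Finset.mem_filter.2 ⟨h1 hw, h3 w hw⟩, h2⟩
  rw [Finset.sum_congr rfl h1, Finset.sum_comm]
  have h2 : ∀ W ∈ Finset.powersetCard t N,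
      (∑ u ∈ N, if (∀ w ∈ W, G.Adj u w) then l u * ∏ w ∈ W, l w else 0) ≤
        t * lam * ∏ w ∈ W, l w := by
    intro W hW
    rw [Finset.mem_powersetCard] at hW
    rw [← Finset.sum_filter, ← Finset.sum_mul]
    refine mul_le_mul_of_nonneg_right ?_ (Finset.prod_nonneg (fun w _ => hl w))
    have h3 : ∑ u ∈ N.filter (fun u => ∀ w ∈ W, G.Adj u w), l u ≤
        ∑ _u ∈ N.filter (fun u => ∀ w ∈ W, G.Adj u w), lam :=
      Finset.sum_le_sum (fun u _ => hl1 u)
    rw [Finset.sum_const, nsmul_eq_mul] at h3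
    refine h3.trans ?_
    by_cases hne : (N.filter (fun u => ∀ w ∈ W, G.Adj u w)).Nonempty
    · obtain ⟨u, _⟩ := hne
      have hlam : 0 ≤ lam := (hl u).trans (hl1 u)
      refine mul_le_mul_of_nonneg_right ?_ hlam
      exact_mod_cast hK W hW.1 hW.2
    · rw [Finset.not_nonempty_iff_eq_empty] at hne
      rw [hne]
      rcases Nat.eq_zero_or_pos t with rfl | ht
      · simp
      · by_cases hV : Nonempty V
        · obtain ⟨u⟩ := hV
          have hlam : 0 ≤ lam := (hl u).trans (hl1 u)
          simp; positivity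
        · exfalso
          have : W.card = 0 := by
            rw [Finset.card_eq_zero]
            ext w
            exact absurd ⟨w⟩ hV
          omega
  refine (Finset.sum_le_sum h2).trans ?_
  rw [← Finset.mul_sum]
  have h4 := es_le_pow l hl N t
  rw [es] at h4
  rcases Nat.eq_zero_or_pos t with rfl | ht
  · simp
  · by_cases hV : Nonempty V
    · obtain ⟨u⟩ := hV
      have hlam : 0 ≤ lam := (hl u).trans (hl1 u)
      exact mul_le_mul_of_nonneg_left h4 (by positivity)
    · have hN : N = ∅ := by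
        ext w
        exact absurd ⟨w⟩ hV
      subst hN
      have : Finset.powersetCard t (∅ : Finset V) = ∅ := by
        rw [Finset.powersetCard_eq_empty]; simpa using ht
      rw [this]
      simp
      rw [zero_pow (by omega)]
      simp

/-- few weighted edges -/
theorem kst (l : V → ℝ) (lam δ : ℝ) (hl : ∀ u, 0 ≤ l u) (hl1 : ∀ u, l u ≤ lam) (hlam : 0 ≤ lam)
    (hδ : 0 < δ) (N : Finset V) (t : ℕ) (ht : 1 ≤ t) (hδt : 2 * t * lam ≤ δ)
    (hK : ∀ W ⊆ N, W.card = t → (N.filter (fun u => ∀ w ∈ W, G.Adj u w)).card ≤ t) :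
    ∑ u ∈ N, l u * Dg G N l u ≤ δ * (∑ u ∈ N, l u) +
      2 ^ t * t.factorial / δ ^ (t - 1) * (t * lam * (∑ u ∈ N, l u) ^ t) := by
  set C : ℝ := 2 ^ t * t.factorial / δ ^ (t - 1) with hC
  have hC0 : 0 ≤ C := by rw [hC]; positivity
  have h1 : ∀ u ∈ N, l u * Dg G N l u ≤ δ * l u +
      C * (l u * es t (N.filter (fun w => G.Adj u w)) l) := by
    intro u _
    have he := es_nonneg t (N.filter (fun w => G.Adj u w)) l hl
    have h2 : Dg G N l u ≤ δ + C * es t (N.filter (fun w => G.Adj u w)) l := by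
      by_cases hD : Dg G N l u ≤ δ
      · have := mul_nonneg hC0 he
        linarith
      · push Not at hD
        have hDt : t * lam ≤ Dg G N l u := by
          have : 0 ≤ (t : ℝ) * lam := by positivity
          linarith
        have h3 := es_lower l lam hl hl1 hlam (N.filter (fun w => G.Adj u w)) t hDt t (le_refl _)
        have h3' : (Dg G N l u - t * lam) ^ t ≤
            t.factorial * es t (N.filter (fun w => G.Adj u w)) l := h3
        set D := Dg G N l u with hDdef
        have h4 : (D / 2) ^ t ≤ (D - t * lam) ^ t := by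
          refine pow_le_pow_left₀ (by linarith) ?_ t
          linarith
        have h5 : D ^ t ≤ 2 ^ t * (t.factorial * es t (N.filter (fun w => G.Adj u w)) l) := by
          have h6 := h4.trans h3'
          rw [div_pow, div_le_iff₀ (by positivity)] at h6
          linarith
        have h7 : D * δ ^ (t - 1) ≤ D ^ t := by
          have h8 : δ ^ (t - 1) ≤ D ^ (t - 1) := pow_le_pow_left₀ hδ.le hD.le _
          calc D * δ ^ (t - 1) ≤ D * D ^ (t - 1) := mul_le_mul_of_nonneg_left h8 (by linarith)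
            _ = D ^ t := by rw [← pow_succ', Nat.sub_add_cancel ht]
        have h9 : D ≤ C * es t (N.filter (fun w => G.Adj u w)) l := by
          rw [hC, div_mul_eq_mul_div, le_div_iff₀ (by positivity)]
          linarith
        linarith
    have h10 := mul_le_mul_of_nonneg_left h2 (hl u)
    calc l u * Dg G N l u ≤ l u * (δ + C * es t (N.filter (fun w => G.Adj u w)) l) := h10
      _ = _ := by ring
  refine (Finset.sum_le_sum h1).trans ?_
  rw [Finset.sum_add_distrib, ← Finset.mul_sum, ← Finset.mul_sum]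
  have h2 := kst_sum l lam hl hl1 N t hK
  have h3 := mul_le_mul_of_nonneg_left h2 hC0
  linarith

/-- local occupancy -/
theorem occ (lam δ ε T : ℝ) (hlam : 0 ≤ lam) (hδ : 0 < δ) (hε : ε < 1) (hT : 0 < T)
    (N : Finset V) (t : ℕ) (ht : 1 ≤ t) (hδt : 2 * t * lam ≤ δ)
    (hmain : lam + δ + 2 ^ t * t.factorial / δ ^ (t - 1) * (t * lam * T ^ (t - 1)) ≤ ε)
    (hK : ∀ W ⊆ N, W.card = t → (N.filter (fun u => ∀ w ∈ W, G.Adj u w)).card ≤ t)
    (l : V → ℝ) (hl : ∀ u, 0 ≤ l u) (hl1 : ∀ u, l u ≤ lam) :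
    Zf G N l ≤ Real.exp T + 1 / ((1 - ε) * T) * Mf G N l := by
  have hM := mf_nonneg (G := G) N l hl
  have hcoef : 0 < 1 / ((1 - ε) * T) := by
    have : 0 < 1 - ε := by linarith
    positivity
  by_cases hle : ∑ u ∈ N, l u ≤ T
  · have h1 := zf_le_exp (G := G) N l hl
    have h2 : Real.exp (∑ u ∈ N, l u) ≤ Real.exp T := Real.exp_le_exp.2 hle
    have h3 := mul_nonneg hcoef.le hM
    linarith
  · push Not at hle
    set Λ := ∑ u ∈ N, l u with hΛ
    have hΛ0 : 0 < Λ := hT.trans hle
    set s := T / Λ with hs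
    have hs0 : 0 ≤ s := by positivity
    have hs1 : s ≤ 1 := by rw [hs, div_le_one hΛ0]; exact hle.le
    set m : V → ℝ := fun u => s * l u with hm
    have hm0 : ∀ u, 0 ≤ m u := fun u => mul_nonneg hs0 (hl u)
    have hm1 : ∀ u, m u ≤ lam := by
      intro u
      have := mul_le_mul_of_nonneg_right hs1 (hl u)
      simp only [hm]
      linarith [hl1 u]
    have hmT : ∑ u ∈ N, m u = T := by
      simp only [hm]
      rw [← Finset.mul_sum, ← hΛ, hs]
      field_simp
    have h1 := mf_lower (G := G) N m hm0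
    have h2 := kst (G := G) m lam δ hm0 hm1 hlam hδ N t ht hδt hK
    rw [hmT] at h2
    have h3 : (1 - ε) * T ≤ ∑ u ∈ N, m u * (1 - m u - Dg G N m u) := by
      have e1 : ∑ u ∈ N, m u * (1 - m u - Dg G N m u) =
          ∑ u ∈ N, m u - ∑ u ∈ N, m u * m u - ∑ u ∈ N, m u * Dg G N m u := by
        rw [← Finset.sum_sub_distrib, ← Finset.sum_sub_distrib]
        refine Finset.sum_congr rfl (fun u _ => by ring)
      have e2 : ∑ u ∈ N, m u * m u ≤ lam * T := by
        rw [← hmT, Finset.mul_sum]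
        refine Finset.sum_le_sum (fun u _ => ?_)
        exact mul_le_mul_of_nonneg_right (hm1 u) (hm0 u)
      rw [e1, hmT]
      have e3 : T ^ t = T * T ^ (t - 1) := by rw [← pow_succ', Nat.sub_add_cancel ht]
      rw [e3] at h2
      have e4 := mul_le_mul_of_nonneg_right hmain hT.le
      have e5 : (lam + δ + 2 ^ t * t.factorial / δ ^ (t - 1) * (t * lam * T ^ (t - 1))) * T =
          lam * T + (δ * T + 2 ^ t * t.factorial / δ ^ (t - 1) * (t * lam * (T * T ^ (t - 1)))) := by
        ring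
      rw [e5] at e4
      linarith
    have hZm := zf_pos (G := G) N m hm0
    have hZl := zf_pos (G := G) N l hl
    have h4 := scale (G := G) N l hl hs0 hs1
    have h5 : Zf G N m * ((1 - ε) * T) ≤ Mf G N m :=
      (mul_le_mul_of_nonneg_left h3 hZm.le).trans h1
    have h6 : (Zf G N m * ((1 - ε) * T)) * Zf G N l ≤ Mf G N l * Zf G N m :=
      (mul_le_mul_of_nonneg_right h5 hZl.le).trans h4
    have h7 : ((1 - ε) * T) * Zf G N l ≤ Mf G N l := by
      have h8 : Zf G N m * (((1 - ε) * T) * Zf G N l) ≤ Zf G N m * Mf G N l := by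
        linarith
      exact le_of_mul_le_mul_left h8 hZm
    have h9 : Zf G N l ≤ 1 / ((1 - ε) * T) * Mf G N l := by
      have : 0 < (1 - ε) * T := mul_pos (by linarith) hT
      rw [one_div, ← div_eq_inv_mul, le_div_iff₀ this]
      linarith
    have := Real.exp_pos T
    linarith

end Pool.Agent.TH855
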