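import Mathlib
import Pool.Agent.TH855.Occ
import Pool.Agent.Helper311.Glue.Asym

set_option autoImplicit false

/-!
# `c(F) ≤ 1` for almost bipartite graphs
-/

namespace Pool.Agent.TH855

open Finset Filter Classical Pool.Agent.Helper311.Glue

/-- Graphs in which no neighbourhood contains `K_{t,t+1}` can be coloured with
`(1 + o(1)) Δ / log Δ` colours. -/
theorem sparse_nbhd (t : ℕ) (ht : 1 ≤ t) (ε : ℝ) (hε : 0 < ε) : ∃ Δ₀ : ℕ, ∀ Δ : ℕ, Δ₀ ≤ Δ →
    ∀ (V : Type) [Fintype V] (G : SimpleGraph V),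
      (∀ v, ∀ N : Finset V, (∀ w ∈ N, G.Adj v w) → N.card ≤ Δ) →
      (∀ v, ∀ A B : Finset V, (∀ w ∈ A, G.Adj v w) → (∀ u ∈ B, G.Adj v u) →
        (∀ u ∈ B, ∀ w ∈ A, G.Adj u w) → A.card = t → B.card ≤ t) →
      ∃ n : ℕ, G.Colorable n ∧ (n : ℝ) ≤ (1 + ε) * ((Δ : ℝ) / Real.log (Δ : ℝ)) := by
  set e : ℝ := min ε 1 / 20 with he
  have he0 : 0 < e := by rw [he]; exact div_pos (lt_min hε one_pos) (by norm_num)
  have he1 : e ≤ 1 / 20 := by
    rw [he]; exact div_le_div_of_nonneg_right (min_le_right _ _) (by norm_num)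
  have heε : 20 * e ≤ ε := by
    rw [he]; linarith [min_le_left ε 1]
  set δ : ℝ := e / 3 with hδ
  have hδ0 : 0 < δ := by positivity
  set C : ℝ := 2 ^ t * t.factorial / δ ^ (t - 1) * t with hC
  have htpos : (0 : ℝ) < t := by exact_mod_cast ht
  have hC0 : 0 < C := by rw [hC]; positivity
  set κ : ℝ := min (min (e / 3) (e / (6 * t))) (min (e / (3 * C)) (16 * e / 5)) with hκ
  have hκ0 : 0 < κ := by rw [hκ]; positivity
  have hκ1 : κ ≤ e / 3 := (min_le_left _ _).trans (min_le_left _ _)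
  have hκ2 : κ ≤ e / (6 * t) := (min_le_left _ _).trans (min_le_right _ _)
  have hκ3 : κ ≤ e / (3 * C) := (min_le_right _ _).trans (min_le_left _ _)
  have hκ4 : κ ≤ 16 * e / 5 := (min_le_right _ _).trans (min_le_right _ _)
  have hlogtend : Tendsto (fun n : ℕ => Real.log (n : ℝ)) atTop atTop :=
    Real.tendsto_log_atTop.comp tendsto_natCast_atTop_atTop
  have E1 := hlogtend.eventually (asy_exp (α := e / 4) (by positivity) hκ0 t)
  have E2 := hlogtend.eventually_ge_atTop 1
  obtain ⟨Δ₀, hΔ₀⟩ := eventually_atTop.1 (E1.and E2)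
  refine ⟨max Δ₀ 1, ?_⟩
  intro Δ hΔ V _ G hdeg hK
  obtain ⟨e1, e2⟩ := hΔ₀ Δ ((le_max_left _ _).trans hΔ)
  set L := Real.log (Δ : ℝ) with hL
  have hΔ1 : (1 : ℝ) ≤ Δ := by exact_mod_cast (le_max_right _ _).trans hΔ
  have hΔexp : (Δ : ℝ) = Real.exp L := by rw [hL, Real.exp_log (by linarith)]
  have hL0 : 0 < L := by linarith
  set T : ℝ := (1 - e) * L with hT
  have hT0 : 0 < T := mul_pos (by linarith) hL0
  set lam : ℝ := Real.exp (-(e / 4 * L)) with hlam
  have hlam0 : 0 < lam := Real.exp_pos _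
  have hp1 : (1 : ℝ) ≤ (L + 1) ^ t := one_le_pow₀ (by linarith)
  have hpL : L ≤ (L + 1) ^ t := by
    calc L ≤ (L + 1) ^ 1 := by linarith
      _ ≤ (L + 1) ^ t := pow_le_pow_right₀ (by linarith) ht
  have hlam1 : lam ≤ κ := by
    calc lam = lam * 1 := by ring
      _ ≤ lam * (L + 1) ^ t := mul_le_mul_of_nonneg_left hp1 hlam0.le
      _ ≤ κ := e1
  have hlamL : lam * L ≤ κ := (mul_le_mul_of_nonneg_left hpL hlam0.le).trans e1
  have hlamT : lam * T ^ (t - 1) ≤ κ := by
    refine (mul_le_mul_of_nonneg_left ?_ hlam0.le).trans e1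
    calc T ^ (t - 1) ≤ (L + 1) ^ (t - 1) := by
          refine pow_le_pow_left₀ hT0.le ?_ _
          rw [hT]; nlinarith
      _ ≤ (L + 1) ^ t := pow_le_pow_right₀ (by linarith) (by omega)
  -- the occupancy inequality
  set s0 : ℕ := ⌈Real.exp (e / 4 * L)⌉₊ + 1 with hs0
  have hs0a : Real.exp (e / 4 * L) ≤ (s0 : ℝ) - 1 := by
    rw [hs0]; push_cast
    have := Nat.le_ceil (Real.exp (e / 4 * L))
    linarith
  have hexp1 : 1 < Real.exp (e / 4 * L) := Real.one_lt_exp_iff.2 (by positivity)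
  have hs0b : (s0 : ℝ) ≤ 3 * Real.exp (e / 4 * L) := by
    rw [hs0]; push_cast
    have := Nat.ceil_lt_add_one (Real.exp_pos (e / 4 * L)).le
    linarith
  have hs02 : 2 ≤ s0 := by
    have : (1 : ℝ) < (s0 : ℝ) - 1 := lt_of_lt_of_le hexp1 hs0a
    have h2 : (2 : ℝ) < s0 := by linarith
    exact_mod_cast h2.le
  have hinv : 1 / ((s0 : ℝ) - 1) ≤ lam := by
    have h1 : lam = 1 / Real.exp (e / 4 * L) := by
      rw [hlam, Real.exp_neg, one_div]
    rw [h1]
    exact div_le_div_of_nonneg_left zero_le_one (Real.exp_pos _) hs0a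
  have hocc : ∀ v, ∀ N : Finset V, (∀ u ∈ N, G.Adj v u) → ∀ l : V → ℝ, (∀ u, 0 ≤ l u) →
      (∀ u, l u ≤ 1 / ((s0 : ℝ) - 1)) →
        Zf G N l ≤ Real.exp T + 1 / ((1 - e) * T) * Mf G N l := by
    intro v N hN l hl hl1
    refine occ (G := G) lam δ e T hlam0.le hδ0 (by linarith) hT0 N t ht ?_ ?_ ?_ l hl
      (fun u => (hl1 u).trans hinv)
    · have h1 : lam ≤ e / (6 * t) := hlam1.trans hκ2
      rw [le_div_iff₀ (by positivity)] at h1
      rw [hδ]; linarith
    · have h1 : 2 ^ t * (t.factorial : ℝ) / δ ^ (t - 1) * (t * lam * T ^ (t - 1)) =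
          C * (lam * T ^ (t - 1)) := by rw [hC]; ring
      rw [h1]
      have h2 : C * (lam * T ^ (t - 1)) ≤ e / 3 := by
        have h3 : lam * T ^ (t - 1) ≤ e / (3 * C) := hlamT.trans hκ3
        rw [le_div_iff₀ (by positivity)] at h3
        linarith
      have h4 : lam ≤ e / 3 := hlam1.trans hκ1
      rw [hδ]; linarith
    · intro W hW hWt
      refine hK v W _ (fun w hw => hN w (hW hw)) ?_ ?_ hWt
      · intro u hu
        exact hN u (Finset.mem_filter.1 hu).1
      · intro u hu
        exact (Finset.mem_filter.1 hu).2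
  set q : ℕ := ⌊(1 + ε) * ((Δ : ℝ) / L)⌋₊ with hq
  have hq0 : 0 ≤ (1 + ε) * ((Δ : ℝ) / L) := by positivity
  refine ⟨q, ?_, Nat.floor_le hq0⟩
  refine colorable_of_occ (s0 := s0) hs02 Δ (β := Real.exp T) (γ := 1 / ((1 - e) * T))
    (ℓ := Real.exp (e / 2 * L)) (Real.exp_pos _) ?_ (Real.exp_pos _)
    (fun v => hdeg v _ (fun w hw => (Finset.mem_filter.1 hw).2)) hocc ?_
  · have : 0 < (1 - e) * T := mul_pos (by linarith) hT0
    positivity
  · have hq1 : (1 + ε) * ((Δ : ℝ) / L) - 1 ≤ q := by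
      have := Nat.lt_floor_add_one ((1 + ε) * ((Δ : ℝ) / L))
      rw [← hq] at this
      linarith
    have h1 : Real.exp T * Real.exp (e / 2 * L) ≤ Δ * lam := by
      rw [hΔexp, hlam, ← Real.exp_add, ← Real.exp_add]
      apply Real.exp_le_exp.2
      rw [hT]
      have : 0 ≤ e * L := by positivity
      linarith
    have h2 : (Δ : ℝ) * s0 / Real.exp (e / 2 * L) ≤ 3 * (Δ * lam) := by
      rw [div_le_iff₀ (Real.exp_pos _)]
      have h3 : lam * Real.exp (e / 2 * L) = Real.exp (e / 4 * L) := by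
        rw [hlam, ← Real.exp_add]; congr 1; ring
      calc (Δ : ℝ) * s0 ≤ Δ * (3 * Real.exp (e / 4 * L)) :=
            mul_le_mul_of_nonneg_left hs0b (by linarith)
        _ = 3 * (Δ * lam) * Real.exp (e / 2 * L) := by rw [← h3]; ring
    have h3 : 1 / ((1 - e) * T) * Δ ≤ (1 + 4 * e) * (Δ / L) := by
      have h4 : 1 / ((1 - e) * T) ≤ (1 + 4 * e) / L := by
        rw [div_le_div_iff₀ (mul_pos (by linarith) hT0) hL0, hT]
        have h5 : 1 ≤ (1 + 4 * e) * ((1 - e) * (1 - e)) := by
          nlinarith [mul_pos (mul_pos he0 he0) he0,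
            mul_nonneg he0.le (by linarith : 0 ≤ 2 - 7 * e)]
        have h6 := mul_le_mul_of_nonneg_right h5 hL0.le
        linarith
      calc 1 / ((1 - e) * T) * Δ ≤ (1 + 4 * e) / L * Δ :=
            mul_le_mul_of_nonneg_right h4 (by linarith)
        _ = _ := by ring
    have h6 : 1 ≤ (Δ : ℝ) * lam := by
      rw [hΔexp, hlam, ← Real.exp_add]
      apply Real.one_le_exp
      have : e / 4 * L ≤ 1 * L := mul_le_mul_of_nonneg_right (by linarith) hL0.le
      linarith
    have h7 : 5 * (Δ * lam) ≤ 16 * e * (Δ / L) := by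
      have h8 : lam * L ≤ 16 * e / 5 := hlamL.trans hκ4
      rw [mul_div_assoc', le_div_iff₀ hL0]
      have h10 := mul_le_mul_of_nonneg_left h8 (show (0 : ℝ) ≤ 5 * Δ by linarith)
      linarith
    have h9 : 20 * e * ((Δ : ℝ) / L) ≤ ε * ((Δ : ℝ) / L) :=
      mul_le_mul_of_nonneg_right heε (by positivity)
    linarith

/-- `F` minus the vertex `x` is bipartite -/
def AB {W : Type} (F : SimpleGraph W) (x : W) : Prop :=
  ∃ col : W → Bool, ∀ y z, F.Adj y z → y ≠ x → z ≠ x → col y ≠ col z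

theorem upTo_ab {W : Type} [Fintype W] (F : SimpleGraph W) (x : W) (hF : AB F x) : UpTo F 1 := by
  obtain ⟨col, hcol⟩ := hF
  intro ε hε
  set t := Fintype.card W with ht
  have ht1 : 1 ≤ t := Fintype.card_pos_iff.2 ⟨x⟩
  obtain ⟨Δ₀, hΔ₀⟩ := sparse_nbhd t ht1 ε hε
  refine ⟨Δ₀, ?_⟩
  intro Δ hΔ V _ G _ hfree hmax
  refine hΔ₀ Δ hΔ V G ?_ ?_
  · intro v N hN
    have h1 : N ⊆ G.neighborFinset v := by
      intro w hw
      rw [SimpleGraph.mem_neighborFinset]
      exact hN w hw
    refine (Finset.card_le_card h1).trans ?_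
    rw [SimpleGraph.card_neighborFinset_eq_degree, ← hmax]
    exact G.degree_le_maxDegree v
  · intro v A B hA hB hAB hAt
    by_contra hcon
    push Not at hcon
    apply hfree
    have hc1 : Fintype.card W ≤ Fintype.card A := by rw [Fintype.card_coe, hAt]
    have hc2 : Fintype.card W ≤ Fintype.card B := by rw [Fintype.card_coe]; omega
    obtain ⟨f⟩ := Function.Embedding.nonempty_of_card_le hc1
    obtain ⟨g⟩ := Function.Embedding.nonempty_of_card_le hc2
    have hfA : ∀ y, G.Adj v (f y : V) := fun y => hA _ (f y).2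
    have hgB : ∀ y, G.Adj v (g y : V) ∧ ∀ w ∈ A, G.Adj (g y : V) w := fun y =>
      ⟨hB _ (g y).2, hAB _ (g y).2⟩
    have hfg : ∀ y z, G.Adj (g y : V) (f z : V) := fun y z => (hgB y).2 _ (f z).2
    set φ : W → V := fun y => if y = x then v else if col y then (f y : V) else (g y : V) with hφ
    have hadj : ∀ y z, F.Adj y z → G.Adj (φ y) (φ z) := by
      intro y z hyz
      simp only [hφ]
      by_cases hy : y = x
      · have hz : z ≠ x := by rw [← hy]; exact hyz.ne'
        rw [if_pos hy, if_neg hz]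
        split_ifs
        · exact hfA z
        · exact (hgB z).1
      · by_cases hz : z = x
        · rw [if_pos hz, if_neg hy]
          split_ifs
          · exact (hfA y).symm
          · exact (hgB y).1.symm
        · rw [if_neg hy, if_neg hz]
          have := hcol y z hyz hy hz
          cases hcy : col y <;> cases hcz : col z
          · exact absurd (hcy.trans hcz.symm) this
          · simp only [Bool.false_eq_true, if_false, if_true]
            exact hfg y z
          · simp only [Bool.false_eq_true, if_false, if_true]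
            exact (hfg z y).symm
          · exact absurd (hcy.trans hcz.symm) this
    have hinj : Function.Injective φ := by
      intro y z hyz
      simp only [hφ] at hyz
      by_cases hy : y = x
      · by_cases hz : z = x
        · rw [hy, hz]
        · rw [if_pos hy, if_neg hz] at hyz
          exfalso
          split_ifs at hyz
          · exact (hfA z).ne hyz
          · exact (hgB z).1.ne hyz
      · by_cases hz : z = x
        · rw [if_pos hz, if_neg hy] at hyz
          exfalso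
          split_ifs at hyz
          · exact (hfA y).ne hyz.symm
          · exact (hgB y).1.ne hyz.symm
        · rw [if_neg hy, if_neg hz] at hyz
          split_ifs at hyz with h1 h2 h2
          · exact f.injective (Subtype.ext hyz)
          · exact absurd hyz.symm (hfg z y).ne
          · exact absurd hyz (hfg y z).ne
          · exact g.injective (Subtype.ext hyz)
    exact ⟨⟨⟨φ, fun {a b} h => hadj a b h⟩, hinj⟩⟩

end Pool.Agent.TH855
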