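import Mathlib
import Pool.Agent.Helper311.Glue.Asym

set_option autoImplicit false

/-!
# The constants `c(F)`
-/

namespace Pool.Agent.TH855

open Filter Finset Pool.Agent.Helper311.Glue Classical
open scoped ENNReal

variable {W : Type}

/-- `c(F, Δ)`: the supremum of `χ(G) / (Δ / log Δ)` over all finite `F`-free graphs `G` of maximum
degree `Δ` (it is `0` if there are none). -/
noncomputable def cAt (F : SimpleGraph W) (Δ : ℕ) : ℝ≥0∞ :=
  ⨆ (V : Type) (_ : Fintype V) (G : SimpleGraph V) (_ : F.Free G) (_ : G.maxDegree = Δ),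
    ENNReal.ofReal ((G.chromaticNumber.toNat : ℝ) / ((Δ : ℝ) / Real.log (Δ : ℝ)))

/-- `c(F) = limsup c(F, Δ) ∈ [0, ∞]` as `Δ → ∞`. -/
noncomputable def c (F : SimpleGraph W) : ℝ≥0∞ := limsup (cAt F) atTop

theorem upTo_of_c_le (F : SimpleGraph W) (a : ℝ) (ha : 0 ≤ a)
    (h : c F ≤ ENNReal.ofReal a) : UpTo F a := by
  intro ε hε
  have h1 : c F < ENNReal.ofReal (a + ε) :=
    lt_of_le_of_lt h ((ENNReal.ofReal_lt_ofReal_iff (by linarith)).2 (by linarith))
  have h2 : ∀ᶠ Δ in atTop, cAt F Δ < ENNReal.ofReal (a + ε) := eventually_lt_of_limsup_lt h1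
  obtain ⟨Δ₀, hΔ₀⟩ := eventually_atTop.1 h2
  refine ⟨max Δ₀ 2, ?_⟩
  intro Δ hΔ V instV G inst hfree hmax
  have hinst : inst = fun a b => Classical.propDecidable (G.Adj a b) := Subsingleton.elim _ _
  subst hinst
  have h3 := hΔ₀ Δ ((le_max_left _ _).trans hΔ)
  have hΔ2 : (1 : ℝ) < Δ := by
    have : 2 ≤ Δ := (le_max_right _ _).trans hΔ
    exact_mod_cast (show 1 < Δ by omega)
  have hpos : 0 < (Δ : ℝ) / Real.log Δ := div_pos (by linarith) (Real.log_pos hΔ2)
  refine ⟨G.chromaticNumber.toNat, SimpleGraph.colorable_chromaticNumber_of_fintype G, ?_⟩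
  have h4 : ENNReal.ofReal ((G.chromaticNumber.toNat : ℝ) / ((Δ : ℝ) / Real.log (Δ : ℝ))) ≤
      cAt F Δ := by
    unfold cAt
    refine le_iSup_of_le V ?_
    refine le_iSup_of_le instV ?_
    refine le_iSup_of_le G ?_
    refine le_iSup_of_le hfree ?_
    exact le_iSup_of_le hmax (le_refl _)
  have h5 := lt_of_le_of_lt h4 h3
  rw [ENNReal.ofReal_lt_ofReal_iff (by linarith), div_lt_iff₀ hpos] at h5
  exact h5.le

theorem c_le_of_upTo (F : SimpleGraph W) (a : ℝ) (ha : 0 ≤ a)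
    (h : UpTo F a) : c F ≤ ENNReal.ofReal a := by
  refine ENNReal.le_of_forall_pos_le_add ?_
  intro ε hε _
  have hε' : (0 : ℝ) < ε := by exact_mod_cast hε
  obtain ⟨Δ₀, hΔ₀⟩ := h ε hε'
  have h1 : ENNReal.ofReal a + (ε : ℝ≥0∞) = ENNReal.ofReal (a + ε) := by
    rw [ENNReal.ofReal_add ha hε'.le, ENNReal.ofReal_coe_nnreal]
  rw [h1]
  refine limsup_le_of_le (by isBoundedDefault) ?_
  filter_upwards [eventually_ge_atTop (max Δ₀ 2)] with Δ hΔ
  have hΔ2 : (1 : ℝ) < Δ := by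
    have : 2 ≤ Δ := (le_max_right _ _).trans hΔ
    exact_mod_cast (show 1 < Δ by omega)
  have hpos : 0 < (Δ : ℝ) / Real.log Δ := div_pos (by linarith) (Real.log_pos hΔ2)
  unfold cAt
  refine iSup_le fun V => iSup_le fun _ => iSup_le fun G => iSup_le fun hfree =>
    iSup_le fun hmax => ?_
  obtain ⟨n, hn, hn2⟩ := hΔ₀ Δ ((le_max_left _ _).trans hΔ) V G hfree hmax
  apply ENNReal.ofReal_le_ofReal
  rw [div_le_iff₀ hpos]
  refine le_trans ?_ hn2
  exact_mod_cast ENat.toNat_le_of_le_natCast hn.chromaticNumber_le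

end Pool.Agent.TH855
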