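import Mathlib
import Pool.Agent.Helper311.Glue.Rand

set_option autoImplicit false

/-!
# Counting homomorphisms and resampling
-/

namespace Pool.Agent.TH855

open Finset Classical Pool.Agent.Helper635.LLL

set_option linter.unusedSectionVars false

section Count

variable {U V : Type} [Fintype U] [Fintype V]

/-- `ψ` is a homomorphism -/
def IsHom (H : SimpleGraph U) (G : SimpleGraph V) (ψ : U → V) : Prop :=
  ∀ a b, H.Adj a b → G.Adj (ψ a) (ψ b)

theorem exists_cross (H : SimpleGraph U) (hH : H.Connected) (Z : Finset U) (hZ : Z.Nonempty)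
    (hZ' : Z ≠ univ) : ∃ a ∈ Z, ∃ b, b ∉ Z ∧ H.Adj a b := by
  obtain ⟨z, hz⟩ := hZ
  have : ∃ b, b ∉ Z := by
    by_contra hcon
    push Not at hcon
    exact hZ' (Finset.eq_univ_iff_forall.2 hcon)
  obtain ⟨b, hb⟩ := this
  obtain ⟨p⟩ := hH.preconnected z b
  obtain ⟨d, -, hd1, hd2⟩ := p.exists_boundary_dart (Z : Set U) (by simpa using hz)
    (by simpa using hb)
  exact ⟨d.fst, by simpa using hd1, d.snd, by simpa using hd2, d.adj⟩

/-- homomorphisms with prescribed values on a nonempty set -/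
theorem count_fixed (H : SimpleGraph U) (hH : H.Connected) (G : SimpleGraph V) (D : ℕ)
    (hD : ∀ v, ∀ N : Finset V, (∀ w ∈ N, G.Adj v w) → N.card ≤ D) :
    ∀ (n : ℕ) (Z : Finset U), Z.Nonempty → (Zᶜ).card = n → ∀ f : U → V,
      (univ.filter (fun ψ : U → V => IsHom H G ψ ∧ ∀ z ∈ Z, ψ z = f z)).card ≤ D ^ n := by
  intro n
  induction n with
  | zero =>
    intro Z hZ hc f
    rw [Finset.card_eq_zero, Finset.compl_eq_empty_iff] at hc
    rw [pow_zero, Finset.card_le_one]
    intro ψ hψ ψ' hψ'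
    rw [Finset.mem_filter] at hψ hψ'
    funext z
    have hz : z ∈ Z := by rw [hc]; exact Finset.mem_univ _
    rw [hψ.2.2 z hz, hψ'.2.2 z hz]
  | succ n ih =>
    intro Z hZ hc f
    have hZ' : Z ≠ univ := by
      rintro rfl
      simp at hc
    obtain ⟨a, ha, b, hb, hab⟩ := exists_cross H hH Z hZ hZ'
    have hsub : univ.filter (fun ψ : U → V => IsHom H G ψ ∧ ∀ z ∈ Z, ψ z = f z) ⊆
        (univ.filter (fun w => G.Adj (f a) w)).biUnion (fun w =>
          univ.filter (fun ψ : U → V => IsHom H G ψ ∧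
            ∀ z ∈ insert b Z, ψ z = Function.update f b w z)) := by
      intro ψ hψ
      rw [Finset.mem_filter] at hψ
      rw [Finset.mem_biUnion]
      refine ⟨ψ b, ?_, ?_⟩
      · rw [Finset.mem_filter]
        refine ⟨Finset.mem_univ _, ?_⟩
        rw [← hψ.2.2 a ha]
        exact hψ.2.1 a b hab
      · rw [Finset.mem_filter]
        refine ⟨Finset.mem_univ _, hψ.2.1, ?_⟩
        intro z hz
        by_cases hzb : z = b
        · rw [hzb, Function.update_self]
        · rw [Function.update_of_ne hzb]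
          exact hψ.2.2 z ((Finset.mem_insert.1 hz).resolve_left hzb)
    refine (Finset.card_le_card hsub).trans ?_
    refine (Finset.card_biUnion_le_card_mul _ _ (D ^ n) ?_).trans ?_
    · intro w _
      refine ih (insert b Z) (Finset.insert_nonempty _ _) ?_ _
      rw [Finset.compl_insert, Finset.card_erase_of_mem (by simpa using hb), hc]
      rfl
    · rw [pow_succ, mul_comm]
      refine Nat.mul_le_mul_left _ (hD (f a) _ (fun w hw => ?_))
      simpa using hw

/-- homomorphisms that map `Z` into `A` -/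
theorem count_in (H : SimpleGraph U) (hH : H.Connected) (G : SimpleGraph V) (D : ℕ)
    (hD : ∀ v, ∀ N : Finset V, (∀ w ∈ N, G.Adj v w) → N.card ≤ D) (Z : Finset U)
    (hZ : Z.Nonempty) (A : Finset V) :
    (univ.filter (fun ψ : U → V => IsHom H G ψ ∧ ∀ z ∈ Z, ψ z ∈ A)).card ≤
      D ^ (Zᶜ).card * A.card ^ Z.card := by
  set r : (U → V) → (Z → V) := fun ψ z => ψ z with hr
  refine (Finset.card_le_mul_card_image (f := r) _ (D ^ (Zᶜ).card) ?_).trans ?_
  · intro g hg
    rw [Finset.mem_image] at hg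
    obtain ⟨ψ0, -, hψ0⟩ := hg
    refine (Finset.card_le_card ?_).trans (count_fixed H hH G D hD (Zᶜ).card Z hZ rfl ψ0)
    intro ψ hψ
    rw [Finset.mem_filter, Finset.mem_filter] at hψ
    rw [Finset.mem_filter]
    refine ⟨Finset.mem_univ _, hψ.1.2.1, ?_⟩
    intro z hz
    have h1 := congrFun (hψ.2.trans hψ0.symm) ⟨z, hz⟩
    exact h1
  · refine Nat.mul_le_mul_left _ ?_
    have hsub : (univ.filter (fun ψ : U → V => IsHom H G ψ ∧ ∀ z ∈ Z, ψ z ∈ A)).image r ⊆
        Fintype.piFinset (fun _ : Z => A) := by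
      intro g hg
      rw [Finset.mem_image] at hg
      obtain ⟨ψ, hψ, rfl⟩ := hg
      rw [Finset.mem_filter] at hψ
      rw [Fintype.mem_piFinset]
      intro z
      exact hψ.2.2 z z.2
    refine (Finset.card_le_card hsub).trans ?_
    rw [Fintype.card_piFinset]
    simp

/-- the same without decidability issues -/
theorem count_in' (H : SimpleGraph U) (hH : H.Connected) (G : SimpleGraph V) (D : ℕ)
    (hD : ∀ v, ∀ N : Finset V, (∀ w ∈ N, G.Adj v w) → N.card ≤ D) (Z : Finset U)
    (hZ : Z.Nonempty) (A : Finset V) (S : Finset (U → V))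
    (hS : ∀ ψ ∈ S, IsHom H G ψ ∧ ∀ z ∈ Z, ψ z ∈ A) :
    S.card ≤ D ^ (Fintype.card U - Z.card) * A.card ^ Z.card := by
  have h := count_in H hH G D hD Z hZ A
  rw [Finset.card_compl] at h
  refine (Finset.card_le_card ?_).trans h
  intro ψ hψ
  rw [Finset.mem_filter]
  exact ⟨Finset.mem_univ _, hS ψ hψ⟩

end Count

section Resample

variable {V : Type} [Fintype V]

theorem cnt_eq_sum {K : ℕ} (P : (V → Fin K) → Prop) :
    (cnt P : ℝ) = ∑ ω : V → Fin K, if P ω then (1 : ℝ) else 0 := by
  rw [cnt, ev, ← Finset.sum_filter]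
  simp

/-- resampling one coordinate -/
theorem resample {K : ℕ} (P : (V → Fin K) → Prop) (w a : V) (hwa : w ≠ a)
    (hP : ∀ ω c, P (Function.update ω w c) ↔ P ω) :
    (K : ℝ) * (cnt (fun ω => P ω ∧ ω w = ω a) : ℝ) = (cnt P : ℝ) := by
  have h := Pool.Agent.Helper311.Glue.sum_update (C := Fin K) w
    (fun ω : V → Fin K => if P ω ∧ ω w = ω a then (1 : ℝ) else 0)
  rw [Fintype.card_fin] at h
  have e0 : (K : ℝ) * (cnt (fun ω => P ω ∧ ω w = ω a) : ℝ) =
      (K : ℝ) * ∑ ω : V → Fin K, (if P ω ∧ ω w = ω a then (1 : ℝ) else 0) := by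
    rw [cnt_eq_sum]
    congr 1
    refine Finset.sum_congr rfl (fun ω _ => ?_)
    by_cases hc : P ω ∧ ω w = ω a
    · rw [if_pos hc, if_pos hc]
    · rw [if_neg hc, if_neg hc]
  rw [e0, ← h, cnt_eq_sum]
  refine Finset.sum_congr rfl (fun ω _ => ?_)
  have h1 : ∀ c : Fin K, (if P (Function.update ω w c) ∧ Function.update ω w c w =
      Function.update ω w c a then (1 : ℝ) else 0) = if c = ω a then (if P ω then 1 else 0) else 0 := by
    intro c
    rw [Function.update_self, Function.update_of_ne hwa.symm]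
    by_cases h1 : c = ω a
    · by_cases h2 : P ω
      · rw [if_pos ⟨(hP ω c).2 h2, h1⟩, if_pos h1, if_pos h2]
      · rw [if_neg (fun h => h2 ((hP ω c).1 h.1)), if_pos h1, if_neg h2]
    · rw [if_neg (fun h => h1 h.2), if_neg h1]
  rw [Finset.sum_congr rfl (fun c _ => h1 c)]
  simp

/-- resampling a set of coordinates -/
theorem resample_set {K : ℕ} (P : (V → Fin K) → Prop) (a : V) (R : Finset V) (ha : a ∉ R)
    (hP : ∀ w ∈ R, ∀ ω c, P (Function.update ω w c) ↔ P ω) :
    (K : ℝ) ^ R.card * (cnt (fun ω => P ω ∧ ∀ w ∈ R, ω w = ω a) : ℝ) = (cnt P : ℝ) := by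
  induction R using Finset.induction_on with
  | empty => simp
  | insert b R hb ih =>
    have ha' : a ∉ R := fun h => ha (Finset.mem_insert_of_mem h)
    have hba : b ≠ a := fun h => ha (by rw [h]; exact Finset.mem_insert_self _ _)
    have ih' := ih ha' (fun w hw => hP w (Finset.mem_insert_of_mem hw))
    rw [Finset.card_insert_of_notMem hb, pow_succ]
    have h1 := resample (fun ω : V → Fin K => P ω ∧ ∀ w ∈ R, ω w = ω a) b a hba (by
      intro ω c
      have h2 : (∀ w ∈ R, Function.update ω b c w = Function.update ω b c a) ↔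
          ∀ w ∈ R, ω w = ω a := by
        refine forall₂_congr (fun w hw => ?_)
        have : w ≠ b := by rintro rfl; exact hb hw
        rw [Function.update_of_ne this, Function.update_of_ne hba.symm]
      rw [h2, hP b (Finset.mem_insert_self _ _)])
    have h3 : (fun ω : V → Fin K => P ω ∧ ∀ w ∈ insert b R, ω w = ω a) =
        (fun ω => (P ω ∧ ∀ w ∈ R, ω w = ω a) ∧ ω b = ω a) := by
      funext ω
      rw [eq_iff_iff, Finset.forall_mem_insert]
      tauto
    rw [h3, mul_assoc, h1, ih']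

end Resample

end Pool.Agent.TH855
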