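import Mathlib
import Pool.Agent.TH855.Hom

set_option autoImplicit false

/-!
# Moments of the number of monochromatic configurations
-/

namespace Pool.Agent.TH855

open Finset Classical Pool.Agent.Helper635.LLL

set_option linter.unusedSectionVars false

variable {U V : Type} [Fintype U] [Fintype V]

/-- all vertices of the configuration `ψ` have the same type -/
def Mono {K : ℕ} (ψ : U → V) (ω : V → Fin K) : Prop := ∀ a b : U, ω (ψ a) = ω (ψ b)

theorem mono_one {K : ℕ} (P : (V → Fin K) → Prop) (U0 : Finset V)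
    (hP : ∀ w, w ∉ U0 → ∀ ω c, P (Function.update ω w c) ↔ P ω) (ψ : U → V)
    (hψ : Function.Injective ψ) (z0 : U) :
    (K : ℝ) ^ ((univ.filter (fun z => ψ z ∉ U0)).erase z0).card *
      (cnt (fun ω : V → Fin K => P ω ∧ Mono ψ ω) : ℝ) ≤ (cnt P : ℝ) := by
  set R : Finset V := ((univ.filter (fun z => ψ z ∉ U0)).erase z0).image ψ with hR
  have hcard : R.card = ((univ.filter (fun z => ψ z ∉ U0)).erase z0).card := by
    rw [hR, Finset.card_image_of_injective _ hψ]
  have ha : ψ z0 ∉ R := by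
    rw [hR, Finset.mem_image]
    rintro ⟨z, hz, hzz⟩
    exact (Finset.mem_erase.1 hz).1 (hψ hzz)
  have h1 := resample_set P (ψ z0) R ha (by
    intro w hw ω c
    refine hP w ?_ ω c
    rw [hR, Finset.mem_image] at hw
    obtain ⟨z, hz, rfl⟩ := hw
    exact (Finset.mem_filter.1 (Finset.mem_of_mem_erase hz)).2)
  rw [← h1, hcard]
  refine mul_le_mul_of_nonneg_left ?_ (by positivity)
  have h2 : cnt (fun ω : V → Fin K => P ω ∧ Mono ψ ω) ≤
      cnt (fun ω : V → Fin K => P ω ∧ ∀ w ∈ R, ω w = ω (ψ z0)) := by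
    refine cnt_mono ?_
    rintro ω ⟨h3, h4⟩
    refine ⟨h3, ?_⟩
    intro w hw
    rw [hR, Finset.mem_image] at hw
    obtain ⟨z, -, rfl⟩ := hw
    exact h4 z z0
  exact_mod_cast h2

/-- the expected number of monochromatic configurations, given an event on few coordinates -/
theorem mono_sum {K D k : ℕ} (hK : 1 ≤ K) (hKD : K ≤ D) (H : SimpleGraph U) (hH : H.Connected)
    (hU : Fintype.card U = k + 1) (G : SimpleGraph V)
    (hD : ∀ v, ∀ N : Finset V, (∀ w ∈ N, G.Adj v w) → N.card ≤ D)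
    (Ψ : Finset (U → V)) (hΨ : ∀ ψ ∈ Ψ, Function.Injective ψ ∧ IsHom H G ψ)
    (P : (V → Fin K) → Prop) (U0 : Finset V)
    (hP : ∀ w, w ∉ U0 → ∀ ω c, P (Function.update ω w c) ↔ P ω) :
    ∑ ψ ∈ Ψ, (cnt (fun ω : V → Fin K => P ω ∧ Mono ψ ω) : ℝ) ≤
      ((Ψ.card : ℝ) / (K : ℝ) ^ k + 2 ^ (k + 1) * ((U0.card : ℝ) + 1) ^ (k + 1) *
        ((D : ℝ) / K) ^ k) * (cnt P : ℝ) := by
  have hKpos : (0 : ℝ) < K := by exact_mod_cast hK
  have hρ : 1 ≤ (D : ℝ) / K := by
    rw [le_div_iff₀ hKpos, one_mul]; exact_mod_cast hKD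
  have hP0 : (0 : ℝ) ≤ (cnt P : ℝ) := by positivity
  have hne : Nonempty U := hH.nonempty
  set Jf : (U → V) → Finset U := fun ψ => univ.filter (fun z => ψ z ∈ U0) with hJf
  have hJc : ∀ ψ : U → V, univ.filter (fun z => ψ z ∉ U0) = (Jf ψ)ᶜ := by
    intro ψ; ext z; simp [hJf]
  rw [← Finset.sum_fiberwise (s := Ψ) (g := Jf)]
  -- bound for every `J`
  have hJ : ∀ J : Finset U, ∑ ψ ∈ Ψ.filter (fun ψ => Jf ψ = J),
      (cnt (fun ω : V → Fin K => P ω ∧ Mono ψ ω) : ℝ) ≤
        (if J = ∅ then ((Ψ.card : ℝ) / (K : ℝ) ^ k) * (cnt P : ℝ) else 0) +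
          (((U0.card : ℝ) + 1) ^ (k + 1) * ((D : ℝ) / K) ^ k) * (cnt P : ℝ) := by
    intro J
    have hX0 : 0 ≤ (((U0.card : ℝ) + 1) ^ (k + 1) * ((D : ℝ) / K) ^ k) * (cnt P : ℝ) := by
      positivity
    by_cases hJe : J = ∅
    · rw [if_pos hJe]
      have h1 : ∀ ψ ∈ Ψ.filter (fun ψ => Jf ψ = J),
          (cnt (fun ω : V → Fin K => P ω ∧ Mono ψ ω) : ℝ) ≤ (cnt P : ℝ) / (K : ℝ) ^ k := by
        intro ψ hψ
        rw [Finset.mem_filter] at hψ
        obtain ⟨z0⟩ := hne
        have h2 := mono_one P U0 hP ψ (hΨ ψ hψ.1).1 z0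
        rw [hJc, hψ.2, hJe, Finset.compl_empty, Finset.card_erase_of_mem (Finset.mem_univ _),
          Finset.card_univ, hU, Nat.add_sub_cancel] at h2
        rw [le_div_iff₀ (by positivity)]
        linarith
      have h3 := Finset.sum_le_sum h1
      rw [Finset.sum_const, nsmul_eq_mul] at h3
      have h4 : ((Ψ.filter (fun ψ => Jf ψ = J)).card : ℝ) ≤ Ψ.card := by
        exact_mod_cast Finset.card_filter_le _ _
      have h5 : ((Ψ.filter (fun ψ => Jf ψ = J)).card : ℝ) * ((cnt P : ℝ) / (K : ℝ) ^ k) ≤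
          ((Ψ.card : ℝ) / (K : ℝ) ^ k) * (cnt P : ℝ) := by
        calc _ ≤ (Ψ.card : ℝ) * ((cnt P : ℝ) / (K : ℝ) ^ k) :=
              mul_le_mul_of_nonneg_right h4 (by positivity)
          _ = _ := by ring
      linarith
    · rw [if_neg hJe, zero_add]
      have hJne : J.Nonempty := Finset.nonempty_iff_ne_empty.2 hJe
      have h1 : ∀ ψ ∈ Ψ.filter (fun ψ => Jf ψ = J),
          (cnt (fun ω : V → Fin K => P ω ∧ Mono ψ ω) : ℝ) ≤ (cnt P : ℝ) / (K : ℝ) ^ (Jᶜ).card := by
        intro ψ hψ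
        rw [Finset.mem_filter] at hψ
        obtain ⟨z0, hz0⟩ := hJne
        have h2 := mono_one P U0 hP ψ (hΨ ψ hψ.1).1 z0
        rw [hJc, hψ.2, Finset.erase_eq_of_notMem (by simpa using hz0)] at h2
        rw [le_div_iff₀ (by positivity)]
        linarith
      have h3 := Finset.sum_le_sum h1
      rw [Finset.sum_const, nsmul_eq_mul] at h3
      have h4 : ((Ψ.filter (fun ψ => Jf ψ = J)).card : ℝ) ≤
          (D : ℝ) ^ (Jᶜ).card * (U0.card : ℝ) ^ J.card := by
        have h5 : (Ψ.filter (fun ψ => Jf ψ = J)).card ≤ D ^ (Jᶜ).card * U0.card ^ J.card := by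
          refine (Finset.card_le_card ?_).trans (count_in H hH G D hD J hJne U0)
          intro ψ hψ
          rw [Finset.mem_filter] at hψ
          rw [Finset.mem_filter]
          refine ⟨Finset.mem_univ _, (hΨ ψ hψ.1).2, ?_⟩
          intro z hz
          rw [← hψ.2] at hz
          exact (Finset.mem_filter.1 hz).2
        exact_mod_cast h5
      have hJk : (Jᶜ).card ≤ k := by
        have := Finset.card_compl J
        have h6 := hJne.card_pos
        omega
      have hJk' : J.card ≤ k + 1 := by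
        rw [← hU]; exact Finset.card_le_univ _
      calc _ ≤ ((Ψ.filter (fun ψ => Jf ψ = J)).card : ℝ) * ((cnt P : ℝ) / (K : ℝ) ^ (Jᶜ).card) := h3
        _ ≤ ((D : ℝ) ^ (Jᶜ).card * (U0.card : ℝ) ^ J.card) *
            ((cnt P : ℝ) / (K : ℝ) ^ (Jᶜ).card) := mul_le_mul_of_nonneg_right h4 (by positivity)
        _ = ((U0.card : ℝ) ^ J.card * ((D : ℝ) / K) ^ (Jᶜ).card) * (cnt P : ℝ) := by
            rw [div_pow]; ring
        _ ≤ _ := by
            refine mul_le_mul_of_nonneg_right ?_ hP0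
            refine mul_le_mul ?_ (pow_le_pow_right₀ hρ hJk) (by positivity) (by positivity)
            calc (U0.card : ℝ) ^ J.card ≤ ((U0.card : ℝ) + 1) ^ J.card :=
                  pow_le_pow_left₀ (by positivity) (by linarith) _
              _ ≤ ((U0.card : ℝ) + 1) ^ (k + 1) :=
                  pow_le_pow_right₀ (by
                    have : (0 : ℝ) ≤ (U0.card : ℝ) := by positivity
                    linarith) hJk'
  refine (Finset.sum_le_sum (fun J _ => hJ J)).trans ?_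
  rw [Finset.sum_add_distrib, Finset.sum_const, nsmul_eq_mul, Finset.sum_ite_eq' univ ∅]
  simp only [Finset.mem_univ, if_true]
  rw [Finset.card_univ, Fintype.card_finset, hU]
  push_cast
  exact le_of_eq (by ring)

/-- moments -/
theorem moment {K D k : ℕ} (hK : 1 ≤ K) (hKD : K ≤ D) (H : SimpleGraph U) (hH : H.Connected)
    (hU : Fintype.card U = k + 1) (G : SimpleGraph V)
    (hD : ∀ v, ∀ N : Finset V, (∀ w ∈ N, G.Adj v w) → N.card ≤ D)
    (Ψ : Finset (U → V)) (hΨ : ∀ ψ ∈ Ψ, Function.Injective ψ ∧ IsHom H G ψ) (B : ℝ) (u : ℕ)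
    (hB : (Ψ.card : ℝ) / (K : ℝ) ^ k + 2 ^ (k + 1) * ((u : ℝ) + 1) ^ (k + 1) *
        ((D : ℝ) / K) ^ k ≤ B) :
    ∀ (p : ℕ) (P : (V → Fin K) → Prop) (U0 : Finset V), U0.card + p * (k + 1) ≤ u →
      (∀ w, w ∉ U0 → ∀ ω c, P (Function.update ω w c) ↔ P ω) →
      ∑ ω : V → Fin K, (if P ω then ((Ψ.filter (fun ψ => Mono ψ ω)).card : ℝ) ^ p else 0) ≤
        B ^ p * (cnt P : ℝ) := by
  have hKpos : (0 : ℝ) < K := by exact_mod_cast hK
  have hB0 : 0 ≤ B := le_trans (by positivity) hB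
  intro p
  induction p with
  | zero =>
    intro P U0 _ _
    simp only [pow_zero, one_mul]
    rw [cnt_eq_sum]
  | succ p ih =>
    intro P U0 hU0 hP
    have h1 : ∀ ω : V → Fin K, (if P ω then ((Ψ.filter (fun ψ => Mono ψ ω)).card : ℝ) ^ (p + 1)
        else 0) = ∑ ψ ∈ Ψ, (if P ω ∧ Mono ψ ω then
          ((Ψ.filter (fun ψ => Mono ψ ω)).card : ℝ) ^ p else 0) := by
      intro ω
      by_cases hω : P ω
      · have hc : ((Ψ.filter (fun ψ => Mono ψ ω)).card : ℝ) =
            ∑ ψ ∈ Ψ, (if Mono ψ ω then (1 : ℝ) else 0) := by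
          rw [Finset.card_filter]; push_cast; rfl
        rw [if_pos hω, pow_succ]
        generalize hX : ((Ψ.filter (fun ψ => Mono ψ ω)).card : ℝ) ^ p = X
        rw [hc, Finset.mul_sum]
        refine Finset.sum_congr rfl (fun ψ _ => ?_)
        by_cases hm : Mono ψ ω
        · rw [if_pos (And.intro hω hm), if_pos hm, mul_one]
        · rw [if_neg hm, if_neg (fun h : P ω ∧ Mono ψ ω => hm h.2), mul_zero]
      · rw [if_neg hω]
        refine (Finset.sum_eq_zero (fun ψ _ => ?_)).symm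
        rw [if_neg (fun h => hω h.1)]
    rw [Finset.sum_congr rfl (fun ω _ => h1 ω), Finset.sum_comm]
    have h2 : ∀ ψ ∈ Ψ, ∑ ω : V → Fin K, (if P ω ∧ Mono ψ ω then
          ((Ψ.filter (fun ψ => Mono ψ ω)).card : ℝ) ^ p else 0) ≤
        B ^ p * (cnt (fun ω : V → Fin K => P ω ∧ Mono ψ ω) : ℝ) := by
      intro ψ hψ
      have h3 := ih (fun ω => P ω ∧ Mono ψ ω) (U0 ∪ univ.image ψ) (by
        have a1 := Finset.card_union_le U0 (univ.image ψ)
        have a2 : (univ.image ψ).card ≤ k + 1 := by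
          rw [← hU]; exact Finset.card_image_le
        have a3 : (p + 1) * (k + 1) = p * (k + 1) + (k + 1) := by ring
        omega) (by
        intro w hw ω c
        rw [Finset.mem_union, not_or] at hw
        have a1 : Mono ψ (Function.update ω w c) ↔ Mono ψ ω := by
          unfold Mono
          refine forall₂_congr (fun a b => ?_)
          have b1 : ψ a ≠ w := by
            rintro rfl; exact hw.2 (Finset.mem_image_of_mem _ (Finset.mem_univ _))
          have b2 : ψ b ≠ w := by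
            rintro rfl; exact hw.2 (Finset.mem_image_of_mem _ (Finset.mem_univ _))
          rw [Function.update_of_ne b1, Function.update_of_ne b2]
        rw [a1, hP w hw.1])
      refine le_trans (le_of_eq ?_) h3
      refine Finset.sum_congr rfl (fun ω _ => ?_)
      by_cases hm : P ω ∧ Mono ψ ω
      · rw [if_pos hm, if_pos hm]
      · rw [if_neg hm, if_neg hm]
    refine (Finset.sum_le_sum h2).trans ?_
    rw [← Finset.mul_sum, pow_succ, mul_assoc]
    refine mul_le_mul_of_nonneg_left ?_ (by positivity)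
    refine (mono_sum hK hKD H hH hU G hD Ψ hΨ P U0 hP).trans ?_
    refine mul_le_mul_of_nonneg_right (le_trans ?_ hB) (by positivity)
    have hu : (U0.card : ℝ) ≤ u := by exact_mod_cast (by omega : U0.card ≤ u)
    have : ((U0.card : ℝ) + 1) ^ (k + 1) ≤ ((u : ℝ) + 1) ^ (k + 1) :=
      pow_le_pow_left₀ (by positivity) (by linarith) _
    have h5 : 0 ≤ ((D : ℝ) / K) ^ k := by positivity
    have h6 : 2 ^ (k + 1) * ((U0.card : ℝ) + 1) ^ (k + 1) * ((D : ℝ) / K) ^ k ≤
        2 ^ (k + 1) * ((u : ℝ) + 1) ^ (k + 1) * ((D : ℝ) / K) ^ k := by gcongr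
    linarith

/-- Markov -/
theorem tail_mono {K D k : ℕ} (hK : 1 ≤ K) (hKD : K ≤ D) (H : SimpleGraph U) (hH : H.Connected)
    (hU : Fintype.card U = k + 1) (G : SimpleGraph V)
    (hD : ∀ v, ∀ N : Finset V, (∀ w ∈ N, G.Adj v w) → N.card ≤ D)
    (Ψ : Finset (U → V)) (hΨ : ∀ ψ ∈ Ψ, Function.Injective ψ ∧ IsHom H G ψ) (B : ℝ) (p : ℕ)
    (hB : (Ψ.card : ℝ) / (K : ℝ) ^ k + 2 ^ (k + 1) * (((p * (k + 1) : ℕ) : ℝ) + 1) ^ (k + 1) *
        ((D : ℝ) / K) ^ k ≤ B) (m0 : ℕ) (hm0 : 1 ≤ m0) :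
    (cnt (fun ω : V → Fin K => m0 ≤ (Ψ.filter (fun ψ => Mono ψ ω)).card) : ℝ) ≤
      (B / m0) ^ p * Fintype.card (V → Fin K) := by
  have h1 := moment hK hKD H hH hU G hD Ψ hΨ B (p * (k + 1)) hB p (fun _ => True) ∅ (by simp)
    (by simp)
  simp only [if_true] at h1
  have h2 : cnt (fun _ : V → Fin K => True) = Fintype.card (V → Fin K) := by
    have h0 : ev (fun _ : V → Fin K => True) = Finset.univ := by
      ext ω
      rw [mem_ev]
      simp
    rw [cnt, h0, Finset.card_univ]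
  rw [h2] at h1
  have hm : (0 : ℝ) < m0 := by exact_mod_cast hm0
  rw [div_pow, div_mul_eq_mul_div, le_div_iff₀ (by positivity)]
  refine le_trans ?_ h1
  rw [cnt_eq_sum, Finset.sum_mul]
  refine Finset.sum_le_sum (fun ω _ => ?_)
  by_cases h : m0 ≤ (Ψ.filter (fun ψ => Mono ψ ω)).card
  · rw [if_pos h, one_mul]
    exact pow_le_pow_left₀ hm.le (by exact_mod_cast h) p
  · rw [if_neg h, zero_mul]
    positivity

end Pool.Agent.TH855
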