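import Mathlib
import Pool.Agent.TH855.Moment

set_option autoImplicit false

/-!
# Random types with few monochromatic configurations (local lemma)
-/

namespace Pool.Agent.TH855

open Finset Classical Pool.Agent.Helper635.LLL Pool.Agent.Helper311.Glue

set_option linter.unusedSectionVars false

variable {U V : Type} [Fintype U] [Fintype V]

theorem near_mono {G : SimpleGraph V} {k l : ℕ} (hkl : k ≤ l) {u w : V} (h : Near G k u w) :
    Near G l u w := by
  obtain ⟨p, hp⟩ := h
  exact ⟨p, hp.trans hkl⟩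

theorem near_adj {G : SimpleGraph V} {u w : V} (h : G.Adj u w) : Near G 1 u w :=
  ⟨SimpleGraph.Walk.cons h SimpleGraph.Walk.nil, by simp⟩

/-- the configurations that touch the neighbourhood of `v` with a vertex other than `ψ x` -/
noncomputable def Tch (G : SimpleGraph V) (x : U) (Ψ : Finset (U → V)) (v : V) :
    Finset (U → V) := Ψ.filter (fun ψ => ∃ z, z ≠ x ∧ G.Adj v (ψ z))

theorem mem_tch {G : SimpleGraph V} {x : U} {Ψ : Finset (U → V)} {v : V} {ψ : U → V} :
    ψ ∈ Tch G x Ψ v ↔ ψ ∈ Ψ ∧ ∃ z, z ≠ x ∧ G.Adj v (ψ z) := by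
  rw [Tch, Finset.mem_filter]

theorem mono_types (G : SimpleGraph V) [DecidableRel G.Adj] {K D k : ℕ} (p h m0 : ℕ) (hK : 1 ≤ K)
    (hKD : K ≤ D) (hD : ∀ v, G.degree v ≤ D) (H : SimpleGraph U) (hH : H.Connected)
    (hU : Fintype.card U = k + 1) (x : U) (Ψ : Finset (U → V))
    (hΨ : ∀ ψ ∈ Ψ, Function.Injective ψ ∧ IsHom H G ψ)
    (hloc : ∀ ψ ∈ Ψ, ∀ a b, Near G h (ψ a) (ψ b)) (B : ℝ) (hB0 : 0 ≤ B)
    (hB : ∀ v, ((Tch G x Ψ v).card : ℝ) / (K : ℝ) ^ k +
      2 ^ (k + 1) * (((p * (k + 1) : ℕ) : ℝ) + 1) ^ (k + 1) * ((D : ℝ) / K) ^ k ≤ B)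
    (hm0 : 1 ≤ m0) (y : ℝ) (hy : 0 ≤ y) (hy1 : y ≤ 1)
    (h4 : 4 * (K * Real.exp (-(y ^ 2 * D / (3 * K))) + (B / m0) ^ p) *
      ((D + 1) ^ (2 * (h + 1)) : ℕ) ≤ 1) :
    ∃ t : V → ℕ, (∀ v, t v < K) ∧
      (∀ v j, ((G.neighborFinset v).filter (fun u => t u = j)).card ≤ ⌊(1 + y) * D / K⌋₊) ∧
      ∀ v, ((Tch G x Ψ v).filter (fun ψ => ∀ a b, t (ψ a) = t (ψ b))).card < m0 := by
  have : Nonempty (Fin K) := ⟨⟨0, hK⟩⟩
  have hcardpos : 0 < Fintype.card (V → Fin K) := Fintype.card_pos
  have hKpos : (0 : ℝ) < K := by exact_mod_cast hK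
  have hmpos : (0 : ℝ) < m0 := by exact_mod_cast hm0
  set w := ⌊(1 + y) * D / K⌋₊ with hw
  have hm : (1 + y) * D / K ≤ ((w + 1 : ℕ) : ℝ) := by
    push_cast; exact (Nat.lt_floor_add_one _).le
  have hD' : ∀ v, ∀ N : Finset V, (∀ w ∈ N, G.Adj v w) → N.card ≤ D := by
    intro v N hN
    have h1 : N ⊆ G.neighborFinset v := by
      intro w hw
      rw [SimpleGraph.mem_neighborFinset]
      exact hN w hw
    refine (Finset.card_le_card h1).trans ?_
    rw [SimpleGraph.card_neighborFinset_eq_degree]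
    exact hD v
  set B1 : V → (V → Fin K) → Prop := fun v ω => ∃ j : Fin K, w + 1 ≤ ((G.neighborFinset v).filter
      (fun u => ω u = j)).card with hB1
  set B2 : V → (V → Fin K) → Prop := fun v ω => m0 ≤
      ((Tch G x Ψ v).filter (fun ψ => Mono ψ ω)).card with hB2
  set Sv : V → Finset V := fun v => univ.filter (fun w => Near G (h + 1) v w) with hSv
  obtain ⟨ω, hω⟩ := lll (ι := V) univ (fun v (ω : V → Fin K) => B1 v ω ∨ B2 v ω) Sv
    (by
      intro v _ ω ω' hag hbad
      have hag1 : ∀ u ∈ G.neighborFinset v, ω u = ω' u := fun u hu =>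
        hag u (by
          rw [hSv, Finset.mem_filter]
          rw [SimpleGraph.mem_neighborFinset] at hu
          exact ⟨Finset.mem_univ _, near_mono (by omega) (near_adj hu)⟩)
      have hag2 : ∀ ψ ∈ Tch G x Ψ v, ∀ a, ω (ψ a) = ω' (ψ a) := by
        intro ψ hψ a
        obtain ⟨hψ1, z, -, hz⟩ := mem_tch.1 hψ
        refine hag _ ?_
        rw [hSv, Finset.mem_filter]
        refine ⟨Finset.mem_univ _, ?_⟩
        have := (near_adj hz).trans (hloc ψ hψ1 z a)
        rwa [add_comm] at this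
      rcases hbad with ⟨j, hj⟩ | hl
      · left
        refine ⟨j, le_trans hj (Finset.card_le_card ?_)⟩
        intro u hu
        rw [mem_filter] at hu ⊢
        exact ⟨hu.1, by rw [← hag1 u hu.1]; exact hu.2⟩
      · right
        refine le_trans hl (Finset.card_le_card ?_)
        intro ψ hψ
        rw [mem_filter] at hψ ⊢
        refine ⟨hψ.1, ?_⟩
        intro a b
        rw [← hag2 ψ hψ.1 a, ← hag2 ψ hψ.1 b]
        exact hψ.2 a b)
    (K * Real.exp (-(y ^ 2 * D / (3 * K))) + (B / m0) ^ p)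
    ((D + 1) ^ (2 * (h + 1))) (by positivity)
    (by
      intro v _
      have hsub : ev (fun ω : V → Fin K => B1 v ω ∨ B2 v ω) ⊆
          ((Finset.univ : Finset (Fin K)).biUnion
            (fun j => ev (fun ω : V → Fin K => w + 1 ≤ ((G.neighborFinset v).filter
              (fun u => ω u = j)).card))) ∪
          ev (fun ω : V → Fin K => m0 ≤ ((Tch G x Ψ v).filter (fun ψ => Mono ψ ω)).card) := by
        intro ω hω
        rw [mem_ev] at hω
        rw [Finset.mem_union, Finset.mem_biUnion]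
        rcases hω with ⟨j, hj⟩ | hl
        · left; exact ⟨j, Finset.mem_univ _, mem_ev.mpr hj⟩
        · right; exact mem_ev.mpr hl
      have h1 := (Finset.card_le_card hsub).trans ((Finset.card_union_le _ _).trans
        (Nat.add_le_add Finset.card_biUnion_le (le_refl _)))
      have h2 : (cnt (fun ω : V → Fin K => B1 v ω ∨ B2 v ω) : ℝ) ≤ (∑ j : Fin K,
          (cnt (fun ω : V → Fin K => w + 1 ≤ ((G.neighborFinset v).filter
              (fun u => ω u = j)).card) : ℝ)) +
          (cnt (fun ω : V → Fin K => m0 ≤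
              ((Tch G x Ψ v).filter (fun ψ => Mono ψ ω)).card) : ℝ) := by
        exact_mod_cast h1
      refine h2.trans ?_
      rw [add_mul]
      refine add_le_add ?_ ?_
      · refine (Finset.sum_le_sum (fun j _ => Pool.Agent.H238R2.HY.tail K D hK
          (G.neighborFinset v) (by
          rw [SimpleGraph.card_neighborFinset_eq_degree]; exact hD v) j y hy hy1 (w + 1) hm)).trans ?_
        rw [Finset.sum_const, Finset.card_univ, Fintype.card_fin, nsmul_eq_mul]
        exact le_of_eq (by ring)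
      · exact tail_mono hK hKD H hH hU G hD' (Tch G x Ψ v)
          (fun ψ hψ => hΨ ψ (mem_tch.1 hψ).1) B p (hB v) m0 hm0)
    (by
      intro v _
      refine le_trans (Finset.card_le_card ?_) (near_card G D hD (2 * (h + 1)) v)
      intro j hj
      rw [mem_filter, Finset.not_disjoint_iff] at hj
      obtain ⟨z, hz1, hz2⟩ := hj.2
      rw [hSv, mem_filter] at hz1 hz2
      rw [mem_filter]
      refine ⟨Finset.mem_univ _, ?_⟩
      have a1 := hz1.2.trans hz2.2.symm
      rwa [← two_mul] at a1)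
    (by exact_mod_cast h4) (Nat.one_le_pow _ _ (by omega)) hcardpos
  refine ⟨fun v => (ω v : ℕ), fun v => (ω v).2, ?_, ?_⟩
  · intro v j
    by_cases hj : j < K
    · have h1 := hω v (mem_univ v)
      rw [not_or] at h1
      have h2 := h1.1
      rw [hB1] at h2
      push Not at h2
      have h3 := h2 ⟨j, hj⟩
      have h5 : (G.neighborFinset v).filter (fun u => (ω u : ℕ) = j) =
          (G.neighborFinset v).filter (fun u => ω u = ⟨j, hj⟩) := by
        apply Finset.filter_congr
        intro u _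
        rw [Fin.ext_iff]
      rw [h5]
      omega
    · have h3 : (G.neighborFinset v).filter (fun u => (ω u : ℕ) = j) = ∅ := by
        apply Finset.filter_eq_empty_iff.2
        intro u _ h
        exact hj (by rw [← h]; exact (ω u).2)
      rw [h3]; simp
  · intro v
    have h1 := hω v (mem_univ v)
    rw [not_or] at h1
    have h2 := h1.2
    rw [hB2] at h2
    push Not at h2
    refine lt_of_le_of_lt (Finset.card_le_card ?_) h2
    intro ψ hψ
    rw [mem_filter] at hψ ⊢
    exact ⟨hψ.1, fun a b => Fin.ext (hψ.2 a b)⟩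

end Pool.Agent.TH855
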