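import Mathlib
import Pool.Agent.TH855.Engine
import Pool.Agent.TH855.AB

set_option autoImplicit false

/-!
# Blowing up a vertex
-/

namespace Pool.Agent.TH855

open Finset Filter Classical Pool.Agent.Helper311.Glue

set_option linter.unusedSectionVars false

theorem colorable_of_colOn {V : Type} {G : SimpleGraph V} {n : ℕ} (h : ColOn G Set.univ n) :
    G.Colorable n := by
  obtain ⟨f, hf1, hf2⟩ := h
  refine ⟨SimpleGraph.Coloring.mk (fun v => (⟨f v, hf1 v (Set.mem_univ _)⟩ : Fin n)) ?_⟩
  intro u v huv h
  exact hf2 u (Set.mem_univ _) v (Set.mem_univ _) huv (congrArg Fin.val h)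

theorem UpTo.mono {W W' : Type} {F : SimpleGraph W} {F' : SimpleGraph W'} (h : F.IsContained F')
    {c : ℝ} (hF' : UpTo F' c) : UpTo F c := by
  intro ε hε
  obtain ⟨Δ₀, hΔ₀⟩ := hF' ε hε
  refine ⟨Δ₀, ?_⟩
  intro Δ hΔ V _ G _ hfree hmax
  exact hΔ₀ Δ hΔ V G (fun hc => hfree (h.trans hc)) hmax

theorem UpTo.le {W : Type} {F : SimpleGraph W} {c c' : ℝ} (hc : c ≤ c') (h : UpTo F c) :
    UpTo F c' := by
  intro ε hε
  obtain ⟨Δ₀, hΔ₀⟩ := h ε hε
  refine ⟨Δ₀, ?_⟩
  intro Δ hΔ V _ G _ hfree hmax
  obtain ⟨n, hn, hn2⟩ := hΔ₀ Δ hΔ V G hfree hmax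
  refine ⟨n, hn, hn2.trans ?_⟩
  exact mul_le_mul_of_nonneg_right (by linarith)
    (div_nonneg (by positivity) (Real.log_natCast_nonneg _))

/-- the graph obtained from `H` by adding `t` twins of the vertex `x` (the vertex `x` and its twins
are pairwise nonadjacent and have the same neighbours) -/
def blow {U : Type} (H : SimpleGraph U) (x : U) (t : ℕ) : SimpleGraph (U ⊕ Fin t) :=
  H.comap (Sum.elim id (fun _ => x))

theorem upTo_blow {U : Type} [Fintype U] (H : SimpleGraph U) (hH : H.Connected) (k : ℕ)
    (hk : 1 ≤ k) (hU : Fintype.card U = k + 1) (x : U) (hrim : (H.induce {z | z ≠ x}).Connected)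
    (t : ℕ) {c : ℝ} (hc : 0 ≤ c) (h : UpTo H c) : UpTo (blow H x t) (k * c) := by
  intro ε hε
  obtain ⟨D₀, hD₀⟩ := engine H hc (UpTo.gb hc h) H hH k hk hU x t hrim ε hε
  refine ⟨D₀, ?_⟩
  intro Δ hΔ V _ G _ hfree hmax
  suffices hmain : ∃ n : ℕ, (n : ℝ) ≤ (k * c + ε) * ((Δ : ℝ) / Real.log Δ) ∧
      ColOn G Set.univ n by
    obtain ⟨n, hn, hcol⟩ := hmain
    exact ⟨n, colorable_of_colOn hcol, hn⟩
  refine hD₀ Δ hΔ V G (fun v => by
      rw [← hmax]; exact G.degree_le_maxDegree v)
    (univ.filter (fun ψ => Function.Injective ψ ∧ IsHom H G ψ))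
    (fun ψ hψ => (Finset.mem_filter.1 hψ).2) ?_ ?_
  · intro ψ hψ Y hY
    by_contra hcon
    push Not at hcon
    apply hfree
    have hY' : ∀ y ∈ Y, Function.Injective (Function.update ψ x y) ∧
        IsHom H G (Function.update ψ x y) := fun y hy => (Finset.mem_filter.1 (hY y hy)).2
    have hcard : Fintype.card (Option (Fin t)) ≤ Fintype.card Y := by
      rw [Fintype.card_option, Fintype.card_fin, Fintype.card_coe]; omega
    obtain ⟨g⟩ := Function.Embedding.nonempty_of_card_le hcard
    set f : U ⊕ Fin t → V := Sum.elim (fun u => if u = x then (g none : V) else ψ u)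
      (fun i => (g (some i) : V)) with hf
    have hinj1 : ∀ (y : Y) (u : U), u ≠ x → ψ u ≠ y := by
      intro y u hu h1
      apply hu
      apply (hY' y y.2).1
      rw [Function.update_of_ne hu, Function.update_self]
      exact h1
    have hgval : ∀ o o', (g o : V) = g o' → o = o' := fun o o' h => g.injective (Subtype.ext h)
    have hadj1 : ∀ (y : Y) (u : U), H.Adj u x → G.Adj (ψ u) y := by
      intro y u hu
      have h1 := (hY' y y.2).2 u x hu
      rwa [Function.update_of_ne hu.ne, Function.update_self] at h1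
    have hψ' := (Finset.mem_filter.1 hψ).2
    refine ⟨⟨⟨f, ?_⟩, ?_⟩⟩
    · rintro (a | i) (b | j) hab
      · have hab' : H.Adj a b := hab
        simp only [hf, Sum.elim_inl]
        by_cases ha : a = x
        · have hb : b ≠ x := by rw [← ha]; exact hab'.ne'
          rw [if_pos ha, if_neg hb]
          exact (hadj1 _ b (by rw [← ha]; exact hab'.symm)).symm
        · by_cases hb : b = x
          · rw [if_neg ha, if_pos hb]
            exact hadj1 _ a (by rw [← hb]; exact hab')
          · rw [if_neg ha, if_neg hb]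
            exact hψ'.2 a b hab'
      · have hab' : H.Adj a x := hab
        simp only [hf, Sum.elim_inl, Sum.elim_inr]
        rw [if_neg hab'.ne]
        exact hadj1 _ a hab'
      · have hab' : H.Adj x b := hab
        simp only [hf, Sum.elim_inl, Sum.elim_inr]
        rw [if_neg hab'.ne']
        exact (hadj1 _ b hab'.symm).symm
      · have hab' : H.Adj x x := hab
        exact absurd hab' (H.loopless.irrefl x)
    · rintro (a | i) (b | j) hab
      · replace hab : f (Sum.inl a) = f (Sum.inl b) := hab
        simp only [hf, Sum.elim_inl] at hab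
        by_cases ha : a = x
        · by_cases hb : b = x
          · rw [ha, hb]
          · rw [if_pos ha, if_neg hb] at hab
            exact absurd hab.symm (hinj1 _ b hb)
        · by_cases hb : b = x
          · rw [if_neg ha, if_pos hb] at hab
            exact absurd hab (hinj1 _ a ha)
          · rw [if_neg ha, if_neg hb] at hab
            rw [hψ'.1 hab]
      · replace hab : f (Sum.inl a) = f (Sum.inr j) := hab
        simp only [hf, Sum.elim_inl, Sum.elim_inr] at hab
        by_cases ha : a = x
        · rw [if_pos ha] at hab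
          exact absurd (hgval _ _ hab) (by simp)
        · rw [if_neg ha] at hab
          exact absurd hab (hinj1 _ a ha)
      · replace hab : f (Sum.inr i) = f (Sum.inl b) := hab
        simp only [hf, Sum.elim_inl, Sum.elim_inr] at hab
        by_cases hb : b = x
        · rw [if_pos hb] at hab
          exact absurd (hgval _ _ hab) (by simp)
        · rw [if_neg hb] at hab
          exact absurd hab.symm (hinj1 _ b hb)
      · replace hab : f (Sum.inr i) = f (Sum.inr j) := hab
        simp only [hf, Sum.elim_inr] at hab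
        have := hgval _ _ hab
        rw [Option.some.inj this]
  · intro T hT
    obtain ⟨φ, hφ, hφT⟩ := hT
    exact ⟨φ, Finset.mem_filter.2 ⟨Finset.mem_univ _, hφ.1, hφ.2⟩, by rw [hφT]⟩

end Pool.Agent.TH855
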