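import Mathlib
import Pool.Agent.TH855.Blow

set_option autoImplicit false

/-!
# Blowing up all classes: graphs of chromatic number `r`
-/

namespace Pool.Agent.TH855

open Finset Filter Classical Pool.Agent.Helper311.Glue

set_option linter.unusedSectionVars false

/-- complete multipartite graph with classes given by `g` -/
def mp {W : Type} (r : ℕ) (g : W → Fin r) : SimpleGraph W :=
  (⊤ : SimpleGraph (Fin r)).comap g

theorem mp_adj {W : Type} {r : ℕ} {g : W → Fin r} {a b : W} : (mp r g).Adj a b ↔ g a ≠ g b :=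
  Iff.rfl

/-- a complete multipartite graph with at least two nonempty classes is connected -/
theorem mp_connected {W : Type} {r : ℕ} (g : W → Fin r) (a b : W) (hab : g a ≠ g b) :
    (mp r g).Connected := by
  rw [SimpleGraph.connected_iff_exists_forall_reachable]
  refine ⟨a, fun w => ?_⟩
  by_cases hw : g a = g w
  · have h1 : (mp r g).Adj a b := hab
    have h2 : (mp r g).Adj b w := by
      rw [mp_adj, ← hw]; exact hab.symm
    exact h1.reachable.trans h2.reachable
  · have h1 : (mp r g).Adj a w := hw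
    exact h1.reachable

/-- three-colourable graphs -/
theorem upTo_three {W : Type} [Fintype W] (F : SimpleGraph W) (col : W → Fin 3)
    (hcol : ∀ y z, F.Adj y z → col y ≠ col z)
    (hne : 1 ≤ Fintype.card {w : W // col w ≠ 2}) :
    UpTo F ((Fintype.card {w : W // col w ≠ 2} : ℕ) : ℝ) := by
  have hone : (1 : ℝ) ≤ ((Fintype.card {w : W // col w ≠ 2} : ℕ) : ℝ) := by exact_mod_cast hne
  obtain ⟨⟨x0, hx0⟩⟩ := Fintype.card_pos_iff.1 (show 0 < Fintype.card {w : W // col w ≠ 2} by omega)
  by_cases h0 : ∀ w, col w ≠ 0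
  · refine UpTo.le hone (upTo_ab F x0 ⟨fun w => decide (col w = 2), ?_⟩)
    intro y z hyz _ _ h
    have h1 := hcol y z hyz
    have h2 := h0 y
    have h3 := h0 z
    simp only [decide_eq_decide] at h
    have key : ∀ a b : Fin 3, a ≠ b → a ≠ 0 → b ≠ 0 → ¬ (a = 2 ↔ b = 2) := by decide
    exact key _ _ h1 h2 h3 h
  by_cases h1 : ∀ w, col w ≠ 1
  · refine UpTo.le hone (upTo_ab F x0 ⟨fun w => decide (col w = 2), ?_⟩)
    intro y z hyz _ _ h
    have h1' := hcol y z hyz
    have h2 := h1 y
    have h3 := h1 z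
    simp only [decide_eq_decide] at h
    have key : ∀ a b : Fin 3, a ≠ b → a ≠ 1 → b ≠ 1 → ¬ (a = 2 ↔ b = 2) := by decide
    exact key _ _ h1' h2 h3 h
  push Not at h0 h1
  obtain ⟨a, ha⟩ := h0
  obtain ⟨b, hb⟩ := h1
  set g : Option {w : W // col w ≠ 2} → Fin 3 := fun o => o.elim 2 (fun w => col w.1) with hg
  set k := Fintype.card {w : W // col w ≠ 2} with hk
  have hU : Fintype.card (Option {w : W // col w ≠ 2}) = k + 1 := Fintype.card_option
  have hA : UpTo (mp 3 g) 1 := by
    refine upTo_ab (mp 3 g) none ⟨fun o => decide (g o = 0), ?_⟩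
    intro y z hyz hy hz h
    obtain ⟨y', rfl⟩ := Option.ne_none_iff_exists'.1 hy
    obtain ⟨z', rfl⟩ := Option.ne_none_iff_exists'.1 hz
    have h1 : col y'.1 ≠ col z'.1 := hyz
    simp only [decide_eq_decide] at h
    have h2 : col y'.1 = 0 ↔ col z'.1 = 0 := h
    have key : ∀ a b : Fin 3, a ≠ b → a ≠ 2 → b ≠ 2 → ¬ (a = 0 ↔ b = 0) := by decide
    exact key _ _ h1 y'.2 z'.2 h2
  have ha2 : col a ≠ 2 := by rw [ha]; decide
  have hb2 : col b ≠ 2 := by rw [hb]; decide
  have hconn : (mp 3 g).Connected := by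
    refine mp_connected g (some ⟨a, ha2⟩) (some ⟨b, hb2⟩) ?_
    show col a ≠ col b
    rw [ha, hb]; decide
  have hrim : ((mp 3 g).induce {z | z ≠ none}).Connected := by
    refine mp_connected (fun o : {z : Option {w : W // col w ≠ 2} | z ≠ none} => g o.1)
      ⟨some ⟨a, ha2⟩, by simp⟩ ⟨some ⟨b, hb2⟩, by simp⟩ ?_
    show col a ≠ col b
    rw [ha, hb]; decide
  have hB := upTo_blow (mp 3 g) hconn k hne hU none hrim (Fintype.card W) zero_le_one hA
  rw [mul_one] at hB
  refine UpTo.mono ?_ hB
  -- the embedding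
  have hge : Function.Injective (Fintype.equivFin W) := (Fintype.equivFin W).injective
  set θ : W → Option {w : W // col w ≠ 2} ⊕ Fin (Fintype.card W) := fun w =>
    if h : col w ≠ 2 then Sum.inl (some ⟨w, h⟩) else Sum.inr (Fintype.equivFin W w) with hθ
  have hval : ∀ w, g (Sum.elim id (fun _ => none) (θ w)) = col w := by
    intro w
    by_cases h : col w ≠ 2
    · simp only [hθ, dif_pos h]
      rfl
    · simp only [hθ, dif_neg h]
      push Not at h
      rw [h]
      rfl
  refine ⟨⟨⟨θ, ?_⟩, ?_⟩⟩
  · intro y z hyz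
    have h1 : g (Sum.elim id (fun _ => none) (θ y)) ≠ g (Sum.elim id (fun _ => none) (θ z)) := by
      rw [hval, hval]; exact hcol y z hyz
    exact h1
  · intro y z hyz
    replace hyz : θ y = θ z := hyz
    simp only [hθ] at hyz
    split_ifs at hyz with h1 h2 h2
    · simpa using hyz
    · exact hge (Sum.inr.inj hyz)

/-- vertices of the intermediate graphs -/
def WJ (r t : ℕ) (J : Finset (Fin r)) : Type :=
  {p : Fin r × Option (Fin t) // p.2 ≠ none → p.1 ∈ J}

noncomputable instance (r t : ℕ) (J : Finset (Fin r)) : Fintype (WJ r t J) := by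
  unfold WJ; infer_instance

theorem card_WJ (r t : ℕ) (J : Finset (Fin r)) : Fintype.card (WJ r t J) = r + J.card * t := by
  have h1 : Fintype.card (WJ r t J) = (univ.filter (fun p : Fin r × Option (Fin t) =>
      p.2 ≠ none → p.1 ∈ J)).card := by
    rw [← Fintype.card_subtype]
    rfl
  have h2 : univ.filter (fun p : Fin r × Option (Fin t) => p.2 ≠ none → p.1 ∈ J) =
      (univ ×ˢ {none}) ∪ (J ×ˢ (univ.erase none)) := by
    ext ⟨i, o⟩
    simp only [mem_filter, mem_univ, true_and, mem_union, mem_product, mem_singleton,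
      mem_erase, and_true]
    tauto
  rw [h1, h2, Finset.card_union_of_disjoint]
  · rw [Finset.card_product, Finset.card_product, Finset.card_univ, Fintype.card_fin,
      Finset.card_singleton, Finset.card_erase_of_mem (Finset.mem_univ _), Finset.card_univ,
      Fintype.card_option, Fintype.card_fin]
    simp
  · rw [Finset.disjoint_left]
    rintro ⟨i, o⟩ h3 h4
    simp only [mem_product, mem_univ, mem_singleton, true_and, mem_erase, ne_eq, and_true] at h3 h4
    exact h4.2 h3

/-- blowing up the classes in `J` -/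
theorem upTo_WJ (r t : ℕ) (hr : 3 ≤ r) {c : ℝ} (hc : 0 ≤ c)
    (h : UpTo (⊤ : SimpleGraph (Fin r)) c) (J : Finset (Fin r)) :
    UpTo (mp r (fun p : WJ r t J => p.1.1))
      (c * ∏ i ∈ Finset.range J.card, ((r + i * t - 1 : ℕ) : ℝ)) := by
  induction J using Finset.induction_on with
  | empty =>
    simp only [Finset.card_empty, Finset.range_zero, Finset.prod_empty, mul_one]
    refine UpTo.mono ?_ h
    refine ⟨⟨⟨fun p => p.1.1, ?_⟩, ?_⟩⟩
    · intro a b hab
      exact hab
    · intro a b hab
      have h1 : a.1.1 = b.1.1 := hab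
      have h2 : ∀ p : WJ r t ∅, p.1.2 = none := by
        intro p
        by_contra hcon
        exact absurd (p.2 hcon) (Finset.notMem_empty _)
      exact Subtype.ext (Prod.ext h1 ((h2 a).trans (h2 b).symm))
  | insert j J hj ih =>
    set g : WJ r t J → Fin r := fun p => p.1.1 with hg
    set x : WJ r t J := ⟨(j, none), fun h => absurd rfl h⟩ with hx
    set k := r + J.card * t - 1 with hk
    have hk1 : 1 ≤ k := by omega
    have hU : Fintype.card (WJ r t J) = k + 1 := by rw [card_WJ]; omega
    -- two other classes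
    obtain ⟨i1, hi1⟩ : ∃ i : Fin r, i ≠ j := by
      have : 1 < Fintype.card (Fin r) := by rw [Fintype.card_fin]; omega
      exact Fintype.exists_ne_of_one_lt_card this j
    obtain ⟨i2, hi2⟩ : ∃ i : Fin r, i ∉ ({j, i1} : Finset (Fin r)) := by
      by_contra hcon
      push Not at hcon
      have h1 : (univ : Finset (Fin r)) ⊆ {j, i1} := fun i _ => hcon i
      have h2 := (Finset.card_le_card h1).trans Finset.card_le_two
      rw [Finset.card_univ, Fintype.card_fin] at h2
      omega
    rw [Finset.mem_insert, Finset.mem_singleton, not_or] at hi2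
    set a1 : WJ r t J := ⟨(i1, none), fun h => absurd rfl h⟩ with ha1
    set a2 : WJ r t J := ⟨(i2, none), fun h => absurd rfl h⟩ with ha2
    have hg12 : g a1 ≠ g a2 := Ne.symm hi2.2
    have hconn : (mp r g).Connected := mp_connected g a1 a2 hg12
    have ha1x : a1 ≠ x := by
      intro h1
      have : g a1 = g x := by rw [h1]
      exact hi1 this
    have ha2x : a2 ≠ x := by
      intro h1
      have : g a2 = g x := by rw [h1]
      exact hi2.1 this
    have hrim : ((mp r g).induce {z | z ≠ x}).Connected :=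
      mp_connected (fun o : {z : WJ r t J | z ≠ x} => g o.1) ⟨a1, ha1x⟩ ⟨a2, ha2x⟩ hg12
    have hP : 0 ≤ c * ∏ i ∈ Finset.range J.card, ((r + i * t - 1 : ℕ) : ℝ) := by positivity
    have hB := upTo_blow (mp r g) hconn k hk1 hU x hrim t hP ih
    rw [Finset.card_insert_of_notMem hj, Finset.prod_range_succ]
    have hconst : (k : ℝ) * (c * ∏ i ∈ Finset.range J.card, ((r + i * t - 1 : ℕ) : ℝ)) =
        c * ((∏ i ∈ Finset.range J.card, ((r + i * t - 1 : ℕ) : ℝ)) *
          ((r + J.card * t - 1 : ℕ) : ℝ)) := by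
      rw [hk]; ring
    rw [hconst] at hB
    refine UpTo.mono ?_ hB
    -- embedding
    set θ : WJ r t (insert j J) → WJ r t J ⊕ Fin t := fun p =>
      if h : p.1.2 ≠ none → p.1.1 ∈ J then Sum.inl ⟨p.1, h⟩ else
        Sum.inr (p.1.2.get (by
          rw [Option.isSome_iff_ne_none]
          intro h1
          exact h (fun h2 => absurd h1 h2))) with hθ
    have hval : ∀ p, g (Sum.elim id (fun _ => x) (θ p)) = p.1.1 := by
      intro p
      by_cases h1 : p.1.2 ≠ none → p.1.1 ∈ J
      · simp only [hθ, dif_pos h1]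
        rfl
      · simp only [hθ, dif_neg h1]
        push Not at h1
        have h2 := p.2 h1.1
        rw [Finset.mem_insert] at h2
        exact (h2.resolve_right h1.2).symm
    refine ⟨⟨⟨θ, ?_⟩, ?_⟩⟩
    · intro y z hyz
      have h1 : g (Sum.elim id (fun _ => x) (θ y)) ≠ g (Sum.elim id (fun _ => x) (θ z)) := by
        rw [hval, hval]; exact hyz
      exact h1
    · intro y z hyz
      replace hyz : θ y = θ z := hyz
      have h11 : y.1.1 = z.1.1 := by rw [← hval y, ← hval z, hyz]
      simp only [hθ] at hyz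
      split_ifs at hyz with h1 h2 h2
      · have h3 := congrArg Subtype.val (Sum.inl.inj hyz)
        exact Subtype.ext h3
      · have h3 := Sum.inr.inj hyz
        refine Subtype.ext (Prod.ext h11 ?_)
        exact Option.get_inj.1 h3

/-- graphs with `r ≥ 3` colours -/
theorem upTo_colorable {W : Type} [Fintype W] (F : SimpleGraph W) (r : ℕ) (hr : 3 ≤ r)
    (col : W → Fin r) (hcol : ∀ y z, F.Adj y z → col y ≠ col z) {c : ℝ} (hc : 0 ≤ c)
    (h : UpTo (⊤ : SimpleGraph (Fin r)) c) :
    UpTo F (c * ∏ i ∈ Finset.range r, ((r + i * Fintype.card W - 1 : ℕ) : ℝ)) := by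
  have h1 := upTo_WJ r (Fintype.card W) hr hc h univ
  rw [Finset.card_univ, Fintype.card_fin] at h1
  refine UpTo.mono ?_ h1
  refine ⟨⟨⟨fun w => ⟨(col w, some (Fintype.equivFin W w)), fun _ => Finset.mem_univ _⟩, ?_⟩, ?_⟩⟩
  · intro y z hyz
    exact hcol y z hyz
  · intro y z hyz
    have h2 := congrArg (fun p : WJ r (Fintype.card W) univ => p.1.2) hyz
    exact (Fintype.equivFin W).injective (Option.some.inj h2)

end Pool.Agent.TH855
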