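import Mathlib
import Pool.Agent.TH855.Moment2

set_option autoImplicit false

/-!
# Counting configurations with a connected rim
-/

namespace Pool.Agent.TH855

open Finset Classical Pool.Agent.Helper635.LLL Pool.Agent.Helper311.Glue

set_option linter.unusedSectionVars false

variable {U V : Type} [Fintype U] [Fintype V]

/-- restriction to the rim -/
def rr (x : U) (ψ : U → V) : {z | z ≠ x} → V := fun z => ψ z

theorem rr_eq {x : U} {ψ ψ0 : U → V} (h : rr x ψ = rr x ψ0) :
    ψ = Function.update ψ0 x (ψ x) := by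
  funext a
  by_cases ha : a = x
  · rw [ha, Function.update_self]
  · rw [Function.update_of_ne ha]
    exact congrFun h ⟨a, ha⟩

theorem fibre_card (x : U) (S : Finset (U → V)) (e : ℕ)
    (h : ∀ ψ ∈ S, ∀ Y : Finset V, (∀ y ∈ Y, Function.update ψ x y ∈ S) → Y.card ≤ e) :
    S.card ≤ e * (S.image (rr x)).card := by
  refine Finset.card_le_mul_card_image S e ?_
  intro g hg
  rw [Finset.mem_image] at hg
  obtain ⟨ψ0, hψ0, rfl⟩ := hg
  have h1 : (S.filter (fun ψ => rr x ψ = rr x ψ0)).card =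
      ((S.filter (fun ψ => rr x ψ = rr x ψ0)).image (fun ψ => ψ x)).card := by
    rw [Finset.card_image_of_injOn]
    intro ψ hψ ψ' hψ' h
    rw [Finset.mem_coe, Finset.mem_filter] at hψ hψ'
    simp only at h
    rw [rr_eq hψ.2, rr_eq hψ'.2, h]
  rw [h1]
  refine h ψ0 hψ0 _ ?_
  intro y hy
  rw [Finset.mem_image] at hy
  obtain ⟨ψ, hψ, rfl⟩ := hy
  rw [Finset.mem_filter] at hψ
  rw [← rr_eq hψ.2]
  exact hψ.1

theorem card_rim {m : ℕ} (hU : Fintype.card U = m + 1) (x : U) :
    Fintype.card {z | z ≠ x} = m := by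
  have : Fintype.card {z | z ≠ x} = Fintype.card {z // z ≠ x} := rfl
  rw [this, Fintype.card_subtype_compl, hU]
  simp

/-- rims with prescribed images -/
theorem image_in (G : SimpleGraph V) {D m : ℕ}
    (hD : ∀ v, ∀ N : Finset V, (∀ w ∈ N, G.Adj v w) → N.card ≤ D) (H : SimpleGraph U)
    (hU : Fintype.card U = m + 1) (x : U) (hrim : (H.induce {z | z ≠ x}).Connected)
    (S : Finset (U → V)) (hS : ∀ ψ ∈ S, IsHom H G ψ) (J : Finset U) (hJ : J.Nonempty)
    (hxJ : x ∉ J) (A : Finset V) (hA : ∀ ψ ∈ S, ∀ z ∈ J, ψ z ∈ A) :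
    (S.image (rr x)).card ≤ D ^ (m - J.card) * A.card ^ J.card := by
  set J' : Finset {z | z ≠ x} := J.subtype (fun z => z ≠ x) with hJ'
  have hJc : J'.card = J.card := by
    rw [hJ', Finset.card_subtype]
    congr 1
    rw [Finset.filter_eq_self]
    intro z hz hzx
    exact hxJ (by rw [← hzx]; exact hz)
  have hJne : J'.Nonempty := by
    rw [← Finset.card_pos, hJc]; exact hJ.card_pos
  have h1 := count_in' (H.induce {z | z ≠ x}) hrim G D hD J' hJne A (S.image (rr x)) (by
    intro φ hφ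
    rw [Finset.mem_image] at hφ
    obtain ⟨ψ, hψ, rfl⟩ := hφ
    refine ⟨?_, ?_⟩
    · intro a b hab
      exact hS ψ hψ a b (by simpa using hab)
    · intro z hz
      rw [hJ', Finset.mem_subtype] at hz
      exact hA ψ hψ z hz)
  rwa [card_rim hU x, hJc] at h1

/-- rims touching a neighbourhood -/
theorem image_touch (G : SimpleGraph V) {D m : ℕ}
    (hD : ∀ v, ∀ N : Finset V, (∀ w ∈ N, G.Adj v w) → N.card ≤ D) (H : SimpleGraph U)
    (hU : Fintype.card U = m + 1) (x : U) (hrim : (H.induce {z | z ≠ x}).Connected)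
    (Ψ : Finset (U → V)) (hΨ : ∀ ψ ∈ Ψ, IsHom H G ψ) (v : V) (S : Finset (U → V))
    (hS : S ⊆ Tch G x Ψ v) : (S.image (rr x)).card ≤ m * D ^ m := by
  have hsub : S.image (rr x) ⊆ (univ.erase x).biUnion (fun z =>
      (Ψ.filter (fun ψ => G.Adj v (ψ z))).image (rr x)) := by
    intro φ hφ
    rw [Finset.mem_image] at hφ
    obtain ⟨ψ, hψ, rfl⟩ := hφ
    obtain ⟨h1, z, hz, hz2⟩ := mem_tch.1 (hS hψ)
    rw [Finset.mem_biUnion]
    exact ⟨z, Finset.mem_erase.2 ⟨hz, Finset.mem_univ _⟩,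
      Finset.mem_image_of_mem _ (Finset.mem_filter.2 ⟨h1, hz2⟩)⟩
  refine (Finset.card_le_card hsub).trans ?_
  refine (Finset.card_biUnion_le_card_mul _ _ (D ^ m) ?_).trans ?_
  · intro z hz
    have hzx : z ≠ x := (Finset.mem_erase.1 hz).1
    have hm : 1 ≤ m := by
      have h2 : 1 < Fintype.card U := Fintype.one_lt_card_iff.2 ⟨z, x, hzx⟩
      omega
    set N : Finset V := univ.filter (fun w => G.Adj v w) with hN
    have hNc : N.card ≤ D := hD v N (fun w hw => by
      rw [hN, Finset.mem_filter] at hw; exact hw.2)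
    refine (image_in G hD H hU x hrim _ (fun ψ hψ => hΨ ψ (Finset.mem_filter.1 hψ).1) {z}
      (Finset.singleton_nonempty _) (by rw [Finset.mem_singleton]; exact hzx.symm) N ?_).trans ?_
    · intro ψ hψ a ha
      rw [Finset.mem_singleton] at ha
      subst ha
      rw [Finset.mem_filter] at hψ
      rw [hN, Finset.mem_filter]
      exact ⟨Finset.mem_univ _, hψ.2⟩
    · rw [Finset.card_singleton, pow_one]
      calc D ^ (m - 1) * N.card ≤ D ^ (m - 1) * D := Nat.mul_le_mul_left _ hNc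
        _ = D ^ m := by rw [← pow_succ, Nat.sub_add_cancel hm]
  · rw [Finset.card_erase_of_mem (Finset.mem_univ _), Finset.card_univ, hU, Nat.add_sub_cancel]

/-- the counting hypotheses of the moment lemma -/
theorem counts (G : SimpleGraph V) {D m s : ℕ} (hD1 : 1 ≤ D)
    (hD : ∀ v, ∀ N : Finset V, (∀ w ∈ N, G.Adj v w) → N.card ≤ D) (H : SimpleGraph U)
    (hU : Fintype.card U = m + 1) (x : U) (hrim : (H.induce {z | z ≠ x}).Connected)
    (Ψ : Finset (U → V)) (hΨ : ∀ ψ ∈ Ψ, IsHom H G ψ)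
    (hs : ∀ ψ ∈ Ψ, ∀ Y : Finset V, (∀ y ∈ Y, Function.update ψ x y ∈ Ψ) → Y.card ≤ s) (v : V) :
    ((Tch G x Ψ v).card : ℝ) ≤ (((s + 1) * (m + 1) : ℕ) : ℝ) * (D : ℝ) ^ m ∧
    ∀ (J : Finset U) (A : Finset V) (S : Finset (U → V)), J.Nonempty → S ⊆ Tch G x Ψ v →
      (∀ ψ ∈ S, ∀ z ∈ J, ψ z ∈ A) →
        (S.card : ℝ) ≤ (((s + 1) * (m + 1) : ℕ) : ℝ) * ((A.card : ℝ) + 1) ^ (m + 1) *
          (D : ℝ) ^ (m + 1 - J.card) := by
  have hTΨ : Tch G x Ψ v ⊆ Ψ := fun ψ hψ => (mem_tch.1 hψ).1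
  have hfs : ∀ S : Finset (U → V), S ⊆ Tch G x Ψ v → S.card ≤ s * (S.image (rr x)).card := by
    intro S hS
    refine fibre_card x S s (fun ψ hψ Y hY => ?_)
    exact hs ψ (hTΨ (hS hψ)) Y (fun y hy => hTΨ (hS (hY y hy)))
  refine ⟨?_, ?_⟩
  · have h1 := (hfs _ (Finset.Subset.refl _)).trans (Nat.mul_le_mul_left s
      (image_touch G hD H hU x hrim Ψ hΨ v _ (Finset.Subset.refl _)))
    have h2 : s * (m * D ^ m) ≤ (s + 1) * (m + 1) * D ^ m := by
      have : s * (m * D ^ m) = s * m * D ^ m := by ring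
      rw [this]
      refine Nat.mul_le_mul_right _ ?_
      exact Nat.mul_le_mul (by omega) (by omega)
    exact_mod_cast h1.trans h2
  · intro J A S hJ hS hA
    have hJc : J.card ≤ m + 1 := by rw [← hU]; exact Finset.card_le_univ _
    have hkey : S.card ≤ (s + 1) * (m + 1) * ((A.card + 1) ^ (m + 1)) * D ^ (m + 1 - J.card) := by
      by_cases hx : x ∈ J
      · -- the free vertex is prescribed
        have hfa : S.card ≤ A.card * (S.image (rr x)).card := by
          refine fibre_card x S A.card (fun ψ hψ Y hY => Finset.card_le_card ?_)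
          intro y hy
          have := hA _ (hY y hy) x hx
          rwa [Function.update_self] at this
        by_cases hJ' : (J.erase x).Nonempty
        · have h1 := image_in G hD H hU x hrim S (fun ψ hψ => hΨ ψ (hTΨ (hS hψ))) (J.erase x) hJ'
            (Finset.notMem_erase _ _) A (fun ψ hψ z hz => hA ψ hψ z (Finset.mem_of_mem_erase hz))
          rw [Finset.card_erase_of_mem hx] at h1
          have hJpos := hJ.card_pos
          have h2 : m - (J.card - 1) = m + 1 - J.card := by omega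
          rw [h2] at h1
          calc S.card ≤ A.card * (S.image (rr x)).card := hfa
            _ ≤ A.card * (D ^ (m + 1 - J.card) * A.card ^ (J.card - 1)) :=
                Nat.mul_le_mul_left _ h1
            _ = A.card ^ J.card * D ^ (m + 1 - J.card) := by
                obtain ⟨j, hj⟩ : ∃ j, J.card = j + 1 := ⟨J.card - 1, by omega⟩
                rw [hj, Nat.add_sub_cancel, pow_succ]; ring
            _ ≤ (A.card + 1) ^ (m + 1) * D ^ (m + 1 - J.card) := by
                refine Nat.mul_le_mul_right _ ?_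
                calc A.card ^ J.card ≤ (A.card + 1) ^ J.card := Nat.pow_le_pow_left (by omega) _
                  _ ≤ (A.card + 1) ^ (m + 1) := Nat.pow_le_pow_right (by omega) hJc
            _ ≤ (s + 1) * (m + 1) * ((A.card + 1) ^ (m + 1)) * D ^ (m + 1 - J.card) := by
                refine Nat.mul_le_mul_right _ ?_
                exact Nat.le_mul_of_pos_left _ (by positivity)
        · rw [Finset.not_nonempty_iff_eq_empty] at hJ'
          have hJ1 : J.card = 1 := by
            have := Finset.card_erase_of_mem hx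
            rw [hJ', Finset.card_empty] at this
            have h0 := hJ.card_pos
            omega
          have h1 := image_touch G hD H hU x hrim Ψ hΨ v S hS
          rw [hJ1, Nat.add_sub_cancel]
          calc S.card ≤ A.card * (S.image (rr x)).card := hfa
            _ ≤ A.card * (m * D ^ m) := Nat.mul_le_mul_left _ h1
            _ = 1 * m * A.card * D ^ m := by ring
            _ ≤ (s + 1) * (m + 1) * ((A.card + 1) ^ (m + 1)) * D ^ m := by
                refine Nat.mul_le_mul_right _ ?_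
                refine Nat.mul_le_mul (Nat.mul_le_mul (by omega) (by omega)) ?_
                calc A.card ≤ (A.card + 1) ^ 1 := by rw [pow_one]; omega
                  _ ≤ (A.card + 1) ^ (m + 1) := Nat.pow_le_pow_right (by omega) (by omega)
      · have h1 := image_in G hD H hU x hrim S (fun ψ hψ => hΨ ψ (hTΨ (hS hψ))) J hJ hx A hA
        calc S.card ≤ s * (S.image (rr x)).card := hfs S hS
          _ ≤ s * (D ^ (m - J.card) * A.card ^ J.card) := Nat.mul_le_mul_left _ h1
          _ = s * 1 * A.card ^ J.card * D ^ (m - J.card) := by ring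
          _ ≤ (s + 1) * (m + 1) * ((A.card + 1) ^ (m + 1)) * D ^ (m + 1 - J.card) := by
              refine Nat.mul_le_mul ?_ (Nat.pow_le_pow_right (by omega) (by omega))
              refine Nat.mul_le_mul (Nat.mul_le_mul (by omega) (by omega)) ?_
              calc A.card ^ J.card ≤ (A.card + 1) ^ J.card := Nat.pow_le_pow_left (by omega) _
                _ ≤ (A.card + 1) ^ (m + 1) := Nat.pow_le_pow_right (by omega) hJc
    exact_mod_cast hkey

/-- random types, several families of configurations -/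
theorem mono_types2 {ι : Type} [Fintype ι] (Uf : ι → Type) [∀ i, Fintype (Uf i)]
    (G : SimpleGraph V) [DecidableRel G.Adj] {K D k : ℕ} (p h m0 : ℕ) (hK : 1 ≤ K)
    (hKD : K ≤ D) (hD : ∀ v, G.degree v ≤ D) (H : ∀ i, SimpleGraph (Uf i)) (m : ι → ℕ)
    (hU : ∀ i, Fintype.card (Uf i) = m i + 1) (hmk : ∀ i, m i ≤ k) (x : ∀ i, Uf i)
    (hrim : ∀ i, ((H i).induce {z | z ≠ x i}).Connected) (Ψ : ∀ i, Finset (Uf i → V))
    (hΨ : ∀ i, ∀ ψ ∈ Ψ i, Function.Injective ψ ∧ IsHom (H i) G ψ)
    (hloc : ∀ i, ∀ ψ ∈ Ψ i, ∀ a b, Near G h (ψ a) (ψ b)) (s : ℕ)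
    (hs : ∀ i, ∀ ψ ∈ Ψ i, ∀ Y : Finset V, (∀ y ∈ Y, Function.update ψ (x i) y ∈ Ψ i) → Y.card ≤ s)
    (hm0 : 1 ≤ m0) (y : ℝ) (hy : 0 ≤ y) (hy1 : y ≤ 1) (B : ℝ)
    (hB : (((s + 1) * (k + 1) : ℕ) : ℝ) * (1 + 2 ^ (k + 1) *
      (((p * (k + 1) : ℕ) : ℝ) + 1) ^ (k + 1)) * ((D : ℝ) / K) ^ k ≤ B)
    (h4 : 4 * (K * Real.exp (-(y ^ 2 * D / (3 * K))) + Fintype.card ι * (B / m0) ^ p) *
      ((D + 1) ^ (2 * (h + 1)) : ℕ) ≤ 1) :
    ∃ t : V → ℕ, (∀ v, t v < K) ∧
      (∀ v j, ((G.neighborFinset v).filter (fun u => t u = j)).card ≤ ⌊(1 + y) * D / K⌋₊) ∧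
      ∀ v i, ((Tch G (x i) (Ψ i) v).filter (fun ψ => ∀ a b, t (ψ a) = t (ψ b))).card < m0 := by
  have : Nonempty (Fin K) := ⟨⟨0, hK⟩⟩
  have hcardpos : 0 < Fintype.card (V → Fin K) := Fintype.card_pos
  have hKpos : (0 : ℝ) < K := by exact_mod_cast hK
  have hmpos : (0 : ℝ) < m0 := by exact_mod_cast hm0
  have hD1 : 1 ≤ D := hK.trans hKD
  have hρ : 1 ≤ (D : ℝ) / K := by
    rw [le_div_iff₀ hKpos, one_mul]; exact_mod_cast hKD
  have hB0 : 0 ≤ B := le_trans (by positivity) hB
  set w := ⌊(1 + y) * D / K⌋₊ with hw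
  have hm : (1 + y) * D / K ≤ ((w + 1 : ℕ) : ℝ) := by
    push_cast; exact (Nat.lt_floor_add_one _).le
  have hD' : ∀ v, ∀ N : Finset V, (∀ w ∈ N, G.Adj v w) → N.card ≤ D := by
    intro v N hN
    have h1 : N ⊆ G.neighborFinset v := by
      intro w hw
      rw [SimpleGraph.mem_neighborFinset]
      exact hN w hw
    refine (Finset.card_le_card h1).trans ?_
    rw [SimpleGraph.card_neighborFinset_eq_degree]
    exact hD v
  have hfam : ∀ v i, (cnt (fun ω : V → Fin K => m0 ≤
      ((Tch G (x i) (Ψ i) v).filter (fun ψ => Mono ψ ω)).card) : ℝ) ≤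
        (B / m0) ^ p * Fintype.card (V → Fin K) := by
    intro v i
    obtain ⟨c1, c2⟩ := counts G hD1 hD' (H i) (hU i) (x i) (hrim i) (Ψ i)
      (fun ψ hψ => (hΨ i ψ hψ).2) (hs i) v
    refine tail_mono2 hK hKD (hU i) (Tch G (x i) (Ψ i) v)
      (fun ψ hψ => (hΨ i ψ (mem_tch.1 hψ).1).1) _ (by positivity) c1 c2 B p ?_ m0 hm0
    refine le_trans ?_ hB
    have e1 : (((s + 1) * (m i + 1) : ℕ) : ℝ) ≤ (((s + 1) * (k + 1) : ℕ) : ℝ) := by
      exact_mod_cast Nat.mul_le_mul_left _ (Nat.add_le_add_right (hmk i) 1)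
    have e2 : ((D : ℝ) / K) ^ (m i) ≤ ((D : ℝ) / K) ^ k := pow_le_pow_right₀ hρ (hmk i)
    have e3 : (2 : ℝ) ^ (m i + 1) ≤ 2 ^ (k + 1) :=
      pow_le_pow_right₀ (by norm_num) (Nat.add_le_add_right (hmk i) 1)
    have e4 : (((p * (m i + 1) : ℕ) : ℝ) + 1) ^ (m i + 1) ≤
        (((p * (k + 1) : ℕ) : ℝ) + 1) ^ (k + 1) := by
      have f1 : (((p * (m i + 1) : ℕ) : ℝ) + 1) ≤ (((p * (k + 1) : ℕ) : ℝ) + 1) := by
        have : ((p * (m i + 1) : ℕ) : ℝ) ≤ ((p * (k + 1) : ℕ) : ℝ) := by
          exact_mod_cast Nat.mul_le_mul_left _ (Nat.add_le_add_right (hmk i) 1)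
        linarith
      calc _ ≤ (((p * (k + 1) : ℕ) : ℝ) + 1) ^ (m i + 1) :=
            pow_le_pow_left₀ (by positivity) f1 _
        _ ≤ _ := pow_le_pow_right₀ (by
            have : (0 : ℝ) ≤ ((p * (k + 1) : ℕ) : ℝ) := by positivity
            linarith) (Nat.add_le_add_right (hmk i) 1)
    calc (((s + 1) * (m i + 1) : ℕ) : ℝ) * ((D : ℝ) / K) ^ (m i) + 2 ^ (m i + 1) *
          ((((s + 1) * (m i + 1) : ℕ) : ℝ) * (((p * (m i + 1) : ℕ) : ℝ) + 1) ^ (m i + 1) *
          ((D : ℝ) / K) ^ (m i)) ≤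
        (((s + 1) * (k + 1) : ℕ) : ℝ) * ((D : ℝ) / K) ^ k + 2 ^ (k + 1) *
          ((((s + 1) * (k + 1) : ℕ) : ℝ) * (((p * (k + 1) : ℕ) : ℝ) + 1) ^ (k + 1) *
          ((D : ℝ) / K) ^ k) := by gcongr
      _ = _ := by ring
  set B1 : V → (V → Fin K) → Prop := fun v ω => ∃ j : Fin K, w + 1 ≤ ((G.neighborFinset v).filter
      (fun u => ω u = j)).card with hB1
  set B2 : V → (V → Fin K) → Prop := fun v ω => ∃ i, m0 ≤
      ((Tch G (x i) (Ψ i) v).filter (fun ψ => Mono ψ ω)).card with hB2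
  set Sv : V → Finset V := fun v => univ.filter (fun w => Near G (h + 1) v w) with hSv
  obtain ⟨ω, hω⟩ := lll (ι := V) univ (fun v (ω : V → Fin K) => B1 v ω ∨ B2 v ω) Sv
    (by
      intro v _ ω ω' hag hbad
      have hag1 : ∀ u ∈ G.neighborFinset v, ω u = ω' u := fun u hu =>
        hag u (by
          rw [hSv, Finset.mem_filter]
          rw [SimpleGraph.mem_neighborFinset] at hu
          exact ⟨Finset.mem_univ _, near_mono (by omega) (near_adj hu)⟩)
      have hag2 : ∀ i, ∀ ψ ∈ Tch G (x i) (Ψ i) v, ∀ a, ω (ψ a) = ω' (ψ a) := by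
        intro i ψ hψ a
        obtain ⟨hψ1, z, -, hz⟩ := mem_tch.1 hψ
        refine hag _ ?_
        rw [hSv, Finset.mem_filter]
        refine ⟨Finset.mem_univ _, ?_⟩
        have := (near_adj hz).trans (hloc i ψ hψ1 z a)
        rwa [add_comm] at this
      rcases hbad with ⟨j, hj⟩ | ⟨i, hl⟩
      · left
        refine ⟨j, le_trans hj (Finset.card_le_card ?_)⟩
        intro u hu
        rw [mem_filter] at hu ⊢
        exact ⟨hu.1, by rw [← hag1 u hu.1]; exact hu.2⟩
      · right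
        refine ⟨i, le_trans hl (Finset.card_le_card ?_)⟩
        intro ψ hψ
        rw [mem_filter] at hψ ⊢
        refine ⟨hψ.1, ?_⟩
        intro a b
        rw [← hag2 i ψ hψ.1 a, ← hag2 i ψ hψ.1 b]
        exact hψ.2 a b)
    (K * Real.exp (-(y ^ 2 * D / (3 * K))) + Fintype.card ι * (B / m0) ^ p)
    ((D + 1) ^ (2 * (h + 1))) (by positivity)
    (by
      intro v _
      have hsub : ev (fun ω : V → Fin K => B1 v ω ∨ B2 v ω) ⊆
          ((Finset.univ : Finset (Fin K)).biUnion
            (fun j => ev (fun ω : V → Fin K => w + 1 ≤ ((G.neighborFinset v).filter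
              (fun u => ω u = j)).card))) ∪
          ((Finset.univ : Finset ι).biUnion (fun i => ev (fun ω : V → Fin K => m0 ≤
            ((Tch G (x i) (Ψ i) v).filter (fun ψ => Mono ψ ω)).card))) := by
        intro ω hω
        rw [mem_ev] at hω
        rw [Finset.mem_union, Finset.mem_biUnion, Finset.mem_biUnion]
        rcases hω with ⟨j, hj⟩ | ⟨i, hl⟩
        · left; exact ⟨j, Finset.mem_univ _, mem_ev.mpr hj⟩
        · right; exact ⟨i, Finset.mem_univ _, mem_ev.mpr hl⟩
      have h1 := (Finset.card_le_card hsub).trans ((Finset.card_union_le _ _).trans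
        (Nat.add_le_add Finset.card_biUnion_le Finset.card_biUnion_le))
      have h2 : (cnt (fun ω : V → Fin K => B1 v ω ∨ B2 v ω) : ℝ) ≤ (∑ j : Fin K,
          (cnt (fun ω : V → Fin K => w + 1 ≤ ((G.neighborFinset v).filter
              (fun u => ω u = j)).card) : ℝ)) + ∑ i : ι,
          (cnt (fun ω : V → Fin K => m0 ≤
              ((Tch G (x i) (Ψ i) v).filter (fun ψ => Mono ψ ω)).card) : ℝ) := by
        exact_mod_cast h1
      refine h2.trans ?_
      rw [add_mul]
      refine add_le_add ?_ ?_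
      · refine (Finset.sum_le_sum (fun j _ => Pool.Agent.H238R2.HY.tail K D hK
          (G.neighborFinset v) (by
          rw [SimpleGraph.card_neighborFinset_eq_degree]; exact hD v) j y hy hy1 (w + 1) hm)).trans ?_
        rw [Finset.sum_const, Finset.card_univ, Fintype.card_fin, nsmul_eq_mul]
        exact le_of_eq (by ring)
      · refine (Finset.sum_le_sum (fun i _ => hfam v i)).trans ?_
        rw [Finset.sum_const, Finset.card_univ, nsmul_eq_mul]
        exact le_of_eq (by ring))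
    (by
      intro v _
      refine le_trans (Finset.card_le_card ?_) (near_card G D hD (2 * (h + 1)) v)
      intro j hj
      rw [mem_filter, Finset.not_disjoint_iff] at hj
      obtain ⟨z, hz1, hz2⟩ := hj.2
      rw [hSv, mem_filter] at hz1 hz2
      rw [mem_filter]
      refine ⟨Finset.mem_univ _, ?_⟩
      have a1 := hz1.2.trans hz2.2.symm
      rwa [← two_mul] at a1)
    (by exact_mod_cast h4) (Nat.one_le_pow _ _ (by omega)) hcardpos
  refine ⟨fun v => (ω v : ℕ), fun v => (ω v).2, ?_, ?_⟩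
  · intro v j
    by_cases hj : j < K
    · have h1 := hω v (mem_univ v)
      rw [not_or] at h1
      have h2 := h1.1
      rw [hB1] at h2
      push Not at h2
      have h3 := h2 ⟨j, hj⟩
      have h5 : (G.neighborFinset v).filter (fun u => (ω u : ℕ) = j) =
          (G.neighborFinset v).filter (fun u => ω u = ⟨j, hj⟩) := by
        apply Finset.filter_congr
        intro u _
        rw [Fin.ext_iff]
      rw [h5]
      omega
    · have h3 : (G.neighborFinset v).filter (fun u => (ω u : ℕ) = j) = ∅ := by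
        apply Finset.filter_eq_empty_iff.2
        intro u _ h
        exact hj (by rw [← h]; exact (ω u).2)
      rw [h3]; simp
  · intro v i
    have h1 := hω v (mem_univ v)
    rw [not_or] at h1
    have h2 := h1.2
    rw [hB2] at h2
    push Not at h2
    refine lt_of_le_of_lt (Finset.card_le_card ?_) (h2 i)
    intro ψ hψ
    rw [mem_filter] at hψ ⊢
    exact ⟨hψ.1, fun a b => Fin.ext (hψ.2 a b)⟩

end Pool.Agent.TH855
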