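import Mathlib
import Pool.Agent.TH855.Engine2
import Pool.Agent.TH855.Blow

set_option autoImplicit false

/-!
# Elimination of poor rims
-/

namespace Pool.Agent.TH855

open Finset Classical Pool.Agent.Helper311.Glue

set_option linter.unusedSectionVars false

variable {U V : Type} [Fintype U] [Fintype V]

/-- restriction to `R` -/
def rs (ψ : U → V) (R : Finset U) : R → V := fun z => ψ z

theorem rs_eq {ψ ψ' : U → V} {R : Finset U} (h : rs ψ R = rs ψ' R) {u : U} (hu : u ∈ R) :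
    ψ u = ψ' u := congrFun h ⟨u, hu⟩

/-- poor rims are eliminated one after another -/
theorem peel (Rf : Finset U → Prop) (n : ℕ) : ∀ (N : ℕ) (A : Finset (U → V)), A.card = N →
    ∃ (S : (Σ R : Finset U, (R → V)) → Finset V) (A' : Finset (U → V)), A' ⊆ A ∧
      (∀ p, (S p).card ≤ n) ∧
      (∀ ψ ∈ A, ψ ∉ A' → ∃ R, Rf R ∧ ∃ u, u ∉ R ∧ ψ u ∈ S ⟨R, rs ψ R⟩) ∧
      (∀ ψ ∈ A', ∀ R, Rf R → ∀ Z : Finset V, Z.card ≤ n →
        ∃ ψ' ∈ A', rs ψ' R = rs ψ R ∧ ∀ u, u ∉ R → ψ' u ∉ Z) := by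
  intro N
  induction N using Nat.strong_induction_on with
  | _ N ih =>
    intro A hN
    by_cases hrich : ∀ ψ ∈ A, ∀ R, Rf R → ∀ Z : Finset V, Z.card ≤ n →
        ∃ ψ' ∈ A, rs ψ' R = rs ψ R ∧ ∀ u, u ∉ R → ψ' u ∉ Z
    · exact ⟨fun _ => ∅, A, Finset.Subset.refl _, by simp, fun ψ h1 h2 => absurd h1 h2, hrich⟩
    · push Not at hrich
      obtain ⟨ψ0, hψ0, R0, hR0, Z0, hZ0, hpoor⟩ := hrich
      have hlt : (A.filter (fun ψ => rs ψ R0 ≠ rs ψ0 R0)).card < N := by
        rw [← hN]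
        refine Finset.card_lt_card ?_
        rw [Finset.ssubset_iff_of_subset (Finset.filter_subset _ _)]
        exact ⟨ψ0, hψ0, fun h => (Finset.mem_filter.1 h).2 rfl⟩
      obtain ⟨S, A', hsub, hS, hkill, hrich⟩ := ih _ hlt _ rfl
      refine ⟨Function.update S ⟨R0, rs ψ0 R0⟩ Z0, A', hsub.trans (Finset.filter_subset _ _),
        ?_, ?_, hrich⟩
      · intro p
        by_cases hp : p = ⟨R0, rs ψ0 R0⟩
        · rw [hp, Function.update_self]; exact hZ0
        · rw [Function.update_of_ne hp]; exact hS p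
      · intro ψ hψ hψ'
        by_cases h : rs ψ R0 = rs ψ0 R0
        · obtain ⟨u, hu, huZ⟩ := hpoor ψ hψ h
          refine ⟨R0, hR0, u, hu, ?_⟩
          rw [h, Function.update_self]
          exact huZ
        · obtain ⟨R, hR, u, hu, huS⟩ := hkill ψ (Finset.mem_filter.2 ⟨hψ, h⟩) hψ'
          refine ⟨R, hR, u, hu, ?_⟩
          rw [Function.update_of_ne]
          · exact huS
          · intro he
            apply h
            obtain ⟨h1, h2⟩ := Sigma.mk.inj he
            subst h1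
            exact eq_of_heq h2

end Pool.Agent.TH855
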