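import Mathlib
import Pool.Agent.TH855.Peel

set_option autoImplicit false

/-!
# Gluing along connected sets in a tree-like way
-/

namespace Pool.Agent.TH855

open Finset Classical Pool.Agent.Helper311.Glue

set_option linter.unusedSectionVars false

/-- `TreeGlued F H k`: the graph `F` is composed of pieces that are subgraphs of `H`, glued in a
tree-like way along connected sets of at most `k` vertices.  In detail: there are a homomorphism
`π` from `F` to `H` and sets `B 0, …, B (m - 1)` of vertices of `F` that cover all vertices and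
all edges of `F`, such that `π` is injective on every `B i` and, for every `i < m`, either `B i` is
disjoint from all `B l` with `l < i`, or there is `j < i` such that `B i ∩ B l ⊆ B j` for all
`l < i` and moreover `B i ⊆ B j`, or `B i ∩ B j` has at most `k` elements and its image
under `π` induces a connected subgraph of `H`. -/
def TreeGlued {W U : Type} (F : SimpleGraph W) (H : SimpleGraph U) (k : ℕ) : Prop :=
  ∃ (π : W → U) (m : ℕ) (B : ℕ → Set W),
    (∀ a b, F.Adj a b → H.Adj (π a) (π b)) ∧
    (∀ w, ∃ i < m, w ∈ B i) ∧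
    (∀ a b, F.Adj a b → ∃ i < m, a ∈ B i ∧ b ∈ B i) ∧
    (∀ i < m, Set.InjOn π (B i)) ∧
    ∀ i < m, (∀ l < i, Disjoint (B i) (B l)) ∨
      ∃ j < i, (∀ l < i, B i ∩ B l ⊆ B j) ∧
        (B i ⊆ B j ∨ (B i ∩ B j).ncard ≤ k ∧ (H.induce (π '' (B i ∩ B j))).Connected)

/-- the rims: nonempty proper connected sets of at most `k` vertices -/
def Rim {U : Type} [Fintype U] (H : SimpleGraph U) (k : ℕ) (R : Finset U) : Prop :=
  R.Nonempty ∧ R ≠ univ ∧ R.card ≤ k ∧ (H.induce (R : Set U)).Connected

section Embed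

variable {U V W : Type} [Fintype U] [Fintype V] [Fintype W]

theorem rim_singleton (H : SimpleGraph U) {k : ℕ} (hk : 1 ≤ k) (hU : 1 < Fintype.card U) (u : U) :
    Rim H k {u} := by
  refine ⟨Finset.singleton_nonempty u, ?_, by rw [Finset.card_singleton]; exact hk, ?_⟩
  · intro h
    have h1 := congrArg Finset.card h
    rw [Finset.card_singleton, Finset.card_univ] at h1
    omega
  · rw [SimpleGraph.connected_iff_exists_forall_reachable]
    refine ⟨⟨u, by simp⟩, fun w => ?_⟩
    have h1 : w = ⟨u, by simp⟩ := by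
      apply Subtype.ext
      have := w.2
      simpa using this
    rw [h1]

/-- a rich nonempty family of copies of `H` yields a copy of `F` -/
theorem embed (H : SimpleGraph U) (G : SimpleGraph V) (F : SimpleGraph W) {k : ℕ} (hk : 1 ≤ k)
    (hU : 1 < Fintype.card U) (hF : TreeGlued F H k) (A : Finset (U → V))
    (hA : ∀ ψ ∈ A, Function.Injective ψ ∧ IsHom H G ψ) (hne : A.Nonempty)
    (hrich : ∀ ψ ∈ A, ∀ R, Rim H k R → ∀ Z : Finset V, Z.card ≤ Fintype.card W →
      ∃ ψ' ∈ A, rs ψ' R = rs ψ R ∧ ∀ u, u ∉ R → ψ' u ∉ Z) : F.IsContained G := by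
  obtain ⟨π, m, B, hπ, hcov, hedge, hinj, hglue⟩ := hF
  have main : ∀ n, n ≤ m → ∃ f : W → V,
      (∀ i, i < n → ∃ ψ ∈ A, ∀ w ∈ B i, f w = ψ (π w)) ∧
      (∀ a b, (∃ i, i < n ∧ a ∈ B i) → (∃ i, i < n ∧ b ∈ B i) → f a = f b → a = b) := by
    intro n
    induction n with
    | zero =>
      intro _
      obtain ⟨ψ0, -⟩ := hne
      exact ⟨fun w => ψ0 (π w), fun i hi => absurd hi (Nat.not_lt_zero i),
        fun a b ⟨i, hi, _⟩ => absurd hi (Nat.not_lt_zero i)⟩
    | succ n ih =>
      intro hn
      obtain ⟨f, hf1, hf2⟩ := ih (by omega)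
      set Z : Finset V := (univ.filter (fun w => ∃ i, i < n ∧ w ∈ B i)).image f with hZ
      have hZc : Z.card ≤ Fintype.card W :=
        Finset.card_image_le.trans (Finset.card_le_univ _)
      have hZmem : ∀ w, (∃ i, i < n ∧ w ∈ B i) → f w ∈ Z := fun w hw =>
        Finset.mem_image_of_mem _ (Finset.mem_filter.2 ⟨Finset.mem_univ _, hw⟩)
      obtain ⟨ψ', hψ', h1, h2⟩ : ∃ ψ' ∈ A, (∀ w ∈ B n, (∃ i, i < n ∧ w ∈ B i) → f w = ψ' (π w)) ∧
          (∀ w ∈ B n, (¬ ∃ i, i < n ∧ w ∈ B i) → ψ' (π w) ∉ Z) := by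
        rcases hglue n (by omega) with hdis | ⟨j, hj, hsub, hglue⟩
        · obtain ⟨ψ0, hψ0⟩ := hne
          obtain ⟨u0, u1, hu01⟩ := Fintype.exists_pair_of_one_lt_card hU
          obtain ⟨ψ1, hψ1, -, hψ1Z⟩ := hrich ψ0 hψ0 {u0} (rim_singleton H hk hU u0) Z hZc
          obtain ⟨ψ2, hψ2, hψ2e, hψ2Z⟩ := hrich ψ1 hψ1 {u1} (rim_singleton H hk hU u1) Z hZc
          refine ⟨ψ2, hψ2, ?_, ?_⟩
          · rintro w hw ⟨i, hi, hwi⟩
            exact absurd hwi (Set.disjoint_left.1 (hdis i hi) hw)
          · intro w _ _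
            by_cases hwu : π w = u1
            · rw [hwu, rs_eq hψ2e (Finset.mem_singleton_self u1)]
              exact hψ1Z u1 (by rw [Finset.mem_singleton]; exact hu01.symm)
            · exact hψ2Z _ (by rw [Finset.mem_singleton]; exact hwu)
        · obtain ⟨ψj, hψj, hψjf⟩ := hf1 j hj
          have hA1 : ∀ w ∈ B n, (∃ i, i < n ∧ w ∈ B i) → w ∈ B j := by
            rintro w hw ⟨i, hi, hwi⟩
            exact hsub i hi ⟨hw, hwi⟩
          rcases hglue with hBB | ⟨hcard, hconn⟩
          · refine ⟨ψj, hψj, ?_, ?_⟩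
            · intro w hw h
              exact hψjf w (hA1 w hw h)
            · intro w hw h
              exact absurd ⟨j, hj, hBB hw⟩ h
          · set R : Finset U := (π '' (B n ∩ B j)).toFinset with hR
            have hRmem : ∀ u, u ∈ R ↔ ∃ w, (w ∈ B n ∧ w ∈ B j) ∧ π w = u := by
              intro u
              rw [hR, Set.mem_toFinset, Set.mem_image]
              rfl
            have hnotR : ∀ w ∈ B n, (¬ ∃ i, i < n ∧ w ∈ B i) → π w ∉ R := by
              intro w hw h hwR
              obtain ⟨w', ⟨hw'n, hw'j⟩, hww'⟩ := (hRmem _).1 hwR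
              have := hinj n (by omega) hw'n hw hww'
              subst this
              exact h ⟨j, hj, hw'j⟩
            by_cases hRu : R = univ
            · refine ⟨ψj, hψj, ?_, ?_⟩
              · intro w hw h
                exact hψjf w (hA1 w hw h)
              · intro w hw h
                exact absurd (by rw [hRu]; exact Finset.mem_univ _) (hnotR w hw h)
            · have hRim : Rim H k R := by
                refine ⟨?_, hRu, ?_, ?_⟩
                · obtain ⟨u⟩ := hconn.nonempty
                  exact ⟨u.1, by rw [hR, Set.mem_toFinset]; exact u.2⟩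
                · refine le_trans ?_ hcard
                  rw [hR, Set.toFinset_card, ← Nat.card_eq_fintype_card, Nat.card_coe_set_eq]
                  exact Set.ncard_image_le
                · have : (R : Set U) = π '' (B n ∩ B j) := by
                    rw [hR, Set.coe_toFinset]
                  rw [this]
                  exact hconn
              obtain ⟨ψ', hψ', he, hZ'⟩ := hrich ψj hψj R hRim Z hZc
              refine ⟨ψ', hψ', ?_, ?_⟩
              · intro w hw h
                rw [rs_eq he ((hRmem _).2 ⟨w, ⟨hw, hA1 w hw h⟩, rfl⟩)]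
                exact hψjf w (hA1 w hw h)
              · intro w hw h
                exact hZ' _ (hnotR w hw h)
      refine ⟨fun w => if w ∈ B n then ψ' (π w) else f w, ?_, ?_⟩
      · intro i hi
        rcases Nat.lt_succ_iff_lt_or_eq.1 hi with hi | hi
        · obtain ⟨ψ, hψ, hψf⟩ := hf1 i hi
          refine ⟨ψ, hψ, ?_⟩
          intro w hw
          by_cases hwn : w ∈ B n
          · simp only [if_pos hwn]
            rw [← h1 w hwn ⟨i, hi, hw⟩]
            exact hψf w hw
          · simp only [if_neg hwn]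
            exact hψf w hw
        · refine ⟨ψ', hψ', ?_⟩
          intro w hw
          rw [hi] at hw
          simp only [if_pos hw]
      · intro a b ha hb hab
        have hP : ∀ w, (∃ i, i < n + 1 ∧ w ∈ B i) → w ∉ B n → ∃ i, i < n ∧ w ∈ B i := by
          rintro w ⟨i, hi, hwi⟩ hwn
          rcases Nat.lt_succ_iff_lt_or_eq.1 hi with hi | hi
          · exact ⟨i, hi, hwi⟩
          · rw [hi] at hwi; exact absurd hwi hwn
        have hmix : ∀ a b, a ∈ B n → b ∉ B n → (∃ i, i < n ∧ b ∈ B i) →
            ψ' (π a) = f b → a = b := by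
          intro a b ha hb hbP he
          by_cases haP : ∃ i, i < n ∧ a ∈ B i
          · rw [← h1 a ha haP] at he
            exact hf2 a b haP hbP he
          · exact absurd (by rw [he]; exact hZmem b hbP) (h2 a ha haP)
        simp only at hab
        by_cases han : a ∈ B n
        · by_cases hbn : b ∈ B n
          · rw [if_pos han, if_pos hbn] at hab
            exact hinj n (by omega) han hbn ((hA ψ' hψ').1 hab)
          · rw [if_pos han, if_neg hbn] at hab
            exact hmix a b han hbn (hP b hb hbn) hab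
        · by_cases hbn : b ∈ B n
          · rw [if_neg han, if_pos hbn] at hab
            exact (hmix b a hbn han (hP a ha han) hab.symm).symm
          · rw [if_neg han, if_neg hbn] at hab
            exact hf2 a b (hP a ha han) (hP b hb hbn) hab
  obtain ⟨f, hf1, hf2⟩ := main m le_rfl
  refine ⟨⟨⟨f, ?_⟩, ?_⟩⟩
  · intro a b hab
    obtain ⟨i, hi, hai, hbi⟩ := hedge a b hab
    obtain ⟨ψ, hψ, hψf⟩ := hf1 i hi
    rw [hψf a hai, hψf b hbi]
    exact (hA ψ hψ).2 _ _ (hπ a b hab)
  · intro a b hab
    exact hf2 a b (hcov a) (hcov b) hab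

end Embed

/-- the graph on a rim together with an isolated vertex -/
def rimGraph {U : Type} (H : SimpleGraph U) (R : Finset U) : SimpleGraph (Option R) where
  Adj a b := ∃ a' b' : R, a = some a' ∧ b = some b' ∧ H.Adj a' b'
  symm := ⟨by
    rintro a b ⟨a', b', h1, h2, h3⟩
    exact ⟨b', a', h2, h1, h3.symm⟩⟩
  loopless := ⟨by
    rintro a ⟨a', b', h1, h2, h3⟩
    rw [h1] at h2
    have := Option.some.inj h2
    subst this
    exact h3.ne rfl⟩

theorem rimGraph_connected {U : Type} (H : SimpleGraph U) (R : Finset U)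
    (h : (H.induce (R : Set U)).Connected) :
    ((rimGraph H R).induce {z | z ≠ none}).Connected := by
  set f : H.induce (R : Set U) →g (rimGraph H R).induce {z | z ≠ none} :=
    ⟨fun z => ⟨some ⟨z.1, z.2⟩, by simp⟩, by
      intro a b hab
      exact ⟨⟨a.1, a.2⟩, ⟨b.1, b.2⟩, rfl, rfl, hab⟩⟩ with hf
  have hsurj : ∀ z, ∃ a, f a = z := by
    rintro ⟨z, hz⟩
    obtain ⟨a, rfl⟩ := Option.ne_none_iff_exists'.1 hz
    exact ⟨⟨a.1, a.2⟩, rfl⟩
  rw [SimpleGraph.connected_iff_exists_forall_reachable]
  obtain ⟨a⟩ := h.nonempty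
  refine ⟨f a, fun z => ?_⟩
  obtain ⟨b, rfl⟩ := hsurj z
  exact (h.preconnected a b).map f

theorem upd_self {α β : Type} (inst : DecidableEq α) (f : α → β) (a : α) (v : β) :
    @Function.update α (fun _ => β) inst f a v a = v := by simp

theorem upd_of_ne {α β : Type} (inst : DecidableEq α) (f : α → β) (a b : α) (v : β)
    (h : b ≠ a) : @Function.update α (fun _ => β) inst f a v b = f b := by simp [h]

/-- **Tree-like gluing along connected sets of at most `k` vertices** -/
theorem upTo_treeGlued {U W : Type} [Fintype U] [Fintype W] (H : SimpleGraph U)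
    (hH : H.Connected) (hU : 1 < Fintype.card U) (F : SimpleGraph W) (k : ℕ) (hk : 1 ≤ k)
    (hF : TreeGlued F H k) {c : ℝ} (hc : 0 ≤ c) (h : UpTo H c) : UpTo F (k * c) := by
  intro ε hε
  obtain ⟨r, hr⟩ := exists_near H hH
  obtain ⟨D₀, hD₀⟩ := engine2 H hc (UpTo.gb hc h)
    (fun i : {R : Finset U // Rim H k R} => Option i.1) (fun i => rimGraph H i.1) k hk
    (fun i => i.1.card) (fun i => i.2.1.card_pos) (fun i => i.2.2.2.1)
    (fun i => by rw [Fintype.card_option, Fintype.card_coe]) (fun _ => none)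
    (Fintype.card W) r (fun i => rimGraph_connected H i.1 i.2.2.2.2) ε hε
  refine ⟨D₀, ?_⟩
  intro Δ hΔ V _ G _ hfree hmax
  suffices hmain : ∃ n : ℕ, (n : ℝ) ≤ (k * c + ε) * ((Δ : ℝ) / Real.log Δ) ∧
      ColOn G Set.univ n by
    obtain ⟨n, hn, hcol⟩ := hmain
    exact ⟨n, colorable_of_colOn hcol, hn⟩
  obtain ⟨S, A', hsub, hS, hkill, hrich⟩ := peel (Rim H k) (Fintype.card W) _
    (univ.filter (fun ψ : U → V => Function.Injective ψ ∧ IsHom H G ψ)) rfl
  have hA' : ∀ ψ, ψ ∉ A' := by
    intro ψ hψ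
    exact hfree (embed H G F hk hU hF A' (fun ψ hψ => (Finset.mem_filter.1 (hsub hψ)).2)
      ⟨ψ, hψ⟩ hrich)
  refine hD₀ Δ hΔ V G (fun v => by rw [← hmax]; exact G.degree_le_maxDegree v)
    (fun i => univ.filter (fun χ : Option i.1 → V => (Function.Injective χ ∧
      IsHom (rimGraph H i.1) G χ) ∧ (∀ a b, Near G r (χ a) (χ b)) ∧
      χ none ∈ S ⟨i.1, fun z => χ (some z)⟩)) ?_ ?_ ?_ ?_
  · intro i χ hχ
    exact (Finset.mem_filter.1 hχ).2.1
  · intro i χ hχ
    exact (Finset.mem_filter.1 hχ).2.2.1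
  · intro i χ hχ Y hY
    refine (Finset.card_le_card ?_).trans (hS ⟨i.1, fun z => χ (some z)⟩)
    intro y hy
    have h1 := (Finset.mem_filter.1 (hY y hy)).2.2.2
    rw [upd_self] at h1
    convert h1 using 4 with z
    rw [upd_of_ne _ _ _ _ _ (Option.some_ne_none z)]
  · rintro T ⟨φ, hφ, hφT⟩
    obtain ⟨R, hR, u, hu, huS⟩ := hkill φ
      (Finset.mem_filter.2 ⟨Finset.mem_univ _, hφ.1, hφ.2⟩) (hA' φ)
    refine ⟨⟨R, hR⟩, fun o => o.elim (φ u) (fun z => φ z.1), ?_, ?_⟩
    · rw [Finset.mem_filter]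
      refine ⟨Finset.mem_univ _, ⟨?_, ?_⟩, ?_, huS⟩
      · rintro (_ | a) (_ | b) hab
        · rfl
        · exact absurd (hφ.1 hab) (fun h => hu (by rw [h]; exact b.2))
        · exact absurd (hφ.1 hab) (fun h => hu (by rw [← h]; exact a.2))
        · have := hφ.1 hab
          rw [Subtype.ext this]
      · rintro a b ⟨a', b', rfl, rfl, hab⟩
        exact hφ.2 _ _ hab
      · have hφ' : IsHom H G φ := hφ.2
        rintro (_ | a) (_ | b)
        · exact near_map hφ' (hr _ _)
        · exact near_map hφ' (hr _ _)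
        · exact near_map hφ' (hr _ _)
        · exact near_map hφ' (hr _ _)
    · rw [← hφT]
      rintro v ⟨o, rfl⟩
      rcases o with _ | a
      · exact ⟨u, rfl⟩
      · exact ⟨a.1, rfl⟩

end Pool.Agent.TH855
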