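import Mathlib
import Pool.Agent.TH855.Tree

set_option autoImplicit false

/-!
# Graphs of bounded treewidth
-/

namespace Pool.Agent.TH855

open Finset Classical Pool.Agent.Helper311.Glue

set_option linter.unusedSectionVars false

/-- `F` has treewidth at most `r`: there are a finite tree `T` and sets `B i` (the bags) of at most
`r + 1` vertices of `F`, one for each vertex `i` of `T`, such that every edge of `F` lies inside a
bag and, for every vertex `w` of `F`, the `i` with `w ∈ B i` induce a connected (so nonempty)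
subgraph of `T`. -/
def TreewidthLe {W : Type} (F : SimpleGraph W) (r : ℕ) : Prop :=
  ∃ (I : Type) (_ : Fintype I) (T : SimpleGraph I) (B : I → Set W), T.IsTree ∧
    (∀ i, (B i).ncard ≤ r + 1) ∧ (∀ a b, F.Adj a b → ∃ i, a ∈ B i ∧ b ∈ B i) ∧
    ∀ w, (T.induce {i | w ∈ B i}).Connected

theorem walk_lift {I : Type} (T : SimpleGraph I) (C : Set I) {x y : C}
    (q : (T.induce C).Walk x y) : ∃ r : T.Walk x.1 y.1, ∀ z ∈ r.support, z ∈ C := by
  induction q with
  | nil => exact ⟨SimpleGraph.Walk.nil, by simp⟩
  | @cons u v w h q ih =>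
    obtain ⟨r, hr⟩ := ih
    have h' : T.Adj u.1 v.1 := h
    refine ⟨SimpleGraph.Walk.cons h' r, ?_⟩
    intro z hz
    rw [SimpleGraph.Walk.support_cons, List.mem_cons] at hz
    rcases hz with rfl | hz
    · exact u.2
    · exact hr z hz

theorem bridge_mem {I : Type} (T : SimpleGraph I) (hT : T.IsAcyclic) (S C : Set I)
    (hS : (T.induce S).Preconnected) (hC : (T.induce C).Preconnected) {p l i : I}
    (hp : p ∈ S) (hl : l ∉ S) (hadj : T.Adj l p) (hlC : l ∈ C) (hiS : i ∈ S) (hiC : i ∈ C) :
    p ∈ C := by
  by_contra hpC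
  obtain ⟨q1⟩ := hC ⟨l, hlC⟩ ⟨i, hiC⟩
  obtain ⟨q2⟩ := hS ⟨i, hiS⟩ ⟨p, hp⟩
  have hb := (SimpleGraph.isAcyclic_iff_forall_adj_isBridge.1 hT) hadj
  rw [SimpleGraph.isBridge_iff_forall_walk_mem_edges] at hb
  have hr1 : ∃ r1 : T.Walk l i, ∀ x ∈ r1.support, x ∈ C := walk_lift T C q1
  have hr2 : ∃ r2 : T.Walk i p, ∀ x ∈ r2.support, x ∈ S := walk_lift T S q2
  obtain ⟨r1, hr1⟩ := hr1
  obtain ⟨r2, hr2⟩ := hr2
  have h1 := hb (r1.append r2)
  rw [SimpleGraph.Walk.edges_append, List.mem_append] at h1
  rcases h1 with h1 | h1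
  · exact hpC (hr1 _ (SimpleGraph.Walk.snd_mem_support_of_mem_edges _ h1))
  · exact hl (hr2 _ (SimpleGraph.Walk.fst_mem_support_of_mem_edges _ h1))

theorem tree_order {I W : Type} [Fintype I] (T : SimpleGraph I) (hT : T.IsTree) (B : I → Set W)
    (hB : ∀ w, (T.induce {i | w ∈ B i}).Preconnected) :
    ∃ e : ℕ → I, (∀ i, ∃ n < Fintype.card I, e n = i) ∧
      ∀ n < Fintype.card I, 0 < n → ∃ j < n, ∀ l < n, B (e n) ∩ B (e l) ⊆ B (e j) := by
  have key : ∀ n, 1 ≤ n → n ≤ Fintype.card I → ∃ e : ℕ → I, ((range n).image e).card = n ∧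
      (T.induce {i | ∃ l < n, e l = i}).Preconnected ∧
      ∀ i < n, 0 < i → ∃ j < i, ∀ l < i, B (e i) ∩ B (e l) ⊆ B (e j) := by
    intro n
    induction n with
    | zero => intro h; omega
    | succ n ih =>
      intro _ hn
      by_cases hn0 : n = 0
      · subst hn0
        obtain ⟨i0⟩ := hT.connected.nonempty
        refine ⟨fun _ => i0, by simp, ?_, by intro i hi hi'; omega⟩
        rintro ⟨x, l, _, rfl⟩ ⟨y, l', _, rfl⟩
        rfl
      · obtain ⟨e, he1, he2, he3⟩ := ih (by omega) (by omega)
        have hZ : (range n).image e ≠ univ := by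
          intro h
          rw [h, Finset.card_univ] at he1
          omega
        obtain ⟨a, ha, b, hb, hab⟩ := exists_cross T hT.connected ((range n).image e)
          (by rw [← Finset.card_pos, he1]; omega) hZ
        obtain ⟨j, hj, hja⟩ := Finset.mem_image.1 ha
        rw [Finset.mem_range] at hj
        have hbn : ∀ l < n, e l ≠ b := fun l hl h =>
          hb (Finset.mem_image.2 ⟨l, Finset.mem_range.2 hl, h⟩)
        set e' : ℕ → I := fun l => if l < n then e l else b with he'
        have he'1 : ∀ l < n, e' l = e l := fun l hl => by simp only [he', if_pos hl]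
        have he'2 : e' n = b := by simp only [he', lt_irrefl, if_false]
        refine ⟨e', ?_, ?_, ?_⟩
        · have : (range (n + 1)).image e' = insert b ((range n).image e) := by
            rw [Finset.range_add_one, Finset.image_insert, he'2]
            congr 1
            refine Finset.image_congr (fun l hl => ?_)
            exact he'1 l (by simpa using hl)
          rw [this, Finset.card_insert_of_notMem hb, he1]
        · have hsub : {i | ∃ l < n, e l = i} ⊆ {i | ∃ l < n + 1, e' l = i} := by
            rintro i ⟨l, hl, rfl⟩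
            exact ⟨l, by omega, he'1 l hl⟩
          have haS : a ∈ {i | ∃ l < n, e l = i} := ⟨j, hj, hja⟩
          have hall : ∀ x : {i | ∃ l < n + 1, e' l = i},
              (T.induce {i | ∃ l < n + 1, e' l = i}).Reachable ⟨a, hsub haS⟩ x := by
            rintro ⟨x, l, hl, hx⟩
            by_cases hln : l < n
            · have hxS : x ∈ {i | ∃ l < n, e l = i} := ⟨l, hln, by rw [← he'1 l hln]; exact hx⟩
              obtain ⟨q⟩ := he2 ⟨a, haS⟩ ⟨x, hxS⟩
              exact ⟨q.map (SimpleGraph.induceHomOfLE T hsub).toHom⟩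
            · have hl' : l = n := by omega
              rw [hl', he'2] at hx
              subst hx
              have : (T.induce {i | ∃ l < n + 1, e' l = i}).Adj ⟨a, hsub haS⟩
                ⟨b, l, hl, by rw [hl', he'2]⟩ := hab
              exact this.reachable
          intro x y
          exact (hall x).symm.trans (hall y)
        · intro i hi hi0
          by_cases hin : i < n
          · obtain ⟨j', hj', hsub⟩ := he3 i hin hi0
            refine ⟨j', hj', ?_⟩
            intro l hl
            rw [he'1 i hin, he'1 l (by omega), he'1 j' (by omega)]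
            exact hsub l hl
          · have hin' : i = n := by omega
            subst hin'
            refine ⟨j, hj, ?_⟩
            intro l hl w hw
            rw [he'2, he'1 l hl] at hw
            rw [he'1 j hj, hja]
            exact bridge_mem T hT.isAcyclic {i' | ∃ l < i, e l = i'} {i | w ∈ B i} he2 (hB w)
              ⟨j, hj, hja⟩ (by rintro ⟨l, hl, h⟩; exact hbn l hl h) hab.symm hw.1
              ⟨l, hl, rfl⟩ hw.2
  have hpos : 1 ≤ Fintype.card I := by
    obtain ⟨i0⟩ := hT.connected.nonempty
    exact Fintype.card_pos_iff.2 ⟨i0⟩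
  obtain ⟨e, he1, -, he3⟩ := key _ hpos le_rfl
  refine ⟨e, ?_, he3⟩
  intro i
  have h1 : (range (Fintype.card I)).image e = univ := Finset.card_eq_iff_eq_univ _ |>.1 he1
  have h2 : i ∈ (range (Fintype.card I)).image e := by rw [h1]; exact Finset.mem_univ _
  obtain ⟨n, hn, hni⟩ := Finset.mem_image.1 h2
  exact ⟨n, Finset.mem_range.1 hn, hni⟩

theorem tree_colour {W : Type} [Fintype W] (r m : ℕ) (B : ℕ → Set W)
    (hcard : ∀ i, (B i).ncard ≤ r + 1)
    (hord : ∀ n < m, 0 < n → ∃ j < n, ∀ l < n, B n ∩ B l ⊆ B j) :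
    ∃ π : W → Fin (r + 1), ∀ i < m, Set.InjOn π (B i) := by
  have key : ∀ n ≤ m, ∃ π : W → Fin (r + 1), ∀ i < n, Set.InjOn π (B i) := by
    intro n
    induction n with
    | zero => intro _; exact ⟨fun _ => 0, fun i hi => absurd hi (Nat.not_lt_zero i)⟩
    | succ n ih =>
      intro hn
      obtain ⟨π, hπ⟩ := ih (by omega)
      set X : Finset W := univ.filter (fun w => w ∈ B n ∧ ¬ ∃ l < n, w ∈ B l) with hX
      set Q : Finset W := univ.filter (fun w => w ∈ B n ∧ ∃ l < n, w ∈ B l) with hQ
      have hXQ : X.card + Q.card ≤ r + 1 := by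
        rw [← Finset.card_union_of_disjoint]
        · refine le_trans ?_ (hcard n)
          rw [Set.ncard_eq_toFinset_card']
          refine Finset.card_le_card ?_
          intro w hw
          rw [Set.mem_toFinset]
          rcases Finset.mem_union.1 hw with h | h
          · exact (Finset.mem_filter.1 h).2.1
          · exact (Finset.mem_filter.1 h).2.1
        · rw [Finset.disjoint_left]
          intro w hw hw'
          exact (Finset.mem_filter.1 hw).2.2 (Finset.mem_filter.1 hw').2.2
      set Y : Finset (Fin (r + 1)) := univ \ Q.image π with hY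
      have hXY : Fintype.card X ≤ Fintype.card Y := by
        rw [Fintype.card_coe, Fintype.card_coe, hY]
        have h1 := Finset.le_card_sdiff (Q.image π) (univ : Finset (Fin (r + 1)))
        rw [Finset.card_univ, Fintype.card_fin] at h1
        have h2 := Finset.card_image_le (s := Q) (f := π)
        omega
      obtain ⟨f⟩ := Function.Embedding.nonempty_of_card_le hXY
      have hval : ∀ (w : W) (h : w ∈ X), (if h : w ∈ X then (f ⟨w, h⟩ : Fin (r + 1)) else π w) =
          f ⟨w, h⟩ := fun w h => dif_pos h
      have hval' : ∀ (w : W), w ∉ X → (if h : w ∈ X then (f ⟨w, h⟩ : Fin (r + 1)) else π w) =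
          π w := fun w h => dif_neg h
      refine ⟨fun w => if h : w ∈ X then (f ⟨w, h⟩ : Fin (r + 1)) else π w, ?_⟩
      intro i hi
      by_cases hin : i < n
      · intro a ha b hb hab
        have haX : a ∉ X := fun h => (Finset.mem_filter.1 h).2.2 ⟨i, hin, ha⟩
        have hbX : b ∉ X := fun h => (Finset.mem_filter.1 h).2.2 ⟨i, hin, hb⟩
        simp only at hab
        rw [hval' a haX, hval' b hbX] at hab
        exact hπ i hin ha hb hab
      · have hin' : i = n := by omega
        subst hin'
        have hQmem : ∀ w ∈ B i, w ∉ X → ∃ l < i, w ∈ B l := by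
          intro w hw hwX
          by_contra hcon
          exact hwX (Finset.mem_filter.2 ⟨Finset.mem_univ _, hw, hcon⟩)
        have hmix : ∀ a b (ha : a ∈ X), b ∈ B i → b ∉ X → (f ⟨a, ha⟩ : Fin (r + 1)) ≠ π b := by
          intro a b ha hb hbX h
          have h1 : (f ⟨a, ha⟩ : Fin (r + 1)) ∈ univ \ Q.image π := (f ⟨a, ha⟩).2
          rw [Finset.mem_sdiff] at h1
          apply h1.2
          rw [h]
          exact Finset.mem_image_of_mem _ (Finset.mem_filter.2
            ⟨Finset.mem_univ _, hb, hQmem b hb hbX⟩)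
        intro a ha b hb hab
        simp only at hab
        by_cases haX : a ∈ X
        · by_cases hbX : b ∈ X
          · rw [hval a haX, hval b hbX] at hab
            have := f.injective (Subtype.ext hab)
            exact congrArg Subtype.val this
          · rw [hval a haX, hval' b hbX] at hab
            exact absurd hab (hmix a b haX hb hbX)
        · by_cases hbX : b ∈ X
          · rw [hval' a haX, hval b hbX] at hab
            exact absurd hab.symm (hmix b a hbX ha haX)
          · rw [hval' a haX, hval' b hbX] at hab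
            obtain ⟨l, hl, hal⟩ := hQmem a ha haX
            obtain ⟨l', hl', hbl⟩ := hQmem b hb hbX
            obtain ⟨j, hj, hsub⟩ := hord i (by omega) (by omega)
            exact hπ j hj (hsub l hl ⟨ha, hal⟩) (hsub l' hl' ⟨hb, hbl⟩) hab
  exact key m le_rfl

theorem top_induce_connected {n : ℕ} (s : Set (Fin n)) (hs : s.Nonempty) :
    ((⊤ : SimpleGraph (Fin n)).induce s).Connected := by
  rw [SimpleGraph.connected_iff_exists_forall_reachable]
  obtain ⟨a, ha⟩ := hs
  refine ⟨⟨a, ha⟩, ?_⟩
  rintro ⟨b, hb⟩
  by_cases h : a = b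
  · subst h; rfl
  · have : ((⊤ : SimpleGraph (Fin n)).induce s).Adj ⟨a, ha⟩ ⟨b, hb⟩ := h
    exact this.reachable

/-- graphs of treewidth at most `r` are composed of cliques -/
theorem treeGlued_of_treewidth {W : Type} [Fintype W] (F : SimpleGraph W) (r : ℕ)
    (h : TreewidthLe F r) : TreeGlued F (⊤ : SimpleGraph (Fin (r + 1))) r := by
  obtain ⟨I, _, T, B, hT, hcard, hedge, hconn⟩ := h
  obtain ⟨e, he, hord⟩ := tree_order T hT B (fun w => (hconn w).preconnected)
  obtain ⟨π, hπ⟩ := tree_colour r (Fintype.card I) (fun n => B (e n)) (fun n => hcard _) hord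
  have hcov : ∀ w, ∃ i < Fintype.card I, w ∈ B (e i) := by
    intro w
    obtain ⟨i, hi⟩ := (hconn w).nonempty
    obtain ⟨n, hn, hni⟩ := he i
    exact ⟨n, hn, by rw [hni]; exact hi⟩
  have hedge' : ∀ a b, F.Adj a b → ∃ i < Fintype.card I, a ∈ B (e i) ∧ b ∈ B (e i) := by
    intro a b hab
    obtain ⟨i, hi⟩ := hedge a b hab
    obtain ⟨n, hn, hni⟩ := he i
    exact ⟨n, hn, by rw [hni]; exact hi⟩
  refine ⟨π, Fintype.card I, fun n => B (e n), ?_, hcov, hedge', hπ, ?_⟩
  · intro a b hab
    obtain ⟨i, hi, hai, hbi⟩ := hedge' a b hab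
    exact fun h => hab.ne (hπ i hi hai hbi h)
  · intro i hi
    by_cases hi0 : i = 0
    · left; intro l hl; omega
    · obtain ⟨j, hj, hsub⟩ := hord i hi (by omega)
      by_cases hne : (B (e i) ∩ B (e j)).Nonempty
      · right
        refine ⟨j, hj, hsub, ?_⟩
        by_cases hBB : B (e i) ⊆ B (e j)
        · left; exact hBB
        · right
          refine ⟨?_, top_induce_connected _ (hne.image _)⟩
          have h1 : B (e i) ∩ B (e j) ⊂ B (e i) := by
            refine ⟨Set.inter_subset_left, fun h => hBB (fun w hw => (h hw).2)⟩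
          have h2 := Set.ncard_lt_ncard h1 (Set.toFinite _)
          have h3 := hcard (e i)
          show (B (e i) ∩ B (e j)).ncard ≤ r
          omega
      · left
        intro l hl
        rw [Set.disjoint_left]
        intro w hw hwl
        exact hne ⟨w, hw, hsub l hl ⟨hw, hwl⟩⟩

/-- graphs of treewidth at most `r` -/
theorem upTo_treewidth {W : Type} [Fintype W] (F : SimpleGraph W) (r : ℕ) (hr : 1 ≤ r)
    (h : TreewidthLe F r) {c : ℝ} (hc : 0 ≤ c) (hK : UpTo (⊤ : SimpleGraph (Fin (r + 1))) c) :
    UpTo F (r * c) :=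
  upTo_treeGlued (⊤ : SimpleGraph (Fin (r + 1))) SimpleGraph.connected_top
    (by rw [Fintype.card_fin]; omega) F r hr (treeGlued_of_treewidth F r h) hc hK

end Pool.Agent.TH855
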