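import Mathlib
import Pool.Agent.TH855.Treewidth
import Pool.Agent.TH855.CF

set_option autoImplicit false

/-!
# The bounds in terms of `c`
-/

namespace Pool.Agent.TH855

open Pool.Agent.Helper311.Glue Classical
open scoped ENNReal

theorem treeGlued_bound {W U : Type} [Fintype W] [Fintype U] (F : SimpleGraph W)
    (H : SimpleGraph U) (k : ℕ) (hH : H.Connected) (hU : 1 < Fintype.card U) (hk : 1 ≤ k)
    (hF : TreeGlued F H k) : c F ≤ k * c H := by
  by_cases h : c H = ∞
  · have hk0 : (k : ℝ≥0∞) ≠ 0 := by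
      rw [Ne, Nat.cast_eq_zero]; omega
    rw [h, ENNReal.mul_top hk0]
    exact le_top
  · have h1 : UpTo H (c H).toReal :=
      upTo_of_c_le H _ ENNReal.toReal_nonneg (by rw [ENNReal.ofReal_toReal h])
    have h2 := c_le_of_upTo F _ (by positivity)
      (upTo_treeGlued H hH hU F k hk hF ENNReal.toReal_nonneg h1)
    rwa [ENNReal.ofReal_mul (by positivity), ENNReal.ofReal_natCast,
      ENNReal.ofReal_toReal h] at h2

theorem c_ab_le_one {U : Type} [Fintype U] (H : SimpleGraph U) (x : U)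
    (hb : (H.induce {y | y ≠ x}).Colorable 2) : c H ≤ 1 := by
  obtain ⟨C⟩ := hb
  have h1 : UpTo H 1 := by
    refine upTo_ab H x ⟨fun y => if h : y ≠ x then decide (C ⟨y, h⟩ = 0) else false, ?_⟩
    intro y z hyz hy hz h
    simp only [dif_pos hy, dif_pos hz, decide_eq_decide] at h
    have h2 : (H.induce {y | y ≠ x}).Adj ⟨y, hy⟩ ⟨z, hz⟩ := hyz
    have h3 := C.valid h2
    have key : ∀ a b : Fin 2, a ≠ b → ¬ (a = 0 ↔ b = 0) := by decide
    exact key _ _ h3 h
  have h2 := c_le_of_upTo H 1 zero_le_one h1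
  rwa [ENNReal.ofReal_one] at h2

/-- `c(K_3) ≤ 1` (a special case of the bound for almost bipartite graphs) -/
theorem c_triangle_le_one : c (⊤ : SimpleGraph (Fin 3)) ≤ 1 := by
  refine c_ab_le_one _ 0 ⟨SimpleGraph.Coloring.mk
    (fun y => if y.1 = 1 then (0 : Fin 2) else 1) ?_⟩
  rintro ⟨y, hy⟩ ⟨z, hz⟩ hyz h
  have hyz' : y ≠ z := hyz
  have key : ∀ y z : Fin 3, y ≠ 0 → z ≠ 0 → y ≠ z →
      ¬ ((if y = 1 then (0 : Fin 2) else 1) = if z = 1 then (0 : Fin 2) else 1) := by
    decide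
  exact key y z hy hz hyz' h

theorem treewidth_bound {W : Type} [Fintype W] (F : SimpleGraph W) (r : ℕ) (hr : 1 ≤ r)
    (hF : TreewidthLe F r) : c F ≤ r * c (⊤ : SimpleGraph (Fin (r + 1))) :=
  treeGlued_bound F _ r SimpleGraph.connected_top (by rw [Fintype.card_fin]; omega) hr
    (treeGlued_of_treewidth F r hF)

end Pool.Agent.TH855
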