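import Mathlib
set_option autoImplicit false

namespace Pool.Agent.TH855.J5172

open Finset

variable {ι K : Type} [Fintype ι] [Fintype K]

/-- sum of squares -/
noncomputable def E (z : K → ℂ) : ℝ := ∑ k, ‖z k‖ ^ 2

lemma E_nonneg (z : K → ℂ) : 0 ≤ E z := Finset.sum_nonneg fun _ _ => by positivity

/-- matrix action -/
def A (a : K → K → ℂ) (z : K → ℂ) : K → ℂ := fun k => ∑ l, a k l * z l

lemma E_add (u v : K → ℂ) : E (u + v) ≤ 2 * E u + 2 * E v := by
  unfold E
  rw [Finset.mul_sum, Finset.mul_sum, ← Finset.sum_add_distrib]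
  refine Finset.sum_le_sum fun k _ => ?_
  have h := norm_add_le (u k) (v k)
  have h0 := norm_nonneg (u k + v k)
  simp only [Pi.add_apply]
  nlinarith [sq_nonneg (‖u k‖ - ‖v k‖), norm_nonneg (u k), norm_nonneg (v k)]

/-- dual form of the first hypothesis -/
lemma dual (a : ι → K → K → ℂ) (r : ℝ) (hr : 0 ≤ r)
    (h : ∀ z : K → ℂ, ∑ i, ∑ l, ‖∑ k, a i k l * z k‖ ^ 2 ≤ r ^ 2 * ∑ k, ‖z k‖ ^ 2)
    (v : ι → K → ℂ) : E (fun k => ∑ i, A (a i) (v i) k) ≤ r ^ 2 * ∑ i, E (v i) := by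
  set y : K → ℂ := fun k => ∑ i, A (a i) (v i) k with hy
  have hz := h (fun k => (starRingEnd ℂ) (y k))
  have h1 : (∑ k, ‖(starRingEnd ℂ) (y k)‖ ^ 2) = E y := by simp [E]
  rw [h1] at hz
  have h2 : (E y : ℂ) = ∑ i, ∑ l, v i l * ∑ k, a i k l * (starRingEnd ℂ) (y k) := by
    have e1 : (E y : ℂ) = ∑ k, y k * (starRingEnd ℂ) (y k) := by
      unfold E
      push_cast
      refine Finset.sum_congr rfl fun k _ => ?_
      rw [Complex.mul_conj, Complex.normSq_eq_norm_sq]
      push_cast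
      rfl
    rw [e1]
    have e2 : ∀ k, y k * (starRingEnd ℂ) (y k) =
        ∑ i, ∑ l, v i l * (a i k l * (starRingEnd ℂ) (y k)) := by
      intro k
      rw [hy]
      simp only [A, Finset.sum_mul]
      refine Finset.sum_congr rfl fun i _ => Finset.sum_congr rfl fun l _ => ?_
      ring
    rw [Finset.sum_congr rfl fun k _ => e2 k, Finset.sum_comm]
    refine Finset.sum_congr rfl fun i _ => ?_
    rw [Finset.sum_comm]
    refine Finset.sum_congr rfl fun l _ => ?_
    rw [Finset.mul_sum]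
  have h3 : E y ≤ ∑ i, ∑ l, ‖v i l‖ * ‖∑ k, a i k l * (starRingEnd ℂ) (y k)‖ := by
    have : E y = ‖(E y : ℂ)‖ := by
      rw [Complex.norm_real, Real.norm_eq_abs, abs_of_nonneg (E_nonneg y)]
    rw [this, h2]
    refine (norm_sum_le _ _).trans (Finset.sum_le_sum fun i _ => ?_)
    refine (norm_sum_le _ _).trans (Finset.sum_le_sum fun l _ => ?_)
    rw [norm_mul]
  set W : ℝ := ∑ i, ∑ l, ‖∑ k, a i k l * (starRingEnd ℂ) (y k)‖ ^ 2 with hW
  have h4 : (∑ i, ∑ l, ‖v i l‖ * ‖∑ k, a i k l * (starRingEnd ℂ) (y k)‖) ^ 2 ≤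
      (∑ i, E (v i)) * W := by
    have := Finset.sum_mul_sq_le_sq_mul_sq (Finset.univ : Finset (ι × K))
      (fun p => ‖v p.1 p.2‖) (fun p => ‖∑ k, a p.1 k p.2 * (starRingEnd ℂ) (y k)‖)
    rw [Fintype.sum_prod_type, Fintype.sum_prod_type, Fintype.sum_prod_type] at this
    simpa [E, hW] using this
  have hV : 0 ≤ ∑ i, E (v i) := Finset.sum_nonneg fun i _ => E_nonneg _
  have hE := E_nonneg y
  have h5 : E y ^ 2 ≤ (∑ i, E (v i)) * (r ^ 2 * E y) :=
    (pow_le_pow_left₀ hE h3 2).trans (h4.trans (mul_le_mul_of_nonneg_left hz hV))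
  rcases hE.eq_or_lt with h0 | h0
  · rw [← h0]; positivity
  · nlinarith

/-- at most one term -/
lemma E_sum_single {P : ι → Prop} [DecidablePred P] (hP : ∀ i j, P i → P j → i = j)
    (f : ι → K → ℂ) : E (fun k => ∑ i, if P i then f i k else 0) ≤ ∑ i, E (f i) := by
  by_cases h : ∃ i, P i
  · obtain ⟨i, hi⟩ := h
    have : (fun k => ∑ j, if P j then f j k else 0) = f i := by
      funext k
      rw [Finset.sum_eq_single i]
      · simp [hi]
      · intro j _ hj
        rw [if_neg]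
        intro hPj
        exact hj (hP j i hPj hi)
      · simp
    rw [this]
    exact Finset.single_le_sum (f := fun i => E (f i)) (fun i _ => E_nonneg _) (Finset.mem_univ i)
  · push Not at h
    have : (fun k => ∑ j, if P j then f j k else 0) = (0 : K → ℂ) := by
      funext k
      simp [h]
    rw [this]
    have : E (0 : K → ℂ) = 0 := by simp [E]
    rw [this]
    exact Finset.sum_nonneg fun i _ => E_nonneg _

open ENNReal in
/-- the norm bound over a group with ping-pong -/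
lemma bound {F : Type} [Group F] (x : ι → F) (P : ι → F → Prop)
    (hP1 : ∀ w i j, P i w → P j w → i = j)
    (hP2 : ∀ u i j, ¬ P i (x i * u) → ¬ P j (x j * u) → i = j)
    (a : ι → K → K → ℂ) (r : ℝ) (hr : 0 ≤ r)
    (h1 : ∀ z : K → ℂ, ∑ i, ∑ l, ‖∑ k, a i k l * z k‖ ^ 2 ≤ r ^ 2 * ∑ k, ‖z k‖ ^ 2)
    (h2 : ∀ z : K → ℂ, ∑ i, ∑ k, ‖∑ l, a i k l * z l‖ ^ 2 ≤ r ^ 2 * ∑ l, ‖z l‖ ^ 2)
    (φ : F → K → ℂ) :
    ∑' w, ENNReal.ofReal (E (fun k => ∑ i, A (a i) (φ ((x i)⁻¹ * w)) k)) ≤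
      ENNReal.ofReal ((2 * r) ^ 2) * ∑' w, ENNReal.ofReal (E (φ w)) := by
  classical
  have key : ∀ w, E (fun k => ∑ i, A (a i) (φ ((x i)⁻¹ * w)) k) ≤
      2 * (∑ i, E (A (a i) (φ ((x i)⁻¹ * w)))) +
      2 * (r ^ 2 * ∑ i, if ¬ P i w then E (φ ((x i)⁻¹ * w)) else 0) := by
    intro w
    have e1 : (fun k => ∑ i, A (a i) (φ ((x i)⁻¹ * w)) k) =
        (fun k => ∑ i, if P i w then A (a i) (φ ((x i)⁻¹ * w)) k else 0) +
        (fun k => ∑ i, A (a i) (if ¬ P i w then φ ((x i)⁻¹ * w) else 0) k) := by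
      funext k
      rw [Pi.add_apply, ← Finset.sum_add_distrib]
      refine Finset.sum_congr rfl fun i _ => ?_
      by_cases h : P i w
      · simp [h, A]
      · simp [h]
    rw [e1]
    refine (E_add _ _).trans ?_
    have g1 := E_sum_single (P := fun i => P i w) (fun i j => hP1 w i j)
      (fun i => A (a i) (φ ((x i)⁻¹ * w)))
    have g2 := dual a r hr h1 (fun i => if ¬ P i w then φ ((x i)⁻¹ * w) else 0)
    have g3 : ∀ i, E (if ¬ P i w then φ ((x i)⁻¹ * w) else 0) =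
        if ¬ P i w then E (φ ((x i)⁻¹ * w)) else 0 := by
      intro i
      by_cases h : P i w
      · simp [h, E]
      · simp [h]
    rw [Finset.sum_congr rfl fun i _ => g3 i] at g2
    linarith
  have swap : ∀ f : F → ι → ENNReal, ∑' w, ∑ i, f w i = ∑ i, ∑' w, f w i := by
    intro f
    have e1 : ∀ w, ∑ i, f w i = ∑' i, f w i := fun w => (tsum_fintype _).symm
    simp_rw [e1]
    rw [ENNReal.tsum_comm, tsum_fintype]
  have reidx : ∀ (g : F) (f : F → ENNReal), ∑' w, f (g * w) = ∑' w, f w := fun g f =>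
    (Equiv.mulLeft g).tsum_eq f
  have s1 : ∑' w, ENNReal.ofReal (∑ i, E (A (a i) (φ ((x i)⁻¹ * w)))) ≤
      ENNReal.ofReal (r ^ 2) * ∑' w, ENNReal.ofReal (E (φ w)) := by
    have : ∀ w, ENNReal.ofReal (∑ i, E (A (a i) (φ ((x i)⁻¹ * w)))) =
        ∑ i, ENNReal.ofReal (E (A (a i) (φ ((x i)⁻¹ * w)))) := fun w =>
      ENNReal.ofReal_sum_of_nonneg fun i _ => E_nonneg _
    simp_rw [this]
    rw [swap]
    have e2 : ∀ i, ∑' w, ENNReal.ofReal (E (A (a i) (φ ((x i)⁻¹ * w)))) =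
        ∑' w, ENNReal.ofReal (E (A (a i) (φ w))) := fun i =>
      reidx (x i)⁻¹ (fun w => ENNReal.ofReal (E (A (a i) (φ w))))
    rw [Finset.sum_congr rfl fun i _ => e2 i, ← swap, ← ENNReal.tsum_mul_left]
    refine ENNReal.tsum_le_tsum fun w => ?_
    rw [← ENNReal.ofReal_mul (by positivity),
      ← ENNReal.ofReal_sum_of_nonneg fun i _ => E_nonneg _]
    exact ENNReal.ofReal_le_ofReal (h2 (φ w))
  have s2 : ∑' w, ENNReal.ofReal (∑ i, if ¬ P i w then E (φ ((x i)⁻¹ * w)) else 0) ≤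
      ∑' w, ENNReal.ofReal (E (φ w)) := by
    have : ∀ w, ENNReal.ofReal (∑ i, if ¬ P i w then E (φ ((x i)⁻¹ * w)) else 0) =
        ∑ i, ENNReal.ofReal (if ¬ P i w then E (φ ((x i)⁻¹ * w)) else 0) := fun w =>
      ENNReal.ofReal_sum_of_nonneg fun i _ => by
        split_ifs <;> first | exact le_rfl | exact E_nonneg _
    simp_rw [this]
    rw [swap]
    have e2 : ∀ i, ∑' w, ENNReal.ofReal (if ¬ P i w then E (φ ((x i)⁻¹ * w)) else 0) =
        ∑' u, ENNReal.ofReal (if ¬ P i (x i * u) then E (φ u) else 0) := by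
      intro i
      have := reidx (x i)⁻¹ (fun u => ENNReal.ofReal (if ¬ P i (x i * u) then E (φ u) else 0))
      simpa using this
    rw [Finset.sum_congr rfl fun i _ => e2 i, ← swap]
    refine ENNReal.tsum_le_tsum fun u => ?_
    rw [← ENNReal.ofReal_sum_of_nonneg]
    · refine ENNReal.ofReal_le_ofReal ?_
      by_cases h : ∃ i, ¬ P i (x i * u)
      · obtain ⟨i, hi⟩ := h
        rw [Finset.sum_eq_single i]
        · simp [hi]
        · intro j _ hj
          rw [if_neg]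
          intro hPj
          exact hj (hP2 u j i hPj hi)
        · simp
      · push Not at h
        rw [Finset.sum_eq_zero]
        · exact E_nonneg _
        · intro i _
          rw [if_neg]
          simpa using h i
    · intro i _
      split_ifs <;> first | exact le_rfl | exact E_nonneg _
  have nn1 : ∀ w, 0 ≤ ∑ i, E (A (a i) (φ ((x i)⁻¹ * w))) := fun w =>
    Finset.sum_nonneg fun i _ => E_nonneg _
  have nn2 : ∀ w, 0 ≤ ∑ i, if ¬ P i w then E (φ ((x i)⁻¹ * w)) else 0 := fun w =>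
    Finset.sum_nonneg fun i _ => by
      split_ifs <;> first | exact le_rfl | exact E_nonneg _
  calc ∑' w, ENNReal.ofReal (E (fun k => ∑ i, A (a i) (φ ((x i)⁻¹ * w)) k))
      ≤ ∑' w, (ENNReal.ofReal 2 * ENNReal.ofReal (∑ i, E (A (a i) (φ ((x i)⁻¹ * w)))) +
        ENNReal.ofReal (2 * r ^ 2) *
          ENNReal.ofReal (∑ i, if ¬ P i w then E (φ ((x i)⁻¹ * w)) else 0)) := by
        refine ENNReal.tsum_le_tsum fun w => ?_
        refine (ENNReal.ofReal_le_ofReal (key w)).trans ?_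
        rw [ENNReal.ofReal_add (by have := nn1 w; positivity) (by have := nn2 w; positivity),
          ENNReal.ofReal_mul (by norm_num), ← mul_assoc, ENNReal.ofReal_mul (by positivity)]
    _ = ENNReal.ofReal 2 * ∑' w, ENNReal.ofReal (∑ i, E (A (a i) (φ ((x i)⁻¹ * w)))) +
        ENNReal.ofReal (2 * r ^ 2) *
          ∑' w, ENNReal.ofReal (∑ i, if ¬ P i w then E (φ ((x i)⁻¹ * w)) else 0) := by
        rw [ENNReal.tsum_add, ENNReal.tsum_mul_left, ENNReal.tsum_mul_left]
    _ ≤ ENNReal.ofReal 2 * (ENNReal.ofReal (r ^ 2) * ∑' w, ENNReal.ofReal (E (φ w))) +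
        ENNReal.ofReal (2 * r ^ 2) * ∑' w, ENNReal.ofReal (E (φ w)) := by
        gcongr
    _ = ENNReal.ofReal ((2 * r) ^ 2) * ∑' w, ENNReal.ofReal (E (φ w)) := by
        rw [← mul_assoc, ← ENNReal.ofReal_mul (by norm_num), ← add_mul,
          ← ENNReal.ofReal_add (by positivity) (by positivity)]
        congr 2
        ring

/-- ping-pong in the free group -/
lemma head_of_not {ι : Type} [DecidableEq ι] (s : Bool) (i : ι) (u : FreeGroup ι)
    (h : ¬ (FreeGroup.mk [(i, s)] * u).toWord.head? = some (i, s)) :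
    u.toWord.head? = some (i, !s) := by
  have e : (FreeGroup.mk [(i, s)] * u).toWord = FreeGroup.reduce ((i, s) :: u.toWord) := by
    rw [FreeGroup.toWord_mul, FreeGroup.toWord_mk]
    simp
  rw [e, FreeGroup.reduce.cons, FreeGroup.reduce_toWord] at h
  cases hu : u.toWord with
  | nil => simp [hu] at h
  | cons hd tl =>
    rw [hu] at h
    by_cases hc : i = hd.1 ∧ s = !hd.2
    · obtain ⟨h1, h2⟩ := hc
      simp only [List.head?_cons, Option.some.injEq]
      apply Prod.ext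
      · exact h1.symm
      · simp [h2]
    · simp [hc] at h

end Pool.Agent.TH855.J5172
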