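import Mathlib
import Pool.Agent.TH855.J5172a
import Pool.Agent.TH278.DX.Defs3
set_option autoImplicit false

namespace Pool.Agent.TH855.J5172

open Finset

section op
variable {ι K G : Type} [Fintype ι] [Fintype K] [Group G]

/-- the operator on finitely supported vectors -/
noncomputable def op (x : ι → G) (a : ι → K → K → ℂ) : (G × K →₀ ℂ) →ₗ[ℂ] (G × K →₀ ℂ) :=
  Finsupp.linearCombination ℂ fun p : G × K =>
    ∑ i, ∑ k, Finsupp.single (x i * p.1, k) (a i k p.2)

lemma op_single (x : ι → G) (a : ι → K → K → ℂ) (u : G) (l : K) (c : ℂ) :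
    op x a (Finsupp.single (u, l) c) =
      ∑ i, ∑ k, Finsupp.single (x i * u, k) (c * a i k l) := by
  unfold op
  rw [Finsupp.linearCombination_single, Finset.smul_sum]
  refine Finset.sum_congr rfl fun i _ => ?_
  rw [Finset.smul_sum]
  refine Finset.sum_congr rfl fun k _ => ?_
  rw [Finsupp.smul_single, smul_eq_mul]

lemma op_apply (x : ι → G) (a : ι → K → K → ℂ) (φ : G × K →₀ ℂ) (w : G) (k : K) :
    op x a φ (w, k) = ∑ i, ∑ l, a i k l * φ ((x i)⁻¹ * w, l) := by
  classical
  induction φ using Finsupp.induction_linear with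
  | zero => simp
  | add f g hf hg =>
    rw [map_add, Finsupp.add_apply, hf, hg, ← Finset.sum_add_distrib]
    refine Finset.sum_congr rfl fun i _ => ?_
    rw [← Finset.sum_add_distrib]
    refine Finset.sum_congr rfl fun l _ => ?_
    rw [Finsupp.add_apply]; ring
  | single p c =>
    obtain ⟨u, l0⟩ := p
    rw [op_single, Finsupp.finset_sum_apply]
    refine Finset.sum_congr rfl fun i _ => ?_
    rw [Finsupp.finset_sum_apply, Finset.sum_eq_single k, Finset.sum_eq_single l0]
    · simp only [Finsupp.single_apply, Prod.mk.injEq, and_true]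
      by_cases h : x i * u = w
      · subst h; simp [mul_comm]
      · rw [if_neg h, if_neg]
        · simp
        · rintro rfl; simp at h
    · intro l _ hl
      simp [Finsupp.single_apply, Ne.symm hl]
    · simp
    · intro k' _ hk
      simp [Finsupp.single_apply, hk]
    · simp

/-- transfer along a homomorphism and a translation -/
lemma op_map {Q : Type} [Group Q] (f : G →* Q) (x0 : Q) (x : ι → G) (a : ι → K → K → ℂ)
    (φ : G × K →₀ ℂ) :
    Finsupp.mapDomain (fun p : G × K => (f p.1 * x0, p.2)) (op x a φ) =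
      op (fun i => f (x i)) a (Finsupp.mapDomain (fun p : G × K => (f p.1 * x0, p.2)) φ) := by
  induction φ using Finsupp.induction_linear with
  | zero => simp
  | add g h hg hh => rw [map_add, Finsupp.mapDomain_add, hg, hh, Finsupp.mapDomain_add, map_add]
  | single p c =>
    obtain ⟨u, l⟩ := p
    rw [op_single, Finsupp.mapDomain_single, op_single]
    rw [← Finsupp.mapDomain.addMonoidHom_apply, map_sum]
    refine Finset.sum_congr rfl fun i _ => ?_
    rw [map_sum]
    refine Finset.sum_congr rfl fun k _ => ?_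
    rw [Finsupp.mapDomain.addMonoidHom_apply, Finsupp.mapDomain_single]
    simp [mul_assoc]

end op

/-- coefficient of a push-forward -/
lemma mapDomain_coeff {α β : Type} (ρ : α → β) (v : α →₀ ℂ) (z0 : α)
    (h : ∀ z, v z ≠ 0 → ρ z = ρ z0 → z = z0) : Finsupp.mapDomain ρ v (ρ z0) = v z0 := by
  classical
  rw [Finsupp.mapDomain, Finsupp.sum_apply, Finsupp.sum]
  simp only [Finsupp.single_apply]
  by_cases h0 : v z0 = 0
  · rw [h0]
    refine Finset.sum_eq_zero fun z hz => ?_
    rw [if_neg]
    intro hρ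
    have := h z (Finsupp.mem_support_iff.1 hz) hρ
    subst this
    exact (Finsupp.mem_support_iff.1 hz) h0
  · rw [Finset.sum_eq_single z0]
    · simp
    · intro z hz hne
      rw [if_neg]
      intro hρ
      exact hne (h z (Finsupp.mem_support_iff.1 hz) hρ)
    · intro hn
      exact absurd (Finsupp.mem_support_iff.2 h0) hn

section free
variable {ι K : Type} [Fintype ι] [DecidableEq ι] [Fintype K]

/-- supported on words of length `≤ n` -/
def Supp (n : ℕ) (φ : FreeGroup ι × K →₀ ℂ) : Prop := ∀ w k, φ (w, k) ≠ 0 → w.norm ≤ n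

lemma supp_op (x : ι → FreeGroup ι) (hx : ∀ i, (x i).norm ≤ 1) (a : ι → K → K → ℂ) (n : ℕ)
    (φ : FreeGroup ι × K →₀ ℂ) (h : Supp n φ) : Supp (n + 1) (op x a φ) := by
  intro w k hw
  rw [op_apply] at hw
  obtain ⟨i, -, hi⟩ := Finset.exists_ne_zero_of_sum_ne_zero hw
  obtain ⟨l, -, hl⟩ := Finset.exists_ne_zero_of_sum_ne_zero hi
  have := h _ _ (right_ne_zero_of_mul hl)
  have e : w = x i * ((x i)⁻¹ * w) := by group
  rw [e]
  exact (FreeGroup.norm_mul_le _ _).trans (by have := hx i; omega)

/-- squared norm -/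
noncomputable def N (φ : FreeGroup ι × K →₀ ℂ) : ENNReal :=
  ∑' w, ENNReal.ofReal (E (fun k => φ (w, k)))

lemma N_op (s : Bool) (a : ι → K → K → ℂ) (r : ℝ) (hr : 0 ≤ r)
    (h1 : ∀ z : K → ℂ, ∑ i, ∑ l, ‖∑ k, a i k l * z k‖ ^ 2 ≤ r ^ 2 * ∑ k, ‖z k‖ ^ 2)
    (h2 : ∀ z : K → ℂ, ∑ i, ∑ k, ‖∑ l, a i k l * z l‖ ^ 2 ≤ r ^ 2 * ∑ l, ‖z l‖ ^ 2)
    (φ : FreeGroup ι × K →₀ ℂ) :
    N (op (fun i => FreeGroup.mk [(i, s)]) a φ) ≤ ENNReal.ofReal ((2 * r) ^ 2) * N φ := by
  have := bound (fun i => FreeGroup.mk [(i, s)]) (fun i w => w.toWord.head? = some (i, s))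
    (fun w i j hi hj => by
      rw [hi] at hj
      simpa using hj)
    (fun u i j hi hj => by
      have e1 := head_of_not s i u hi
      have e2 := head_of_not s j u hj
      rw [e1] at e2
      simpa using e2)
    a r hr h1 h2 (fun w k => φ (w, k))
  unfold N
  convert this using 5
  rename_i w
  funext k
  rw [op_apply]
  rfl

end free

end Pool.Agent.TH855.J5172
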