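import Mathlib
import Pool.Agent.TH855.J5172b
import Pool.Agent.TH278.DX.Defs3
set_option autoImplicit false

namespace Pool.Agent.TH855.J5172

open Finset

section Q
variable {ι K Q : Type} [Fintype ι] [Fintype K] [Group Q] [Fintype Q] [DecidableEq K]
  [DecidableEq Q]

/-- the Euclidean vector -/
noncomputable def toE (φ : Q × K →₀ ℂ) : EuclideanSpace ℂ (Q × K) := WithLp.toLp 2 fun p => φ p

lemma toE_single (y : Q × K) : toE (Finsupp.single y 1) = EuclideanSpace.single y (1 : ℂ) := by
  ext p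
  simp [toE, Finsupp.single_apply, EuclideanSpace.single_apply, eq_comm]

lemma S_toE (q : ι → Q) (a : ι → K → K → ℂ)
    (S : EuclideanSpace ℂ (Q × K) →L[ℂ] EuclideanSpace ℂ (Q × K))
    (hS : ∀ φ x k, S φ (x, k) = ∑ i, ∑ l, a i k l * φ ((q i)⁻¹ * x, l))
    (φ : Q × K →₀ ℂ) : S (toE φ) = toE (op q a φ) := by
  ext ⟨x, k⟩
  rw [hS]
  show _ = op q a φ (x, k)
  rw [op_apply]
  rfl

lemma adj_apply (q : ι → Q) (a : ι → K → K → ℂ)
    (S : EuclideanSpace ℂ (Q × K) →L[ℂ] EuclideanSpace ℂ (Q × K))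
    (hS : ∀ φ x k, S φ (x, k) = ∑ i, ∑ l, a i k l * φ ((q i)⁻¹ * x, l))
    (ψ : EuclideanSpace ℂ (Q × K)) (u : Q) (l : K) :
    ContinuousLinearMap.adjoint S ψ (u, l) =
      ∑ i, ∑ k, (starRingEnd ℂ) (a i k l) * ψ (((q i)⁻¹)⁻¹ * u, k) := by
  have e1 : ContinuousLinearMap.adjoint S ψ (u, l) =
      inner ℂ (EuclideanSpace.single (u, l) (1 : ℂ)) (ContinuousLinearMap.adjoint S ψ) := by
    rw [EuclideanSpace.inner_single_left]; simp
  rw [e1, ContinuousLinearMap.adjoint_inner_right]
  rw [PiLp.inner_apply, Fintype.sum_prod_type]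
  have e2 : ∀ x k, S (EuclideanSpace.single (u, l) (1 : ℂ)) (x, k) =
      ∑ i, if (q i)⁻¹ * x = u then a i k l else 0 := by
    intro x k
    rw [hS]
    refine Finset.sum_congr rfl fun i _ => ?_
    rw [Finset.sum_eq_single l]
    · by_cases h : (q i)⁻¹ * x = u <;> simp [EuclideanSpace.single_apply, h]
    · intro l' _ hl'
      simp [EuclideanSpace.single_apply, hl']
    · simp
  simp only [e2]
  have e3 : ∀ x k, inner ℂ (∑ i, if (q i)⁻¹ * x = u then a i k l else 0) (ψ (x, k)) =
      ∑ i, if x = q i * u then (starRingEnd ℂ) (a i k l) * ψ (x, k) else 0 := by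
    intro x k
    rw [RCLike.inner_apply, map_sum, Finset.mul_sum]
    refine Finset.sum_congr rfl fun i _ => ?_
    by_cases h : x = q i * u
    · subst h; simp [mul_comm]
    · rw [if_neg h, if_neg]
      · simp
      · rintro rfl; simp at h
  simp only [e3]
  rw [Finset.sum_comm]
  have e4 : ∀ k, ∑ x, ∑ i, (if x = q i * u then (starRingEnd ℂ) (a i k l) * ψ (x, k) else 0) =
      ∑ i, (starRingEnd ℂ) (a i k l) * ψ (q i * u, k) := by
    intro k
    rw [Finset.sum_comm]
    refine Finset.sum_congr rfl fun i _ => ?_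
    rw [Finset.sum_ite_eq' ]
    simp
  simp only [e4, inv_inv]
  rw [Finset.sum_comm]

lemma adj_toE (q : ι → Q) (a : ι → K → K → ℂ)
    (S : EuclideanSpace ℂ (Q × K) →L[ℂ] EuclideanSpace ℂ (Q × K))
    (hS : ∀ φ x k, S φ (x, k) = ∑ i, ∑ l, a i k l * φ ((q i)⁻¹ * x, l))
    (φ : Q × K →₀ ℂ) : ContinuousLinearMap.adjoint S (toE φ) =
      toE (op (fun i => (q i)⁻¹) (fun i l k => (starRingEnd ℂ) (a i k l)) φ) := by
  ext ⟨u, l⟩
  rw [adj_apply q a S hS]
  show _ = op _ _ φ (u, l)
  rw [op_apply]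
  rfl

lemma pow_toE (q : ι → Q) (a : ι → K → K → ℂ)
    (S : EuclideanSpace ℂ (Q × K) →L[ℂ] EuclideanSpace ℂ (Q × K))
    (hS : ∀ φ x k, S φ (x, k) = ∑ i, ∑ l, a i k l * φ ((q i)⁻¹ * x, l)) (p : ℕ)
    (φ : Q × K →₀ ℂ) : ((ContinuousLinearMap.adjoint S * S) ^ p) (toE φ) =
      toE ((fun v => op (fun i => (q i)⁻¹) (fun i l k => (starRingEnd ℂ) (a i k l))
        (op q a v))^[p] φ) := by
  induction p generalizing φ with
  | zero => simp
  | succ p ih =>
    rw [pow_succ, ContinuousLinearMap.mul_apply, ContinuousLinearMap.mul_apply,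
      S_toE q a S hS, adj_toE q a S hS, ih, Function.iterate_succ_apply]

end Q

theorem moment : Pool.Agent.TH278.DX.MomentProp := by
  intro ι K Q _ _ _ _ _ _ _ q p hgirth a r hr h1 h2 S hS y
  obtain ⟨x0, l0⟩ := y
  classical
  set b : ι → K → K → ℂ := fun i l k => (starRingEnd ℂ) (a i k l) with hb
  have b1 : ∀ z : K → ℂ, ∑ i, ∑ k, ‖∑ l, b i l k * z l‖ ^ 2 ≤ r ^ 2 * ∑ l, ‖z l‖ ^ 2 := by
    intro z
    have := h2 (fun l => (starRingEnd ℂ) (z l))
    simp only [RCLike.norm_conj] at this
    refine le_trans (le_of_eq ?_) this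
    refine Finset.sum_congr rfl fun i _ => Finset.sum_congr rfl fun k _ => ?_
    rw [← RCLike.norm_conj, map_sum]
    simp [hb]
  have b2 : ∀ z : K → ℂ, ∑ i, ∑ l, ‖∑ k, b i l k * z k‖ ^ 2 ≤ r ^ 2 * ∑ k, ‖z k‖ ^ 2 := by
    intro z
    have := h1 (fun l => (starRingEnd ℂ) (z l))
    simp only [RCLike.norm_conj] at this
    refine le_trans (le_of_eq ?_) this
    refine Finset.sum_congr rfl fun i _ => Finset.sum_congr rfl fun k _ => ?_
    rw [← RCLike.norm_conj, map_sum]
    simp [hb]
  set L : (FreeGroup ι × K →₀ ℂ) → (FreeGroup ι × K →₀ ℂ) :=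
    fun v => op (fun i => FreeGroup.mk [(i, false)]) b (op (fun i => FreeGroup.mk [(i, true)]) a v)
    with hL
  set δ : FreeGroup ι × K →₀ ℂ := Finsupp.single (1, l0) 1 with hδ
  -- support
  have hsupp : ∀ n : ℕ, Supp (2 * n) (L^[n] δ) := by
    intro n
    induction n with
    | zero =>
      intro w k hw
      simp only [Function.iterate_zero, id_eq, hδ, Finsupp.single_apply] at hw
      have : (1 : FreeGroup ι) = w := by
        by_contra hne
        apply hw
        rw [if_neg]
        intro h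
        exact hne (Prod.mk.inj h).1
      rw [← this]; simp
    | succ n ih =>
      rw [Function.iterate_succ_apply']
      have := supp_op (fun i => FreeGroup.mk [(i, false)]) (fun i => FreeGroup.norm_mk_le) b _ _
        (supp_op (fun i => FreeGroup.mk [(i, true)]) (fun i => FreeGroup.norm_mk_le) a _ _ ih)
      exact this
  -- norm
  have hN0 : N δ = 1 := by
    unfold N
    rw [tsum_eq_single 1]
    · have : E (fun k => δ (1, k)) = 1 := by
        unfold E
        rw [Finset.sum_eq_single l0]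
        · simp [hδ]
        · intro k _ hk
          simp [hδ, Finsupp.single_apply, Ne.symm hk]
        · simp
      rw [this]; simp
    · intro w hw
      have : E (fun k => δ (w, k)) = 0 := by
        unfold E
        refine Finset.sum_eq_zero fun k _ => ?_
        simp [hδ, Finsupp.single_apply, Ne.symm hw]
      rw [this]; simp
  have hN : ∀ n : ℕ, N (L^[n] δ) ≤ ENNReal.ofReal (((2 * r) ^ (2 * n)) ^ 2) := by
    intro n
    induction n with
    | zero => simp [hN0]
    | succ n ih =>
      rw [Function.iterate_succ_apply']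
      refine (N_op false b r hr b1 b2 _).trans ?_
      refine (mul_le_mul_right (N_op true a r hr h1 h2 _) _).trans ?_
      refine (mul_le_mul_right (mul_le_mul_right ih _) _).trans ?_
      rw [← ENNReal.ofReal_mul (by positivity), ← ENNReal.ofReal_mul (by positivity)]
      refine ENNReal.ofReal_le_ofReal (le_of_eq ?_)
      ring
  -- transfer
  set f : FreeGroup ι →* Q := FreeGroup.lift q with hf
  set ρ : FreeGroup ι × K → Q × K := fun p => (f p.1 * x0, p.2) with hρ
  have ht : ∀ n : ℕ, (fun v => op (fun i => (q i)⁻¹) b (op q a v))^[n]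
      (Finsupp.single (x0, l0) 1) = Finsupp.mapDomain ρ (L^[n] δ) := by
    intro n
    induction n with
    | zero => simp [hδ, hρ, Finsupp.mapDomain_single]
    | succ n ih =>
      rw [Function.iterate_succ_apply', ih, Function.iterate_succ_apply']
      have e1 := op_map f x0 (fun i => FreeGroup.mk [(i, true)]) a (L^[n] δ)
      have e2 := op_map f x0 (fun i => FreeGroup.mk [(i, false)]) b
        (op (fun i => FreeGroup.mk [(i, true)]) a (L^[n] δ))
      have g1 : (fun i => f (FreeGroup.mk [(i, true)])) = q := by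
        funext i; simp [hf]
      have g2 : (fun i => f (FreeGroup.mk [(i, false)])) = fun i => (q i)⁻¹ := by
        funext i; simp [hf]
      rw [g1] at e1
      rw [g2] at e2
      simp only [hL, hρ]
      rw [e2, e1]
  have hfin : ((ContinuousLinearMap.adjoint S * S) ^ p) (EuclideanSpace.single (x0, l0) 1) =
      toE (Finsupp.mapDomain ρ (L^[p] δ)) := by
    rw [← toE_single, pow_toE q a S hS, ← ht p]
  rw [hfin, EuclideanSpace.inner_single_right]
  have hco : Finsupp.mapDomain ρ (L^[p] δ) (x0, l0) = (L^[p] δ) (1, l0) := by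
    have := mapDomain_coeff ρ (L^[p] δ) (1, l0) (by
      rintro ⟨w, k⟩ hw hwk
      have hk := congrArg Prod.snd hwk
      have hq := congrArg Prod.fst hwk
      simp only [hρ, map_one, mul_left_inj] at hk hq
      by_contra hne
      have hw1 : w ≠ 1 := by
        rintro rfl
        exact hne (by rw [hk])
      exact hgirth w hw1 (hsupp p w k hw) hq)
    simpa [hρ] using this
  have hval : (toE (Finsupp.mapDomain ρ (L^[p] δ))) (x0, l0) = (L^[p] δ) (1, l0) := hco
  rw [hval]
  have hle : ENNReal.ofReal (‖(L^[p] δ) (1, l0)‖ ^ 2) ≤ N (L^[p] δ) := by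
    unfold N
    refine le_trans ?_ (ENNReal.le_tsum 1)
    refine ENNReal.ofReal_le_ofReal ?_
    unfold E
    exact Finset.single_le_sum (f := fun k => ‖(L^[p] δ) (1, k)‖ ^ 2)
      (fun _ _ => by positivity) (Finset.mem_univ l0)
  have h3 := (ENNReal.ofReal_le_ofReal_iff (by positivity)).1 (hle.trans (hN p))
  have h4 : ‖(L^[p] δ) (1, l0)‖ ≤ (2 * r) ^ (2 * p) :=
    (pow_le_pow_iff_left₀ (norm_nonneg _) (by positivity) two_ne_zero).1 h3
  refine (Complex.re_le_norm _).trans ?_
  simpa using h4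

end Pool.Agent.TH855.J5172
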